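import Mathlib
import Pool.Agent.W432.FD.Descend

set_option autoImplicit false

open Polynomial
open Pool.Agent.W432.PC Pool.Agent.W432.FD

namespace Pool.Agent.W77.IM

section eta

variable {K F : Type*} [Field K] [Field F] (δ : Derivation ℤ F F) (ι : K →+* F) (x : F)

lemma eval_deriv (hι : ∀ c, δ (ι c) = 0) (hx : δ x = 1) (q : K[X]) :
    δ (eval₂RingHom ι x q) = eval₂RingHom ι x (derivative q) := by
  induction q using Polynomial.induction_on' with
  | add p q hp hq => rw [map_add, map_add, hp, hq, derivative_add, map_add]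
  | monomial n a =>
    rw [derivative_monomial]
    simp only [coe_eval₂RingHom, eval₂_monomial, Derivation.leibniz, Derivation.leibniz_pow, hx, hι,
      smul_eq_mul, mul_one, mul_zero, add_zero, nsmul_eq_mul, map_mul, map_natCast]
    ring

lemma eval_injective [CharZero K] (hι : ∀ c, δ (ι c) = 0) (hx : δ x = 1) :
    Function.Injective (eval₂RingHom ι x) := by
  rw [injective_iff_map_eq_zero]
  suffices h : ∀ (n : ℕ) (q : K[X]), q.natDegree ≤ n → eval₂RingHom ι x q = 0 → q = 0 from
    fun q hq => h _ q le_rfl hq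
  intro n
  induction n with
  | zero =>
    intro q hq h0
    rw [Nat.le_zero] at hq
    rw [eq_C_of_natDegree_eq_zero hq] at h0 ⊢
    simp only [coe_eval₂RingHom, eval₂_C] at h0
    rw [(map_eq_zero ι).mp h0, map_zero]
  | succ n ih =>
    intro q hq h0
    have h1 := eval_deriv δ ι x hι hx q
    rw [h0, map_zero] at h1
    have h2 := ih (derivative q) ((natDegree_derivative_le q).trans (by omega)) h1.symm
    have h3 : q.natDegree = 0 := derivative_eq_zero.mp h2
    rw [eq_C_of_natDegree_eq_zero h3] at h0 ⊢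
    simp only [coe_eval₂RingHom, eval₂_C] at h0
    rw [(map_eq_zero ι).mp h0, map_zero]

/-- The embedding of `K(x)` into `F`. -/
noncomputable def eta (h : Function.Injective (eval₂RingHom ι x)) : RatFunc K →+* F :=
  IsFractionRing.lift (A := K[X]) (K := RatFunc K) h

variable (h : Function.Injective (eval₂RingHom ι x))

lemma eta_algebraMap (q : K[X]) :
    eta ι x h (algebraMap K[X] (RatFunc K) q) = eval₂RingHom ι x q :=
  IsFractionRing.lift_algebraMap h q

lemma eta_ddx (hι : ∀ c, δ (ι c) = 0) (hx : δ x = 1) (f : RatFunc K) :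
    δ (eta ι x h f) = eta ι x h (ddx K f) := by
  obtain ⟨a, b, hb, hf⟩ := IsFractionRing.div_surjective (A := K[X]) f
  have hb0 : algebraMap K[X] (RatFunc K) b ≠ 0 := by
    rw [Ne, map_eq_zero_iff _ (IsFractionRing.injective K[X] (RatFunc K))]
    exact nonZeroDivisors.ne_zero hb
  have h1 : f * algebraMap K[X] (RatFunc K) b = algebraMap K[X] (RatFunc K) a := by
    rw [← hf, div_mul_cancel₀ _ hb0]
  have h2 := congrArg (fun z => δ (eta ι x h z)) h1
  have h3 := congrArg (fun z => eta ι x h (ddx K z)) h1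
  simp only [map_mul, Derivation.leibniz, smul_eq_mul, map_add, eta_algebraMap, ddx_algebraMap,
    eval_deriv δ ι x hι hx] at h2 h3
  have h4 : eval₂RingHom ι x b ≠ 0 := by
    rw [← eta_algebraMap ι x h, Ne, map_eq_zero]
    exact hb0
  apply mul_left_cancel₀ h4
  linear_combination h2 - h3

end eta

section phi

variable {K F : Type*} [Field K] [Field F] (δ : Derivation ℤ F F) (η : RatFunc K →+* F)
  {V : Type*} [AddCommGroup V] [Module F V] (nabla : V →+ V) {N : ℕ} (b : Fin N → V)

/-- The map from `K(x)^N` to `V` given by a family of vectors. -/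
noncomputable def Ph (y : Fin N → RatFunc K) : V := ∑ j, η (y j) • b j

variable {δ η nabla b}

lemma Ph_single (l : Fin N) : Ph η b (Pi.single l 1) = b l := by
  classical
  unfold Ph
  rw [Finset.sum_eq_single l]
  · rw [Pi.single_eq_same, map_one, one_smul]
  · intro j _ hj
    rw [Pi.single_eq_of_ne hj, map_zero, zero_smul]
  · intro h; exact absurd (Finset.mem_univ l) h

lemma Ph_conn (hη : ∀ f, δ (η f) = η (ddx K f))
    (hnabla : ∀ (f : F) (v : V), nabla (f • v) = δ f • v + f • nabla v) {T : K[X]} (hT : T ≠ 0)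
    {M : Matrix (Fin N) (Fin N) K[X]}
    (hb : ∀ j, η (algebraMap K[X] (RatFunc K) T) • nabla (b j) =
      -∑ i, η (algebraMap K[X] (RatFunc K) (M i j)) • b i) (y : Fin N → RatFunc K) :
    nabla (Ph η b y) = Ph η b (conn T M y) := by
  have hT' : η (algebraMap K[X] (RatFunc K) T) ≠ 0 := by
    rw [Ne, map_eq_zero, map_eq_zero_iff _ (IsFractionRing.injective K[X] (RatFunc K))]
    exact hT
  have hb' : ∀ j, nabla (b j) = -∑ i, ((η (algebraMap K[X] (RatFunc K) T))⁻¹ *
      η (algebraMap K[X] (RatFunc K) (M i j))) • b i := by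
    intro j
    have h1 := congrArg (fun v => (η (algebraMap K[X] (RatFunc K) T))⁻¹ • v) (hb j)
    simp only [smul_smul, inv_mul_cancel₀ hT', one_smul, smul_neg, Finset.smul_sum] at h1
    exact h1
  unfold Ph
  rw [map_sum]
  simp only [hnabla, hη, hb', conn, Finset.sum_add_distrib, map_sub, sub_smul,
    Finset.sum_sub_distrib, smul_neg, Finset.sum_neg_distrib, Finset.smul_sum, smul_smul]
  rw [sub_eq_add_neg]
  congr 2
  rw [Finset.sum_comm]
  refine Finset.sum_congr rfl fun i _ => ?_
  rw [← Finset.sum_smul]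
  congr 1
  rw [map_mul, map_inv₀]
  simp only [Matrix.mulVec, dotProduct, Matrix.map_apply, map_sum, map_mul, Finset.mul_sum]
  exact Finset.sum_congr rfl fun j _ => by ring

lemma Ph_iterate (hη : ∀ f, δ (η f) = η (ddx K f))
    (hnabla : ∀ (f : F) (v : V), nabla (f • v) = δ f • v + f • nabla v) {T : K[X]} (hT : T ≠ 0)
    {M : Matrix (Fin N) (Fin N) K[X]}
    (hb : ∀ j, η (algebraMap K[X] (RatFunc K) T) • nabla (b j) =
      -∑ i, η (algebraMap K[X] (RatFunc K) (M i j)) • b i) (n : ℕ) (l : Fin N) :
    η (algebraMap K[X] (RatFunc K) T) ^ n • nabla^[n] (b l) =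
      ∑ j, η (algebraMap K[X] (RatFunc K) (QQ T M n j l)) • b j := by
  have h1 : nabla^[n] (b l) = Ph η b ((conn T M)^[n] (Pi.single l 1)) := by
    induction n with
    | zero => rw [Function.iterate_zero, Function.iterate_zero, id, id, Ph_single]
    | succ n ih =>
      rw [Function.iterate_succ_apply', Function.iterate_succ_apply', ih,
        Ph_conn hη hnabla hT hb]
  rw [h1]
  unfold Ph
  rw [Finset.smul_sum]
  refine Finset.sum_congr rfl fun j _ => ?_
  rw [smul_smul, ← conn_iterate hT, map_mul, map_pow]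

end phi

end Pool.Agent.W77.IM
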