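import Mathlib

set_option autoImplicit false

open Polynomial Module

namespace Pool.Agent.W77.IM

/-- Bases of lattices over `K[x]`. -/
lemma exists_lattice {K F V : Type*} [Field K] [Field F] (e : K[X] →+* F)
    (he : Function.Injective e) [AddCommGroup V] [Module F V] {q : ℕ} (s : Fin q → V) :
    ∃ (N : ℕ) (b : Fin N → V) (σ : Fin N → Fin q → K[X]) (τ : Fin q → Fin N → K[X]),
      (∀ i, s i = ∑ j, e (σ j i) • b j) ∧ (∀ j, b j = ∑ i, e (τ i j) • s i) ∧
      ∀ c : Fin N → K[X], ∑ j, e (c j) • b j = 0 → c = 0 := by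
  classical
  let _ : Module K[X] V := Module.compHom V e
  have hsm : ∀ (f : K[X]) (u : V), f • u = e f • u := fun _ _ => rfl
  let Λ : Submodule K[X] V := Submodule.span K[X] (Set.range s)
  have hfg : Module.Finite K[X] Λ := Module.Finite.iff_fg.mpr (Submodule.fg_span (Set.finite_range s))
  have htfV : Module.IsTorsionFree K[X] V := by
    refine ⟨fun f hf u v huv => ?_⟩
    have h1 : e f • u = e f • v := huv
    have hf0 : e f ≠ 0 := by
      rw [Ne, map_eq_zero_iff e he]
      exact hf.ne_zero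
    exact smul_right_injective V hf0 h1
  have htf : Module.IsTorsionFree K[X] Λ := inferInstance
  have hfree : Module.Free K[X] Λ := inferInstance
  obtain ⟨N, ⟨bV⟩⟩ : ∃ N : ℕ, Nonempty (Basis (Fin N) K[X] Λ) := ⟨_, ⟨Module.finBasis K[X] Λ⟩⟩
  have hsmem : ∀ i, s i ∈ Λ := fun i => Submodule.subset_span ⟨i, rfl⟩
  have hτ : ∀ j, ∃ c : Fin q → K[X], ∑ i, c i • s i = (bV j : V) := fun j =>
    (Submodule.mem_span_range_iff_exists_fun K[X]).mp (bV j).2
  choose τ hτ using hτ
  refine ⟨N, fun j => bV j, fun j i => bV.repr ⟨s i, hsmem i⟩ j, fun i j => τ j i, ?_, ?_, ?_⟩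
  · intro i
    have h1 := congrArg (fun a : Λ => (a : V)) (bV.sum_repr ⟨s i, hsmem i⟩)
    simp only [AddSubmonoidClass.coe_finsetSum, Submodule.coe_smul] at h1
    exact h1.symm
  · intro j
    exact (hτ j).symm
  · intro c hc
    have h1 : ∑ j, c j • bV j = 0 := by
      apply Subtype.ext
      simp only [AddSubmonoidClass.coe_finsetSum, Submodule.coe_smul]
      exact hc
    funext j
    exact (Fintype.linearIndependent_iff.mp bV.linearIndependent) c h1 j

section adj

variable {R₀ R F : Type*} [CommRing R₀] [CommRing R] [Algebra R₀ R] [Field F] [Algebra R F]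
  [Algebra R₀ F] [IsScalarTower R₀ R F] (x : F) (T : R₀[X])

/-- The coordinate ring `R[x, 1/T]`. -/
abbrev CoordRing (R : Type*) [CommRing R] [Algebra R F] : Subalgebra R F :=
  Algebra.adjoin R {x, (aeval x T)⁻¹}

lemma aeval_T : aeval x T = aeval x (T.map (algebraMap R₀ R)) := by
  rw [aeval_map_algebraMap]

variable {x T}

lemma adj (hT : aeval x T ≠ 0) {a : F} (ha : a ∈ CoordRing x T R) :
    ∃ (n : ℕ) (f : R[X]), (aeval x T) ^ n * a = aeval x f := by
  have hT' : (aeval x T : F) = aeval x (T.map (algebraMap R₀ R)) := aeval_T x T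
  induction ha using Algebra.adjoin_induction with
  | mem a ha =>
    rcases ha with rfl | ha
    · exact ⟨0, X, by rw [pow_zero, one_mul, aeval_X]⟩
    · rw [Set.mem_singleton_iff] at ha
      exact ⟨1, 1, by rw [ha, pow_one, mul_inv_cancel₀ hT, map_one]⟩
  | algebraMap c => exact ⟨0, C c, by rw [pow_zero, one_mul, aeval_C]⟩
  | add a b _ _ ha hb =>
    obtain ⟨n, f, hf⟩ := ha
    obtain ⟨m, g, hg⟩ := hb
    refine ⟨n + m, f * (T.map (algebraMap R₀ R)) ^ m + g * (T.map (algebraMap R₀ R)) ^ n, ?_⟩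
    rw [map_add, map_mul, map_mul, map_pow, map_pow, ← hT', ← hf, ← hg]
    ring
  | mul a b _ _ ha hb =>
    obtain ⟨n, f, hf⟩ := ha
    obtain ⟨m, g, hg⟩ := hb
    refine ⟨n + m, f * g, ?_⟩
    rw [map_mul, ← hf, ← hg]
    ring

variable {V : Type*} [AddCommGroup V] [Module F V]

/-- Elements of the form `T ^ (-n) ∑ f i s i`, with `f i` having coefficients in `I`. -/
def Rep (x : F) (T : R₀[X]) (I : Ideal R) {q : ℕ} (s : Fin q → V) (e : V) : Prop :=
  ∃ (n : ℕ) (f : Fin q → R[X]), (∀ i m, (f i).coeff m ∈ I) ∧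
    (aeval x T : F) ^ n • e = ∑ i, (aeval x (f i) : F) • s i

lemma Rep.raise {I : Ideal R} {q : ℕ} {s : Fin q → V} {e : V} {n : ℕ} {f : Fin q → R[X]}
    (hf : ∀ i m, (f i).coeff m ∈ I) (h : (aeval x T : F) ^ n • e = ∑ i, (aeval x (f i) : F) • s i)
    (m : ℕ) : ∃ f' : Fin q → R[X], (∀ i m, (f' i).coeff m ∈ I) ∧
      (aeval x T : F) ^ (n + m) • e = ∑ i, (aeval x (f' i) : F) • s i := by
  refine ⟨fun i => (T.map (algebraMap R₀ R)) ^ m * f i, fun i l => ?_, ?_⟩
  · rw [coeff_mul]
    exact Ideal.sum_mem _ fun y _ => Ideal.mul_mem_left _ _ (hf i _)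
  · rw [add_comm, pow_add, mul_smul, h, Finset.smul_sum]
    refine Finset.sum_congr rfl fun i _ => ?_
    rw [smul_smul, map_mul, map_pow, ← aeval_T (R := R) x T]

lemma Rep.add {I : Ideal R} {q : ℕ} {s : Fin q → V} {e e' : V} (h : Rep x T I s e)
    (h' : Rep x T I s e') : Rep x T I s (e + e') := by
  obtain ⟨n, f, hf, h1⟩ := h
  obtain ⟨m, g, hg, h2⟩ := h'
  obtain ⟨f', hf', h1'⟩ := Rep.raise hf h1 m
  obtain ⟨g', hg', h2'⟩ := Rep.raise hg h2 n
  refine ⟨n + m, fun i => f' i + g' i, fun i l => ?_, ?_⟩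
  · rw [coeff_add]; exact I.add_mem (hf' i l) (hg' i l)
  · rw [smul_add, h1', add_comm n m, h2', ← Finset.sum_add_distrib]
    refine Finset.sum_congr rfl fun i _ => ?_
    rw [map_add, add_smul]

omit [Algebra R₀ R] [IsScalarTower R₀ R F] in
lemma Rep.zero {I : Ideal R} {q : ℕ} {s : Fin q → V} : Rep x T I s (0 : V) :=
  ⟨0, fun _ => 0, fun i m => by rw [coeff_zero]; exact I.zero_mem, by simp⟩

lemma Rep.mul {I : Ideal R} {q : ℕ} {s : Fin q → V} {e : V} (hT : (aeval x T : F) ≠ 0)
    (h : Rep x T I s e) {a : F} (ha : a ∈ CoordRing x T R) : Rep x T I s (a • e) := by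
  obtain ⟨n, f, hf, h1⟩ := h
  obtain ⟨m, g, hg⟩ := adj hT ha
  refine ⟨n + m, fun i => g * f i, fun i l => ?_, ?_⟩
  · rw [coeff_mul]
    exact Ideal.sum_mem _ fun y _ => Ideal.mul_mem_left _ _ (hf i _)
  · rw [smul_smul, pow_add, mul_assoc, hg, mul_comm, mul_smul, h1, Finset.smul_sum]
    refine Finset.sum_congr rfl fun i _ => ?_
    rw [smul_smul, map_mul]

lemma Rep.sum {I : Ideal R} {q : ℕ} {s : Fin q → V} {ι : Type*} (t : Finset ι) {e : ι → V}
    (h : ∀ i ∈ t, Rep x T I s (e i)) : Rep x T I s (∑ i ∈ t, e i) := by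
  classical
  induction t using Finset.induction_on with
  | empty => rw [Finset.sum_empty]; exact Rep.zero
  | insert a t ha ih =>
    rw [Finset.sum_insert ha]
    exact (h a (Finset.mem_insert_self _ _)).add (ih fun i hi => h i (Finset.mem_insert_of_mem hi))

/-- Elements of the lattice. -/
lemma rep_of_mem (hT : (aeval x T : F) ≠ 0) {q : ℕ} {s : Fin q → V}
    {E : Submodule (CoordRing x T R) V} (hE : E = Submodule.span (CoordRing x T R) (Set.range s))
    {e : V} (he : e ∈ E) : Rep x T (⊤ : Ideal R) s e := by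
  classical
  rw [hE] at he
  obtain ⟨c, rfl⟩ := (Submodule.mem_span_range_iff_exists_fun _).mp he
  refine Rep.sum _ fun i _ => ?_
  have h1 : c i • s i = (c i : F) • s i := rfl
  rw [h1]
  refine Rep.mul hT ?_ (c i).2
  refine ⟨0, Pi.single i 1, fun _ _ => Submodule.mem_top, ?_⟩
  rw [pow_zero, one_smul, Finset.sum_eq_single i]
  · rw [Pi.single_eq_same, map_one, one_smul]
  · intro j _ hj
    rw [Pi.single_eq_of_ne hj, map_zero, zero_smul]
  · intro h; exact absurd (Finset.mem_univ i) h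

/-- Elements of `𝔪 E`. -/
lemma rep_of_mem_smul (hT : (aeval x T : F) ≠ 0) {q : ℕ} {s : Fin q → V}
    {E : Submodule (CoordRing x T R) V} (hE : E = Submodule.span (CoordRing x T R) (Set.range s))
    (I : Ideal R) {e : V} (he : e ∈ I.map (algebraMap R (CoordRing x T R)) • E) :
    Rep x T I s e := by
  induction he using Submodule.smul_induction_on' with
  | smul r hr e he =>
    induction hr using Submodule.span_induction generalizing e with
    | mem r hr =>
      obtain ⟨a, ha, rfl⟩ := hr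
      obtain ⟨n, f, -, h1⟩ := rep_of_mem hT hE he
      refine ⟨n, fun i => C a * f i, fun i l => ?_, ?_⟩
      · rw [coeff_C_mul]; exact I.mul_mem_right _ ha
      · have h2 : (algebraMap R (CoordRing x T R) a) • e = (algebraMap R F a) • e := rfl
        rw [h2, smul_comm, h1, Finset.smul_sum]
        refine Finset.sum_congr rfl fun i _ => ?_
        rw [smul_smul, map_mul, aeval_C]
    | zero => rw [zero_smul]; exact Rep.zero
    | add a b _ _ ha hb => rw [add_smul]; exact (ha e he).add (hb e he)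
    | smul a b _ hb => rw [smul_assoc]; exact (hb e he).mul hT a.2
  | add a _ b _ ha hb => exact ha.add hb

end adj

end Pool.Agent.W77.IM
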