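import Mathlib
import Pool.Agent.W432.FD.Descend

set_option autoImplicit false

open Polynomial
open Pool.Agent.W432.PC Pool.Agent.W432.FD

namespace Pool.Agent.W77.IM

section charp

variable {κ : Type*} [Field κ] {p : ℕ} [CharP κ p]

lemma ddx_iterate_mul_const {u : RatFunc κ} (hu : ddx κ u = 0) (f : RatFunc κ) (n : ℕ) :
    (ddx κ)^[n] (f * u) = (ddx κ)^[n] f * u := by
  induction n with
  | zero => rfl
  | succ n ih =>
    rw [Function.iterate_succ_apply', Function.iterate_succ_apply', ih, Derivation.leibniz, hu,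
      smul_zero, zero_add, smul_eq_mul, mul_comm]

lemma ddx_iterate_poly (q : κ[X]) (n : ℕ) :
    (ddx κ)^[n] (algebraMap κ[X] (RatFunc κ) q) = algebraMap κ[X] (RatFunc κ) (derivative^[n] q) := by
  induction n with
  | zero => rfl
  | succ n ih => rw [Function.iterate_succ_apply', Function.iterate_succ_apply', ih, ddx_algebraMap]

lemma derivative_iterate_char (hp : p.Prime) (q : κ[X]) : derivative^[p] q = 0 := by
  have h1 := congrFun (factorial_smul_hasseDeriv (R := κ) (k := p)) q
  rw [← h1]
  rw [LinearMap.smul_apply, ← Nat.cast_smul_eq_nsmul κ]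
  have h2 : ((p.factorial : ℕ) : κ) = 0 :=
    (CharP.cast_eq_zero_iff κ p _).mpr (Nat.dvd_factorial hp.pos le_rfl)
  rw [h2, zero_smul]

lemma ddx_iterate_char (hp : p.Prime) (f : RatFunc κ) : (ddx κ)^[p] f = 0 := by
  obtain ⟨a, b, hb, rfl⟩ := IsFractionRing.div_surjective (A := κ[X]) f
  have hb0 : algebraMap κ[X] (RatFunc κ) b ≠ 0 := by
    rw [Ne, map_eq_zero_iff _ (IsFractionRing.injective κ[X] (RatFunc κ))]
    exact nonZeroDivisors.ne_zero hb
  have hu : ddx κ ((algebraMap κ[X] (RatFunc κ) b ^ p)⁻¹) = 0 := by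
    rw [Derivation.leibniz_inv, Derivation.leibniz_pow]
    have : ((p : ℕ) : RatFunc κ) = 0 := by
      have h1 : ((p : ℕ) : RatFunc κ) = algebraMap κ (RatFunc κ) (p : κ) := by simp
      rw [h1, CharP.cast_eq_zero, map_zero]
    rw [← Nat.cast_smul_eq_nsmul (RatFunc κ), this, zero_smul, smul_zero]
  have h1 : algebraMap κ[X] (RatFunc κ) a / algebraMap κ[X] (RatFunc κ) b =
      algebraMap κ[X] (RatFunc κ) (a * b ^ (p - 1)) * (algebraMap κ[X] (RatFunc κ) b ^ p)⁻¹ := by
    rw [map_mul, map_pow]
    obtain ⟨m, rfl⟩ : ∃ m, p = m + 1 := ⟨p - 1, by have := hp.pos; omega⟩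
    rw [Nat.add_sub_cancel, pow_succ]
    field_simp
  rw [h1, ddx_iterate_mul_const hu, ddx_iterate_poly, derivative_iterate_char hp, map_zero,
    zero_mul]

/-- The `p`-th power of a connection is linear. -/
lemma conn_iterate_smul (hp : p.Prime) {r : ℕ} (T : κ[X]) (M : Matrix (Fin r) (Fin r) κ[X])
    (f : RatFunc κ) (y : Fin r → RatFunc κ) :
    (conn T M)^[p] (f • y) = f • (conn T M)^[p] y := by
  let V := Fin r → RatFunc κ
  let D : Module.End ℤ V :=
    { toFun := conn T M
      map_add' := conn_add T M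
      map_smul' := by
        intro n y
        have h1 := conn_smul T M (n : RatFunc κ) y
        have h2 : ddx κ (n : RatFunc κ) = 0 := by
          have h3 : (n : RatFunc κ) = algebraMap κ (RatFunc κ) (n : κ) := by simp
          rw [h3, Derivation.map_algebraMap]
        rw [h2, zero_smul, zero_add, Int.cast_smul_eq_zsmul, Int.cast_smul_eq_zsmul] at h1
        exact h1 }
  let mu : RatFunc κ → Module.End ℤ V := fun f =>
    { toFun := fun y => f • y
      map_add' := fun y z => smul_add f y z
      map_smul' := fun n y => smul_comm f n y }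
  let Lm : Module.End ℤ (Module.End ℤ V) := LinearMap.mulLeft ℤ D
  let Rm : Module.End ℤ (Module.End ℤ V) := LinearMap.mulRight ℤ D
  have hcomm : Commute Lm Rm := LinearMap.commute_mulLeft_right D D
  have hcomm' : Commute (Lm - Rm) Rm := hcomm.sub_left (Commute.refl _)
  have had : ∀ f, (Lm - Rm) (mu f) = mu (ddx κ f) := by
    intro f
    refine LinearMap.ext fun y => ?_
    change conn T M (f • y) - f • conn T M y = ddx κ f • y
    rw [conn_smul]
    abel
  have had' : ∀ (n : ℕ) (f : RatFunc κ), ((Lm - Rm) ^ n) (mu f) = mu ((ddx κ)^[n] f) := by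
    intro n
    induction n with
    | zero => intro f; rfl
    | succ n ih =>
      intro f
      rw [pow_succ, Module.End.mul_apply, had, ih, ← Function.iterate_succ_apply]
  obtain ⟨Z, hZ⟩ := hcomm'.exists_add_pow_prime_eq hp
  rw [sub_add_cancel] at hZ
  have h1 := congrArg (fun W : Module.End ℤ (Module.End ℤ V) => W (mu f) y) hZ
  simp only [LinearMap.add_apply] at h1
  rw [had', ddx_iterate_char hp, LinearMap.pow_mulLeft, LinearMap.pow_mulRight] at h1
  have h2 : mu 0 y = 0 := zero_smul _ _
  have h3 : ∀ (n : ℕ) (y : V), (D ^ n) y = (conn T M)^[n] y := by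
    intro n y
    rw [Module.End.pow_apply]
    rfl
  rw [h2, zero_add] at h1
  have h4 : (LinearMap.mulLeft ℤ (D ^ p)) (mu f) y = (conn T M)^[p] (f • y) := by
    rw [LinearMap.mulLeft_apply, Module.End.mul_apply, h3]
    rfl
  have h5 : (LinearMap.mulRight ℤ (D ^ p)) (mu f) y = f • (conn T M)^[p] y := by
    rw [LinearMap.mulRight_apply, Module.End.mul_apply, h3]
    rfl
  have h6 : (((p : ℕ) : Module.End ℤ (Module.End ℤ V)) * (Lm - Rm) * Rm * Z) (mu f) y = 0 := by
    rw [mul_assoc, mul_assoc, Module.End.mul_apply, Module.End.natCast_apply,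
      LinearMap.smul_apply]
    set v := (((Lm - Rm) * (Rm * Z)) (mu f)) y
    have h7 : (p : ℕ) • v = ((p : ℕ) : RatFunc κ) • v := (Nat.cast_smul_eq_nsmul _ _ _).symm
    have h8 : ((p : ℕ) : RatFunc κ) = 0 := by
      have h1 : ((p : ℕ) : RatFunc κ) = algebraMap κ (RatFunc κ) (p : κ) := by simp
      rw [h1, CharP.cast_eq_zero, map_zero]
    rw [h7, h8, zero_smul]
  rw [h4, h5, h6, add_zero] at h1
  exact h1

/-- A connection which is nilpotent on the basis vectors has nilpotent `p`-curvature. -/
theorem pnilp_of (hp : p.Prime) {r : ℕ} (T : κ[X]) (M : Matrix (Fin r) (Fin r) κ[X])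
    (h : ∀ l : Fin r, ∃ n : ℕ, (conn T M)^[n] (Pi.single l 1) = 0) : PNilp T M := by
  classical
  have hrc : ringChar κ = p := ringChar.eq _ _
  unfold PNilp
  rw [hrc]
  let Ψ : Module.End (RatFunc κ) (Fin r → RatFunc κ) :=
    { toFun := (conn T M)^[p]
      map_add' := by
        intro y z
        generalize p = n
        induction n with
        | zero => rfl
        | succ n ih => rw [Function.iterate_succ_apply', Function.iterate_succ_apply',
            Function.iterate_succ_apply', ih, conn_add]
      map_smul' := conn_iterate_smul hp T M }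
  have hzero : ∀ n, (conn T M)^[n] 0 = 0 := by
    intro n
    induction n with
    | zero => rfl
    | succ n ih => rw [Function.iterate_succ_apply', ih, conn_zero]
  have hpow : ∀ n y, (Ψ ^ n) y = (conn T M)^[p * n] y := by
    intro n y
    rw [Module.End.pow_apply, Function.iterate_mul]
    rfl
  choose n hn using h
  have hnil : IsNilpotent Ψ := by
    refine ⟨∑ l, n l, ?_⟩
    refine LinearMap.pi_ext' fun l => ?_
    refine LinearMap.ext_ring ?_
    rw [LinearMap.comp_apply, LinearMap.zero_comp, LinearMap.zero_apply]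
    change (Ψ ^ (∑ l, n l)) (Pi.single l 1) = 0
    rw [hpow]
    have h1 : n l ≤ p * ∑ l, n l := by
      have h2 : n l ≤ ∑ l, n l := Finset.single_le_sum (f := n) (fun _ _ => Nat.zero_le _)
        (Finset.mem_univ l)
      have h3 := hp.pos
      calc n l ≤ ∑ l, n l := h2
        _ ≤ p * ∑ l, n l := Nat.le_mul_of_pos_left _ h3
    rw [← Nat.sub_add_cancel h1, Function.iterate_add_apply, hn, hzero]
  have hchar := (LinearMap.isNilpotent_iff_charpoly Ψ).mp hnil
  have h1 := LinearMap.aeval_self_charpoly Ψ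
  rw [hchar, map_pow, aeval_X, Module.finrank_fintype_fun_eq_card, Fintype.card_fin] at h1
  intro y
  have h2 := congrArg (fun W : Module.End (RatFunc κ) (Fin r → RatFunc κ) => W y) h1
  simp only [LinearMap.zero_apply] at h2
  rw [Module.End.pow_apply] at h2
  exact h2

end charp

end Pool.Agent.W77.IM
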