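import Mathlib
import Pool.Agent.W432.FD.Main
import Pool.Agent.W77.IM.PN
import Pool.Agent.W77.IM.Eta
import Pool.Agent.W77.IM.Lat

set_option autoImplicit false

open Polynomial Module
open Pool.Agent.W432.PC Pool.Agent.W432.FD

namespace Pool.Agent.W77.IM

universe u v w

/-- Finitely many polynomials have a common denominator. -/
lemma clear_poly {R K : Type*} [CommRing R] [IsDomain R] [Field K] [Algebra R K]
    [IsFractionRing R K] {ι : Type*} [Fintype ι] (p : ι → K[X]) :
    ∃ c : R, c ≠ 0 ∧ ∃ g : ι → R[X], ∀ i,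
      C (algebraMap R K c) * p i = (g i).map (algebraMap R K) := by
  classical
  have h1 : ∀ i, ∃ c : R, c ≠ 0 ∧ ∃ g : R[X], C (algebraMap R K c) * p i =
      g.map (algebraMap R K) := by
    intro i
    obtain ⟨c, hcm, hc⟩ := IsLocalization.integerNormalization_spec (nonZeroDivisors R) (p i)
    refine ⟨c, nonZeroDivisors.ne_zero hcm,
      IsLocalization.integerNormalization (nonZeroDivisors R) (p i), ?_⟩
    rw [hc, ← Polynomial.smul_eq_C_mul, algebraMap_smul]
  choose c hc g hg using h1
  refine ⟨∏ i, c i, Finset.prod_ne_zero_iff.mpr fun i _ => hc i,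
    fun i => C (∏ j ∈ Finset.univ.erase i, c j) * g i, fun i => ?_⟩
  rw [Polynomial.map_mul, ← hg i, map_C, ← Finset.mul_prod_erase _ _ (Finset.mem_univ i)]
  simp only [map_mul]
  ring

/-- Residue fields of rings of finite type over the integers have prime characteristic. -/
lemma exists_char {A κ : Type*} [CommRing A] [Algebra ℤ A] [Algebra.FiniteType ℤ A] [Field κ]
    (f : A →+* κ) (hf : Function.Surjective f) : ∃ p : ℕ, p.Prime ∧ CharP κ p := by
  have hjac : IsJacobsonRing ℤ := jac_int
  have hcomm : ∀ n : ℤ, f (algebraMap ℤ A n) = algebraMap ℤ κ n := by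
    intro n
    have h1 : algebraMap ℤ A n = (n : A) := eq_intCast (algebraMap ℤ A) n
    rw [h1, map_intCast, eq_intCast]
  let f' : A →ₐ[ℤ] κ := { f with commutes' := hcomm }
  have hft : Algebra.FiniteType ℤ κ := Algebra.FiniteType.of_surjective f' hf
  have hfin : Module.Finite ℤ κ := finite_of_finite_type_of_isJacobsonRing ℤ κ
  obtain ⟨p, hp⟩ := CharP.exists κ
  rcases CharP.char_is_prime_or_zero κ p with h | h
  · exact ⟨p, h, hp⟩
  · subst h
    have hch : CharZero κ := CharP.charP_to_charZero κ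
    have hint : Algebra.IsIntegral ℤ κ := inferInstance
    exact absurd (isField_of_isIntegral_of_isField (R := ℤ) (S := κ)
      (RingHom.injective_int (algebraMap ℤ κ)) (Field.toIsField κ)) Int.not_isField

section ph

variable {K F : Type*} [Field K] [Field F] (η : RatFunc K →+* F)
  {V : Type*} [AddCommGroup V] [Module F V] {N m : ℕ} (b : Fin N → V)

lemma Ph_mulVec (P : Matrix (Fin N) (Fin m) (RatFunc K)) (z : Fin m → RatFunc K) :
    Ph η b (P.mulVec z) = ∑ j, η (z j) • Ph η b (fun i => P i j) := by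
  unfold Ph
  simp only [Matrix.mulVec, dotProduct, map_sum, map_mul, Finset.sum_smul, Finset.smul_sum,
    smul_smul]
  rw [Finset.sum_comm]
  refine Finset.sum_congr rfl fun j _ => Finset.sum_congr rfl fun i _ => ?_
  rw [mul_comm]

end ph

section core

variable {R₀ R : Type u} [CommRing R₀] [IsDomain R₀] [CommRing R] [IsDomain R]
  [Algebra R₀ R] (K : Type u) [Field K] [Algebra R K] [IsFractionRing R K]
  [Algebra R₀ K] [IsScalarTower R₀ R K]
  {F : Type v} [Field F] (ι : K →+* F) (x : F) (he : Function.Injective (eval₂RingHom ι x))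
  {V : Type w} [AddCommGroup V] [Module F V] {N q : ℕ} {b : Fin N → V} {s : Fin q → V}

omit [IsDomain R₀] [IsDomain R] [IsFractionRing R K] in
/-- Reduction of a relation. -/
lemma red_rel {R' : Type*} [CommRing R'] [Algebra R₀ R'] [Algebra R R'] [Algebra R' K]
    [IsScalarTower R₀ R R'] [IsScalarTower R R' K]
    (hinj : Function.Injective (algebraMap R' K))
    (hind : ∀ c : Fin N → K[X], ∑ j, eval₂RingHom ι x (c j) • b j = 0 → c = 0)
    (σ : Fin N → Fin q → R'[X])
    (hσ : ∀ i, s i = ∑ j, eval₂RingHom ι x ((σ j i).map (algebraMap R' K)) • b j)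
    (T T' : R₀[X]) {a n : ℕ} {M : Matrix (Fin N) (Fin N) R'[X]} {I : Ideal R} {f : Fin q → R[X]}
    (hf : ∀ i m, (f i).coeff m ∈ I) {u : V} {l : Fin N}
    (h1 : eval₂RingHom ι x ((T.map (algebraMap R₀ K))) ^ a • u =
      ∑ i, eval₂RingHom ι x ((f i).map (algebraMap R K)) • s i)
    (h2 : eval₂RingHom ι x (T'.map (algebraMap R₀ K)) ^ n • u =
      ∑ j, eval₂RingHom ι x (QQ (T'.map (algebraMap R₀ K))
        (M.map (mapRingHom (algebraMap R' K))) n j l) • b j)
    {κ : Type*} [Field κ] (θ : R' →+* κ) (hθ : ∀ y ∈ I, θ (algebraMap R R' y) = 0)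
    (hT : T.map (θ.comp (algebraMap R₀ R')) ≠ 0) (j : Fin N) :
    QQ (T'.map (θ.comp (algebraMap R₀ R'))) (M.map (mapRingHom θ)) n j l = 0 := by
  have hcomp : (algebraMap R' K).comp (algebraMap R R') = algebraMap R K :=
    (IsScalarTower.algebraMap_eq R R' K).symm
  have hcomp0 : (algebraMap R' K).comp (algebraMap R₀ R') = algebraMap R₀ K := by
    rw [IsScalarTower.algebraMap_eq R₀ R R', ← RingHom.comp_assoc, hcomp,
      ← IsScalarTower.algebraMap_eq]
  have h3 : ∀ j, (T.map (algebraMap R₀ K)) ^ a * (QQ (T'.map (algebraMap R₀ K))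
        (M.map (mapRingHom (algebraMap R' K))) n j l) =
      (T'.map (algebraMap R₀ K)) ^ n *
        ∑ i, (f i).map (algebraMap R K) * (σ j i).map (algebraMap R' K) := by
    intro j
    have h4 : (fun j => (T.map (algebraMap R₀ K)) ^ a * (QQ (T'.map (algebraMap R₀ K))
        (M.map (mapRingHom (algebraMap R' K))) n j l) -
      (T'.map (algebraMap R₀ K)) ^ n *
        ∑ i, (f i).map (algebraMap R K) * (σ j i).map (algebraMap R' K)) = 0 := by
      apply hind
      simp only [map_sub, sub_smul, Finset.sum_sub_distrib, map_mul, map_pow, mul_smul]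
      rw [← Finset.smul_sum, ← h2, ← Finset.smul_sum, smul_smul, mul_comm, mul_smul, h1]
      rw [← smul_sub, sub_eq_zero.mpr, smul_zero]
      simp only [map_sum, map_mul, Finset.sum_smul, mul_smul]
      rw [Finset.sum_comm]
      refine Finset.sum_congr rfl fun i _ => ?_
      rw [hσ i, Finset.smul_sum]
    exact sub_eq_zero.mp (congrFun h4 j)
  have h5 : ∀ j, (T.map (algebraMap R₀ R')) ^ a * (QQ (T'.map (algebraMap R₀ R')) M n j l) =
      (T'.map (algebraMap R₀ R')) ^ n *
        ∑ i, (f i).map (algebraMap R R') * (σ j i) := by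
    intro j
    apply Polynomial.map_injective (algebraMap R' K) hinj
    rw [Polynomial.map_mul, Polynomial.map_mul, Polynomial.map_pow, Polynomial.map_pow,
      Polynomial.map_map, Polynomial.map_map, hcomp0, Polynomial.map_sum]
    simp only [Polynomial.map_mul, Polynomial.map_map, hcomp]
    rw [← h3 j]
    congr 1
    have h6 := QQ_map (algebraMap R' K) (T'.map (algebraMap R₀ R')) M n
    rw [Polynomial.map_map, hcomp0] at h6
    rw [← h6]
    rfl
  have h6 := congrArg (Polynomial.map θ) (h5 j)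
  rw [Polynomial.map_mul, Polynomial.map_mul, Polynomial.map_pow, Polynomial.map_sum] at h6
  have h7 : ∑ i, ((f i).map (algebraMap R R') * σ j i).map θ = 0 := by
    refine Finset.sum_eq_zero fun i _ => ?_
    rw [Polynomial.map_mul]
    have h8 : ((f i).map (algebraMap R R')).map θ = 0 := by
      ext m
      rw [coeff_map, coeff_map, coeff_zero]
      exact hθ _ (hf i m)
    rw [h8, zero_mul]
  rw [h7, mul_zero, Polynomial.map_map, mul_eq_zero] at h6
  have h8 := h6.resolve_left (pow_ne_zero _ hT)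
  have h9 := QQ_map θ (T'.map (algebraMap R₀ R')) M n
  rw [Polynomial.map_map] at h9
  rw [← h9]
  exact h8

end core

section main

/-- The lattice has a `∇`-stable form over the field of definition of the polynomial `T`. -/
theorem descent_data {R₀ R : Type u} [CommRing R₀] [IsDomain R₀] [CharZero R₀]
    [Algebra.FiniteType ℤ R₀] [CommRing R] [IsDomain R] [Algebra R₀ R] [Algebra.FiniteType R₀ R]
    (K : Type u) [Field K] [Algebra R K] [IsFractionRing R K]
    (k₀ : Type u) [Field k₀] [Algebra R₀ k₀] [IsFractionRing R₀ k₀] [Algebra k₀ K]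
    [Algebra R₀ K] [IsScalarTower R₀ R K] [IsScalarTower R₀ k₀ K]
    {F : Type v} [Field F] [Algebra R F] [Algebra R₀ F] [IsScalarTower R₀ R F]
    (hRF : Function.Injective (algebraMap R F))
    (δ : Derivation ℤ F F) (hδ : ∀ a : R, δ (algebraMap R F a) = 0) (x : F) (hx : δ x = 1)
    (T : R₀[X]) (hT : T ≠ 0) {V : Type w} [AddCommGroup V] [Module F V]
    (nabla : V →+ V) (hnabla : ∀ (f : F) (v : V), nabla (f • v) = δ f • v + f • nabla v)
    (E : Submodule (CoordRing x T R) V) (hfg : E.FG) (hE : ∀ e ∈ E, nabla e ∈ E)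
    (hnil : ∃ g : R, g ≠ 0 ∧ ∀ 𝔪 : Ideal R, 𝔪.IsMaximal → g ∉ 𝔪 → ∀ e ∈ E, ∃ n : ℕ,
      nabla^[n] e ∈ 𝔪.map (algebraMap R (CoordRing x T R)) • E) :
    ∃ (m : ℕ) (w : Fin m → V) (a : Fin m → Fin m → F),
      (∀ i j, a i j ∈ Subfield.closure (Set.range (algebraMap R₀ F) ∪ {x})) ∧
      (∀ j, nabla (w j) = ∑ i, a i j • w i) ∧
      (E : Set V) ⊆ Submodule.span F (Set.range w) := by
  classical
  -- preliminaries
  have hkK : ∀ y, algebraMap k₀ K (algebraMap R₀ k₀ y) = algebraMap R K (algebraMap R₀ R y) := by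
    intro y
    rw [← IsScalarTower.algebraMap_apply R₀ k₀ K, ← IsScalarTower.algebraMap_apply R₀ R K]
  have hRK : Function.Injective (algebraMap R K) := IsFractionRing.injective R K
  have h₀R : Function.Injective (algebraMap R₀ R) := by
    intro a b hab
    have h1 := congrArg (algebraMap R K) hab
    rw [← hkK, ← hkK] at h1
    exact IsFractionRing.injective R₀ k₀ ((algebraMap k₀ K).injective h1)
  have h₀K : Function.Injective (algebraMap R₀ K) := by
    rw [IsScalarTower.algebraMap_eq R₀ R K]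
    exact hRK.comp h₀R
  have hchK : CharZero K := charZero_of_injective_algebraMap (R := R₀) h₀K
  have hjacZ : IsJacobsonRing ℤ := jac_int
  have hjac0 : IsJacobsonRing R₀ := isJacobsonRing_of_finiteType (A := ℤ)
  have hjac : IsJacobsonRing R := isJacobsonRing_of_finiteType (A := R₀)
  let ι : K →+* F := IsFractionRing.lift hRF
  have hιR : ∀ a, ι (algebraMap R K a) = algebraMap R F a := fun a =>
    IsFractionRing.lift_algebraMap hRF a
  have hιc : ι.comp (algebraMap R K) = algebraMap R F := RingHom.ext hιR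
  have hι : ∀ c, δ (ι c) = 0 := by
    intro c
    obtain ⟨a, b, hb, hc⟩ := IsFractionRing.div_surjective (A := R) c
    have hb0 : algebraMap R K b ≠ 0 := by
      rw [Ne, map_eq_zero_iff _ hRK]
      exact nonZeroDivisors.ne_zero hb
    have h1 : c * algebraMap R K b = algebraMap R K a := by rw [← hc, div_mul_cancel₀ _ hb0]
    have h2 := congrArg (fun z => δ (ι z)) h1
    simp only [map_mul, Derivation.leibniz, hιR, hδ, smul_eq_mul, mul_zero, zero_add] at h2
    have h3 : algebraMap R F b ≠ 0 := by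
      rw [← hιR, Ne, map_eq_zero]; exact hb0
    exact (mul_eq_zero.mp h2).resolve_left h3
  have he : Function.Injective (eval₂RingHom ι x) := eval_injective δ ι x hι hx
  let η := eta ι x he
  have hη : ∀ f, δ (η f) = η (ddx K f) := eta_ddx δ ι x he hι hx
  have hηa : ∀ q, η (algebraMap K[X] (RatFunc K) q) = eval₂RingHom ι x q := eta_algebraMap ι x he
  have hevR : ∀ f : R[X], eval₂RingHom ι x (f.map (algebraMap R K)) = aeval x f := by
    intro f
    rw [coe_eval₂RingHom, eval₂_map, hιc]
    rfl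
  have hevT : ∀ f : R₀[X], eval₂RingHom ι x (f.map (algebraMap R₀ K)) = aeval x f := by
    intro f
    have h1 : f.map (algebraMap R₀ K) = (f.map (algebraMap R₀ R)).map (algebraMap R K) := by
      rw [Polynomial.map_map, ← IsScalarTower.algebraMap_eq]
    rw [h1, hevR, ← aeval_T]
  have hTK : T.map (algebraMap R₀ K) ≠ 0 := (Polynomial.map_ne_zero_iff h₀K).mpr hT
  have hTx : (aeval x T : F) ≠ 0 := by
    rw [← hevT, Ne, map_eq_zero_iff _ he]; exact hTK
  -- the generators and the lattice
  obtain ⟨q, s, hs⟩ := Submodule.fg_iff_exists_fin_generating_family.mp hfg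
  have hEs : E = Submodule.span (CoordRing x T R) (Set.range s) := hs.symm
  obtain ⟨N, b₀, σ₀, τ₀, hσ₀, hτ₀, hind₀⟩ := exists_lattice (eval₂RingHom ι x) he s
  obtain ⟨c₁, hc₁, g₁, hg₁⟩ := clear_poly (R := R) (fun ij : Fin q × Fin N => τ₀ ij.1 ij.2)
  have hc₁F : algebraMap R F c₁ ≠ 0 := by rw [Ne, map_eq_zero_iff _ hRF]; exact hc₁
  have hc₁K : algebraMap R K c₁ ≠ 0 := by rw [Ne, map_eq_zero_iff _ hRK]; exact hc₁
  set b : Fin N → V := fun j => algebraMap R F c₁ • b₀ j with hbdef
  have hbs : ∀ j, b j = ∑ i, (aeval x (g₁ (i, j)) : F) • s i := by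
    intro j
    rw [hbdef]
    simp only
    rw [hτ₀ j, Finset.smul_sum]
    refine Finset.sum_congr rfl fun i _ => ?_
    rw [← hevR, ← hg₁ (i, j), map_mul, smul_smul]
    congr 2
    rw [coe_eval₂RingHom, eval₂_C, hιR]
  have hsE : ∀ i, s i ∈ E := fun i => hEs ▸ Submodule.subset_span ⟨i, rfl⟩
  have hxA : ∀ f : R[X], (aeval x f : F) ∈ CoordRing x T R := by
    intro f
    have h1 : (aeval x f : F) ∈ Algebra.adjoin R ({x} : Set F) := by
      rw [Algebra.adjoin_singleton_eq_range_aeval]
      exact ⟨f, rfl⟩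
    exact Algebra.adjoin_mono (Set.singleton_subset_iff.mpr (Set.mem_insert _ _)) h1
  have hbE : ∀ j, b j ∈ E := by
    intro j
    rw [hbs j]
    refine Submodule.sum_mem _ fun i _ => ?_
    exact E.smul_mem (⟨aeval x (g₁ (i, j)), hxA _⟩ : CoordRing x T R) (hsE i)
  set σ₁ : Fin N → Fin q → K[X] := fun j i => C (algebraMap R K c₁)⁻¹ * σ₀ j i with hσ₁
  have hσ₁s : ∀ i, s i = ∑ j, eval₂RingHom ι x (σ₁ j i) • b j := by
    intro i
    conv_lhs => rw [hσ₀ i]
    refine Finset.sum_congr rfl fun j _ => ?_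
    rw [hσ₁, hbdef]
    simp only
    rw [smul_smul, map_mul]
    congr 1
    rw [coe_eval₂RingHom, eval₂_C, map_inv₀, hιR]
    field_simp
  have hind : ∀ c : Fin N → K[X], ∑ j, eval₂RingHom ι x (c j) • b j = 0 → c = 0 := by
    intro c hc
    apply hind₀
    have h1 : ∑ j, eval₂RingHom ι x (c j) • b j =
        algebraMap R F c₁ • ∑ j, eval₂RingHom ι x (c j) • b₀ j := by
      rw [Finset.smul_sum]
      refine Finset.sum_congr rfl fun j _ => ?_
      rw [hbdef]
      simp only
      rw [smul_comm]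
    rw [h1, smul_eq_zero] at hc
    exact hc.resolve_left hc₁F
  -- the matrix of the connection
  have hrep : ∀ j, Rep x T (⊤ : Ideal R) s (nabla (b j)) := fun j =>
    rep_of_mem hTx hEs (hE _ (hbE j))
  choose nn ff _ hff using hrep
  set k : ℕ := ∑ j, nn j with hk
  have hrep' : ∀ j, ∃ f' : Fin q → R[X], (aeval x T : F) ^ k • nabla (b j) =
      ∑ i, (aeval x (f' i) : F) • s i := by
    intro j
    obtain ⟨f', -, hf'⟩ := Rep.raise (I := (⊤ : Ideal R)) (fun _ _ => Submodule.mem_top) (hff j)
      (k - nn j)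
    have h1 : nn j ≤ k := Finset.single_le_sum (f := nn) (fun _ _ => Nat.zero_le _)
      (Finset.mem_univ j)
    rw [Nat.add_sub_cancel' h1] at hf'
    exact ⟨f', hf'⟩
  choose f' hf' using hrep'
  set Mn : Fin N → Fin N → K[X] := fun i j => ∑ l, (f' j l).map (algebraMap R K) * σ₁ i l with hMn
  have hMn' : ∀ j, (aeval x T : F) ^ k • nabla (b j) = ∑ i, eval₂RingHom ι x (Mn i j) • b i := by
    intro j
    rw [hf' j]
    simp only [hMn, map_sum, map_mul, Finset.sum_smul, mul_smul]
    rw [Finset.sum_comm]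
    refine Finset.sum_congr rfl fun l _ => ?_
    conv_lhs => rw [hσ₁s l, Finset.smul_sum]
    refine Finset.sum_congr rfl fun i _ => ?_
    rw [hevR]
  -- the localisation
  obtain ⟨c₂, hc₂, g₂, hg₂⟩ := clear_poly (R := R)
    (Sum.elim (fun ij : Fin N × Fin q => σ₁ ij.1 ij.2) (fun ij : Fin N × Fin N => Mn ij.1 ij.2))
  let R' := Localization.Away c₂
  have hc₂K : algebraMap R K c₂ ≠ 0 := by rw [Ne, map_eq_zero_iff _ hRK]; exact hc₂
  let lam : R' →+* K := IsLocalization.Away.lift c₂ (g := algebraMap R K)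
    (isUnit_iff_ne_zero.mpr hc₂K)
  have hlam : ∀ a, lam (algebraMap R R' a) = algebraMap R K a := fun a =>
    IsLocalization.Away.lift_eq c₂ _ a
  let algR'K : Algebra R' K := lam.toAlgebra
  have hsc1 : IsScalarTower R R' K := IsScalarTower.of_algebraMap_eq fun a => (hlam a).symm
  have hle : Submonoid.powers c₂ ≤ nonZeroDivisors R := by
    rw [Submonoid.powers_le]
    exact mem_nonZeroDivisors_of_ne_zero hc₂
  have hdom : IsDomain R' := IsLocalization.isDomain_localization hle
  have hfrac : IsFractionRing R' K :=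
    IsFractionRing.isFractionRing_of_isDomain_of_isLocalization (Submonoid.powers c₂) R' K
  have hft : Algebra.FiniteType R₀ R' := inferInstance
  have hsc2 : IsScalarTower R₀ R' K := by
    refine IsScalarTower.of_algebraMap_eq fun a => ?_
    rw [IsScalarTower.algebraMap_apply R₀ R R', ← IsScalarTower.algebraMap_apply R R' K,
      ← IsScalarTower.algebraMap_apply R₀ R K]
  have hinjR' : Function.Injective (algebraMap R' K) := IsFractionRing.injective R' K
  have hlift : ∀ (p : K[X]) (g : R[X]), C (algebraMap R K c₂) * p = g.map (algebraMap R K) →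
      ∃ p' : R'[X], p'.map (algebraMap R' K) = p := by
    intro p g hpg
    refine ⟨C (IsLocalization.Away.invSelf c₂) * g.map (algebraMap R R'), ?_⟩
    rw [Polynomial.map_mul, Polynomial.map_map, ← IsScalarTower.algebraMap_eq R R' K, ← hpg,
      ← mul_assoc, map_C, ← C_mul, ← hlam c₂]
    have h1 : algebraMap R' K (IsLocalization.Away.invSelf c₂) * lam (algebraMap R R' c₂) = 1 := by
      have h2 : lam (algebraMap R R' c₂) = algebraMap R' K (algebraMap R R' c₂) := rfl
      rw [h2, ← map_mul, mul_comm, IsLocalization.Away.mul_invSelf, map_one]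
    rw [h1, C_1, one_mul]
  have hσ' : ∀ j i, ∃ p' : R'[X], p'.map (algebraMap R' K) = σ₁ j i := fun j i =>
    hlift _ _ (hg₂ (Sum.inl (j, i)))
  choose σ' hσ' using hσ'
  have hM' : ∀ i j, ∃ p' : R'[X], p'.map (algebraMap R' K) = Mn i j := fun i j =>
    hlift _ _ (hg₂ (Sum.inr (i, j)))
  choose M' hM' using hM'
  let M : Matrix (Fin N) (Fin N) R'[X] := Matrix.of fun i j => -(M' i j)
  have hMK : ∀ i j, (M.map (mapRingHom (algebraMap R' K))) i j = -(Mn i j) := by
    intro i j
    have h1 : M i j = -(M' i j) := rfl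
    rw [Matrix.map_apply, h1, map_neg, coe_mapRingHom, hM']
  have hT'K : (T ^ k).map (algebraMap R₀ K) ≠ 0 := by
    rw [Polynomial.map_pow]; exact pow_ne_zero _ hTK
  have hb : ∀ j, η (algebraMap K[X] (RatFunc K) ((T ^ k).map (algebraMap R₀ K))) • nabla (b j) =
      -∑ i, η (algebraMap K[X] (RatFunc K)
        ((M.map (mapRingHom (algebraMap R' K))) i j)) • b i := by
    intro j
    simp only [hηa, hMK, map_neg, neg_smul, Finset.sum_neg_distrib, neg_neg]
    rw [hevT, map_pow, hMn' j]
  -- nilpotence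
  have hGN : GloballyNilpotent ((T ^ k).map (algebraMap R₀ R')) M := by
    obtain ⟨g, hg, hnil⟩ := hnil
    have hlc : algebraMap R₀ R T.leadingCoeff ≠ 0 := by
      rw [Ne, map_eq_zero_iff _ h₀R]; exact leadingCoeff_ne_zero.mpr hT
    refine ⟨algebraMap R R' (g * algebraMap R₀ R T.leadingCoeff), ?_, ?_⟩
    · rw [Ne, map_eq_zero_iff _ (IsLocalization.injective R' hle)]
      exact mul_ne_zero hg hlc
    · intro 𝔪' h𝔪' hg'
      have h𝔪 : (𝔪'.under R).IsMaximal :=
        ((IsLocalization.isMaximal_iff_isMaximal_disjoint R' c₂ 𝔪').mp h𝔪').1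
      have hg1 : g ∉ 𝔪'.under R := by
        intro h
        apply hg'
        rw [map_mul]
        exact 𝔪'.mul_mem_right _ h
      have hg2 : algebraMap R R' (algebraMap R₀ R T.leadingCoeff) ∉ 𝔪' := by
        intro h
        apply hg'
        rw [map_mul]
        exact 𝔪'.mul_mem_left _ h
      unfold PNilpAt
      let _ : Field (R' ⧸ 𝔪') := Ideal.Quotient.field 𝔪'
      have hft' : Algebra.FiniteType ℤ R' := Algebra.FiniteType.trans (S := R₀) inferInstance hft
      obtain ⟨p, hp, hcharp⟩ := exists_char (Ideal.Quotient.mk 𝔪') Ideal.Quotient.mk_surjective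
      have hTθ : T.map ((Ideal.Quotient.mk 𝔪').comp (algebraMap R₀ R')) ≠ 0 := by
        intro h0
        have h1 := congrArg (fun q => q.coeff T.natDegree) h0
        simp only [coeff_map, coeff_zero, coeff_natDegree] at h1
        apply hg2
        rw [← IsScalarTower.algebraMap_apply R₀ R R']
        exact Ideal.Quotient.eq_zero_iff_mem.mp h1
      refine pnilp_of hp _ _ fun l => ?_
      obtain ⟨n, hn⟩ := hnil _ h𝔪 hg1 (b l) (hbE l)
      obtain ⟨a, f, hf, h1⟩ := rep_of_mem_smul hTx hEs _ hn
      refine ⟨n, ?_⟩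
      have h2 := Ph_iterate hη hnabla hT'K hb n l
      simp only [hηa] at h2
      have h3 : ∀ j, QQ ((T ^ k).map ((Ideal.Quotient.mk 𝔪').comp (algebraMap R₀ R')))
          (M.map (mapRingHom (Ideal.Quotient.mk 𝔪'))) n j l = 0 := by
        refine red_rel K ι x (b := b) (s := s) (a := a) hinjR' hind σ' (fun i => ?_) T (T ^ k) hf ?_ h2
          (Ideal.Quotient.mk 𝔪') (fun y hy => ?_) hTθ
        · rw [hσ₁s i]
          exact Finset.sum_congr rfl fun j _ => by rw [hσ']
        · rw [hevT, h1]
          exact Finset.sum_congr rfl fun i _ => by rw [hevR]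
        · exact Ideal.Quotient.eq_zero_iff_mem.mpr hy
      rw [Polynomial.map_map]
      have hT'θ : (T ^ k).map ((Ideal.Quotient.mk 𝔪').comp (algebraMap R₀ R')) ≠ 0 := by
        rw [Polynomial.map_pow]; exact pow_ne_zero _ hTθ
      funext j
      have h4 := conn_iterate hT'θ (M := M.map (mapRingHom (Ideal.Quotient.mk 𝔪'))) l n j
      rw [h3 j, map_zero, mul_eq_zero] at h4
      refine h4.resolve_left (pow_ne_zero _ ?_)
      rw [Ne, map_eq_zero_iff _ (IsFractionRing.injective _ _)]
      exact hT'θ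
  -- descent
  have hTk0 : T ^ k ≠ 0 := pow_ne_zero _ hT
  obtain ⟨m, e, M₁, P, P', hPP, hPM⟩ := isotrivial (R₀ := R₀) (R := R') K k₀ hTk0 hGN
  have hw : ∀ j, nabla (Ph η b (fun i => P i j)) = ∑ i,
      η (-((algebraMap K[X] (RatFunc K) (((T ^ k).map (algebraMap R₀ K)) ^ e))⁻¹ *
        algebraMap K[X] (RatFunc K) ((M₁ i j).map (algebraMap k₀ K)))) •
        Ph η b (fun l => P l i) := by
    intro j
    have h1 : (fun i => P i j) = P.mulVec (Pi.single j 1) := by
      funext i
      rw [Matrix.mulVec_single_one]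
      rfl
    rw [h1, Ph_conn hη hnabla hT'K hb, hPM, Ph_mulVec]
    refine Finset.sum_congr rfl fun i _ => ?_
    congr 2
    simp only [conn, Matrix.mulVec_single_one]
    have h2 : ddx K ((Pi.single j 1 : Fin m → RatFunc K) i) = 0 := by
      by_cases hij : i = j
      · subst hij; rw [Pi.single_eq_same, Derivation.map_one_eq_zero]
      · rw [Pi.single_eq_of_ne hij, map_zero]
    rw [h2, zero_sub]
    rfl
  refine ⟨m, fun j => Ph η b (fun i => P i j), _, ?_, hw, ?_⟩
  · intro i j
    have hL : ∀ f : k₀[X], (eval₂RingHom ι x (f.map (algebraMap k₀ K)) : F) ∈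
        (Subfield.closure (Set.range (algebraMap R₀ F) ∪ {x}) : Subfield F) := by
      intro f
      rw [coe_eval₂RingHom, eval₂_map, eval₂_eq_sum_range]
      have hxL : x ∈ (Subfield.closure (Set.range (algebraMap R₀ F) ∪ {x}) : Subfield F) :=
        Subfield.subset_closure (Or.inr (Set.mem_singleton x))
      refine Subfield.sum_mem _ fun l _ => Subfield.mul_mem _ ?_ (Subfield.pow_mem _ hxL _)
      obtain ⟨a, b, hb, hc⟩ := IsFractionRing.div_surjective (A := R₀) (f.coeff l)
      have h1 : ∀ a : R₀, (ι.comp (algebraMap k₀ K)) (algebraMap R₀ k₀ a) = algebraMap R₀ F a := by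
        intro a
        rw [RingHom.comp_apply, hkK, hιR, ← IsScalarTower.algebraMap_apply]
      rw [← hc, map_div₀, h1, h1]
      have haL : ∀ a : R₀, algebraMap R₀ F a ∈
          (Subfield.closure (Set.range (algebraMap R₀ F) ∪ {x}) : Subfield F) :=
        fun a => Subfield.subset_closure (Or.inl (Set.mem_range_self a))
      exact Subfield.div_mem _ (haL _) (haL _)
    rw [map_neg, map_mul, map_inv₀, hηa, hηa]
    refine Subfield.neg_mem _ (Subfield.mul_mem _ (Subfield.inv_mem _ ?_) (hL _))
    have h2 : ((T ^ k).map (algebraMap R₀ K)) ^ e =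
        (((T ^ k).map (algebraMap R₀ k₀)) ^ e).map (algebraMap k₀ K) := by
      have h3 : (T ^ k).map (algebraMap R₀ K) =
          ((T ^ k).map (algebraMap R₀ k₀)).map (algebraMap k₀ K) := by
        rw [Polynomial.map_map, ← IsScalarTower.algebraMap_eq]
      rw [h3, ← Polynomial.map_pow]
    rw [h2]
    exact hL _
  · -- spanning
    have hbw : ∀ l, b l ∈ Submodule.span F (Set.range fun j => Ph η b (fun i => P i j)) := by
      intro l
      have h1 : b l = Ph η b (P.mulVec (P'.mulVec (Pi.single l 1))) := by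
        rw [Matrix.mulVec_mulVec, hPP, Matrix.one_mulVec, Ph_single]
      rw [h1, Ph_mulVec]
      exact Submodule.sum_mem _ fun j _ => Submodule.smul_mem _ _ (Submodule.subset_span ⟨j, rfl⟩)
    have hsw : ∀ i, s i ∈ Submodule.span F (Set.range fun j => Ph η b (fun i => P i j)) := by
      intro i
      rw [hσ₁s i]
      exact Submodule.sum_mem _ fun j _ => Submodule.smul_mem _ _ (hbw j)
    intro u hu
    rw [hEs] at hu
    obtain ⟨c, rfl⟩ := (Submodule.mem_span_range_iff_exists_fun _).mp hu
    exact Submodule.sum_mem _ fun i _ => Submodule.smul_mem _ (c i : F) (hsw i)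

end main

end Pool.Agent.W77.IM
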