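import Mathlib
import Pool.Agent.W77.IM.Main

set_option autoImplicit false

open Polynomial Module
open Pool.Agent.W432.PC Pool.Agent.W432.FD

namespace Pool.Agent.W77.IM

universe u v w

/-- Coordinates for the lattice of a connection. -/
theorem exists_model {R₀ R : Type u} [CommRing R₀] [IsDomain R₀] [CharZero R₀]
    [Algebra.FiniteType ℤ R₀] [CommRing R] [IsDomain R] [Algebra R₀ R] [Algebra.FiniteType R₀ R]
    (h₀R : Function.Injective (algebraMap R₀ R))
    {F : Type v} [Field F] [Algebra R F] [Algebra R₀ F] [IsScalarTower R₀ R F]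
    (hRF : Function.Injective (algebraMap R F))
    (δ : Derivation ℤ F F) (hδ : ∀ a : R, δ (algebraMap R F a) = 0) (x : F) (hx : δ x = 1)
    (T : R₀[X]) (hT : T ≠ 0) {V : Type w} [AddCommGroup V] [Module F V]
    (nabla : V →+ V) (hnabla : ∀ (f : F) (v : V), nabla (f • v) = δ f • v + f • nabla v)
    (E : Submodule (CoordRing x T R) V) (hfg : E.FG) (hE : ∀ e ∈ E, nabla e ∈ E) :
    ∃ (c : R) (_ : c ≠ 0) (N k : ℕ) (b : Fin N → V)
      (M : Matrix (Fin N) (Fin N) (Localization.Away c)[X]) (lam : Localization.Away c →+* F),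
      (∀ a, lam (algebraMap R _ a) = algebraMap R F a) ∧ Function.Injective lam ∧
      (∀ j, b j ∈ E) ∧ ((E : Set V) ⊆ Submodule.span F (Set.range b)) ∧
      (∀ u : Fin N → (Localization.Away c)[X], ∑ j, eval₂ lam x (u j) • b j = 0 → u = 0) ∧
      (∀ n l, (aeval x T : F) ^ (k * n) • nabla^[n] (b l) =
        ∑ j, eval₂ lam x (QQ ((T ^ k).map (algebraMap R₀ (Localization.Away c))) M n j l) • b j) ∧
      (∀ 𝔪' : Ideal (Localization.Away c), 𝔪'.IsMaximal →
        algebraMap R₀ (Localization.Away c) T.leadingCoeff ∉ 𝔪' → ∀ n l,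
        nabla^[n] (b l) ∈ (𝔪'.under R).map (algebraMap R (CoordRing x T R)) • E →
        ∀ j i, (QQ ((T ^ k).map (algebraMap R₀ (Localization.Away c))) M n j l).coeff i ∈ 𝔪') := by
  classical
  -- preliminaries
  let K := FractionRing R
  have hRK : Function.Injective (algebraMap R K) := IsFractionRing.injective R K
  have h₀K : Function.Injective (algebraMap R₀ K) := by
    rw [IsScalarTower.algebraMap_eq R₀ R K]
    exact hRK.comp h₀R
  have hchK : CharZero K := charZero_of_injective_algebraMap (R := R₀) h₀K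
  have hjacZ : IsJacobsonRing ℤ := jac_int
  have hjac0 : IsJacobsonRing R₀ := isJacobsonRing_of_finiteType (A := ℤ)
  have hjac : IsJacobsonRing R := isJacobsonRing_of_finiteType (A := R₀)
  let ι : K →+* F := IsFractionRing.lift hRF
  have hιR : ∀ a, ι (algebraMap R K a) = algebraMap R F a := fun a =>
    IsFractionRing.lift_algebraMap hRF a
  have hιc : ι.comp (algebraMap R K) = algebraMap R F := RingHom.ext hιR
  have hι : ∀ c, δ (ι c) = 0 := by
    intro c
    obtain ⟨a, b, hb, hc⟩ := IsFractionRing.div_surjective (A := R) c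
    have hb0 : algebraMap R K b ≠ 0 := by
      rw [Ne, map_eq_zero_iff _ hRK]
      exact nonZeroDivisors.ne_zero hb
    have h1 : c * algebraMap R K b = algebraMap R K a := by rw [← hc, div_mul_cancel₀ _ hb0]
    have h2 := congrArg (fun z => δ (ι z)) h1
    simp only [map_mul, Derivation.leibniz, hιR, hδ, smul_eq_mul, mul_zero, zero_add] at h2
    have h3 : algebraMap R F b ≠ 0 := by
      rw [← hιR, Ne, map_eq_zero]; exact hb0
    exact (mul_eq_zero.mp h2).resolve_left h3
  have he : Function.Injective (eval₂RingHom ι x) := eval_injective δ ι x hι hx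
  let η := eta ι x he
  have hη : ∀ f, δ (η f) = η (ddx K f) := eta_ddx δ ι x he hι hx
  have hηa : ∀ q, η (algebraMap K[X] (RatFunc K) q) = eval₂RingHom ι x q := eta_algebraMap ι x he
  have hevR : ∀ f : R[X], eval₂RingHom ι x (f.map (algebraMap R K)) = aeval x f := by
    intro f
    rw [coe_eval₂RingHom, eval₂_map, hιc]
    rfl
  have hevT : ∀ f : R₀[X], eval₂RingHom ι x (f.map (algebraMap R₀ K)) = aeval x f := by
    intro f
    have h1 : f.map (algebraMap R₀ K) = (f.map (algebraMap R₀ R)).map (algebraMap R K) := by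
      rw [Polynomial.map_map, ← IsScalarTower.algebraMap_eq]
    rw [h1, hevR, ← aeval_T]
  have hTK : T.map (algebraMap R₀ K) ≠ 0 := (Polynomial.map_ne_zero_iff h₀K).mpr hT
  have hTx : (aeval x T : F) ≠ 0 := by
    rw [← hevT, Ne, map_eq_zero_iff _ he]; exact hTK
  -- the generators and the lattice
  obtain ⟨q, s, hs⟩ := Submodule.fg_iff_exists_fin_generating_family.mp hfg
  have hEs : E = Submodule.span (CoordRing x T R) (Set.range s) := hs.symm
  obtain ⟨N, b₀, σ₀, τ₀, hσ₀, hτ₀, hind₀⟩ := exists_lattice (eval₂RingHom ι x) he s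
  obtain ⟨c₁, hc₁, g₁, hg₁⟩ := clear_poly (R := R) (fun ij : Fin q × Fin N => τ₀ ij.1 ij.2)
  have hc₁F : algebraMap R F c₁ ≠ 0 := by rw [Ne, map_eq_zero_iff _ hRF]; exact hc₁
  have hc₁K : algebraMap R K c₁ ≠ 0 := by rw [Ne, map_eq_zero_iff _ hRK]; exact hc₁
  set b : Fin N → V := fun j => algebraMap R F c₁ • b₀ j with hbdef
  have hbs : ∀ j, b j = ∑ i, (aeval x (g₁ (i, j)) : F) • s i := by
    intro j
    rw [hbdef]
    simp only
    rw [hτ₀ j, Finset.smul_sum]
    refine Finset.sum_congr rfl fun i _ => ?_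
    rw [← hevR, ← hg₁ (i, j), map_mul, smul_smul]
    congr 2
    rw [coe_eval₂RingHom, eval₂_C, hιR]
  have hsE : ∀ i, s i ∈ E := fun i => hEs ▸ Submodule.subset_span ⟨i, rfl⟩
  have hxA : ∀ f : R[X], (aeval x f : F) ∈ CoordRing x T R := by
    intro f
    have h1 : (aeval x f : F) ∈ Algebra.adjoin R ({x} : Set F) := by
      rw [Algebra.adjoin_singleton_eq_range_aeval]
      exact ⟨f, rfl⟩
    exact Algebra.adjoin_mono (Set.singleton_subset_iff.mpr (Set.mem_insert _ _)) h1
  have hbE : ∀ j, b j ∈ E := by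
    intro j
    rw [hbs j]
    refine Submodule.sum_mem _ fun i _ => ?_
    exact E.smul_mem (⟨aeval x (g₁ (i, j)), hxA _⟩ : CoordRing x T R) (hsE i)
  set σ₁ : Fin N → Fin q → K[X] := fun j i => C (algebraMap R K c₁)⁻¹ * σ₀ j i with hσ₁
  have hσ₁s : ∀ i, s i = ∑ j, eval₂RingHom ι x (σ₁ j i) • b j := by
    intro i
    conv_lhs => rw [hσ₀ i]
    refine Finset.sum_congr rfl fun j _ => ?_
    rw [hσ₁, hbdef]
    simp only
    rw [smul_smul, map_mul]
    congr 1
    rw [coe_eval₂RingHom, eval₂_C, map_inv₀, hιR]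
    field_simp
  have hind : ∀ c : Fin N → K[X], ∑ j, eval₂RingHom ι x (c j) • b j = 0 → c = 0 := by
    intro c hc
    apply hind₀
    have h1 : ∑ j, eval₂RingHom ι x (c j) • b j =
        algebraMap R F c₁ • ∑ j, eval₂RingHom ι x (c j) • b₀ j := by
      rw [Finset.smul_sum]
      refine Finset.sum_congr rfl fun j _ => ?_
      rw [hbdef]
      simp only
      rw [smul_comm]
    rw [h1, smul_eq_zero] at hc
    exact hc.resolve_left hc₁F
  -- the matrix of the connection
  have hrep : ∀ j, Rep x T (⊤ : Ideal R) s (nabla (b j)) := fun j =>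
    rep_of_mem hTx hEs (hE _ (hbE j))
  choose nn ff _ hff using hrep
  set k : ℕ := ∑ j, nn j with hk
  have hrep' : ∀ j, ∃ f' : Fin q → R[X], (aeval x T : F) ^ k • nabla (b j) =
      ∑ i, (aeval x (f' i) : F) • s i := by
    intro j
    obtain ⟨f', -, hf'⟩ := Rep.raise (I := (⊤ : Ideal R)) (fun _ _ => Submodule.mem_top) (hff j)
      (k - nn j)
    have h1 : nn j ≤ k := Finset.single_le_sum (f := nn) (fun _ _ => Nat.zero_le _)
      (Finset.mem_univ j)
    rw [Nat.add_sub_cancel' h1] at hf'
    exact ⟨f', hf'⟩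
  choose f' hf' using hrep'
  set Mn : Fin N → Fin N → K[X] := fun i j => ∑ l, (f' j l).map (algebraMap R K) * σ₁ i l with hMn
  have hMn' : ∀ j, (aeval x T : F) ^ k • nabla (b j) = ∑ i, eval₂RingHom ι x (Mn i j) • b i := by
    intro j
    rw [hf' j]
    simp only [hMn, map_sum, map_mul, Finset.sum_smul, mul_smul]
    rw [Finset.sum_comm]
    refine Finset.sum_congr rfl fun l _ => ?_
    conv_lhs => rw [hσ₁s l, Finset.smul_sum]
    refine Finset.sum_congr rfl fun i _ => ?_
    rw [hevR]
  -- the localisation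
  obtain ⟨c₂, hc₂, g₂, hg₂⟩ := clear_poly (R := R)
    (Sum.elim (fun ij : Fin N × Fin q => σ₁ ij.1 ij.2) (fun ij : Fin N × Fin N => Mn ij.1 ij.2))
  let R' := Localization.Away c₂
  have hc₂K : algebraMap R K c₂ ≠ 0 := by rw [Ne, map_eq_zero_iff _ hRK]; exact hc₂
  let lam : R' →+* K := IsLocalization.Away.lift c₂ (g := algebraMap R K)
    (isUnit_iff_ne_zero.mpr hc₂K)
  have hlam : ∀ a, lam (algebraMap R R' a) = algebraMap R K a := fun a =>
    IsLocalization.Away.lift_eq c₂ _ a
  let algR'K : Algebra R' K := lam.toAlgebra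
  have hsc1 : IsScalarTower R R' K := IsScalarTower.of_algebraMap_eq fun a => (hlam a).symm
  have hle : Submonoid.powers c₂ ≤ nonZeroDivisors R := by
    rw [Submonoid.powers_le]
    exact mem_nonZeroDivisors_of_ne_zero hc₂
  have hdom : IsDomain R' := IsLocalization.isDomain_localization hle
  have hfrac : IsFractionRing R' K :=
    IsFractionRing.isFractionRing_of_isDomain_of_isLocalization (Submonoid.powers c₂) R' K
  have hft : Algebra.FiniteType R₀ R' := inferInstance
  have hsc2 : IsScalarTower R₀ R' K := by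
    refine IsScalarTower.of_algebraMap_eq fun a => ?_
    rw [IsScalarTower.algebraMap_apply R₀ R R', ← IsScalarTower.algebraMap_apply R R' K,
      ← IsScalarTower.algebraMap_apply R₀ R K]
  have hinjR' : Function.Injective (algebraMap R' K) := IsFractionRing.injective R' K
  have hlift : ∀ (p : K[X]) (g : R[X]), C (algebraMap R K c₂) * p = g.map (algebraMap R K) →
      ∃ p' : R'[X], p'.map (algebraMap R' K) = p := by
    intro p g hpg
    refine ⟨C (IsLocalization.Away.invSelf c₂) * g.map (algebraMap R R'), ?_⟩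
    rw [Polynomial.map_mul, Polynomial.map_map, ← IsScalarTower.algebraMap_eq R R' K, ← hpg,
      ← mul_assoc, map_C, ← C_mul, ← hlam c₂]
    have h1 : algebraMap R' K (IsLocalization.Away.invSelf c₂) * lam (algebraMap R R' c₂) = 1 := by
      have h2 : lam (algebraMap R R' c₂) = algebraMap R' K (algebraMap R R' c₂) := rfl
      rw [h2, ← map_mul, mul_comm, IsLocalization.Away.mul_invSelf, map_one]
    rw [h1, C_1, one_mul]
  have hσ' : ∀ j i, ∃ p' : R'[X], p'.map (algebraMap R' K) = σ₁ j i := fun j i =>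
    hlift _ _ (hg₂ (Sum.inl (j, i)))
  choose σ' hσ' using hσ'
  have hM' : ∀ i j, ∃ p' : R'[X], p'.map (algebraMap R' K) = Mn i j := fun i j =>
    hlift _ _ (hg₂ (Sum.inr (i, j)))
  choose M' hM' using hM'
  let M : Matrix (Fin N) (Fin N) R'[X] := Matrix.of fun i j => -(M' i j)
  have hMK : ∀ i j, (M.map (mapRingHom (algebraMap R' K))) i j = -(Mn i j) := by
    intro i j
    have h1 : M i j = -(M' i j) := rfl
    rw [Matrix.map_apply, h1, map_neg, coe_mapRingHom, hM']
  have hT'K : (T ^ k).map (algebraMap R₀ K) ≠ 0 := by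
    rw [Polynomial.map_pow]; exact pow_ne_zero _ hTK
  have hb : ∀ j, η (algebraMap K[X] (RatFunc K) ((T ^ k).map (algebraMap R₀ K))) • nabla (b j) =
      -∑ i, η (algebraMap K[X] (RatFunc K)
        ((M.map (mapRingHom (algebraMap R' K))) i j)) • b i := by
    intro j
    simp only [hηa, hMK, map_neg, neg_smul, Finset.sum_neg_distrib, neg_neg]
    rw [hevT, map_pow, hMn' j]
  -- the embedding into `F`
  let lamF : R' →+* F := ι.comp lam
  have hlamF : ∀ a, lamF (algebraMap R R' a) = algebraMap R F a := by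
    intro a
    change ι (lam (algebraMap R R' a)) = _
    rw [hlam, hιR]
  have hev : ∀ p : R'[X], eval₂ lamF x p = eval₂RingHom ι x (p.map (algebraMap R' K)) := by
    intro p
    rw [coe_eval₂RingHom, eval₂_map]
    rfl
  have hQQ : ∀ n, (QQ ((T ^ k).map (algebraMap R₀ R')) M n).map (mapRingHom (algebraMap R' K)) =
      QQ ((T ^ k).map (algebraMap R₀ K)) (M.map (mapRingHom (algebraMap R' K))) n := by
    intro n
    rw [QQ_map, Polynomial.map_map, ← IsScalarTower.algebraMap_eq R₀ R' K]
  refine ⟨c₂, hc₂, N, k, b, M, lamF, hlamF, ι.injective.comp hinjR', hbE, ?_, ?_, ?_, ?_⟩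
  · intro u hu
    rw [hEs] at hu
    obtain ⟨c, rfl⟩ := (Submodule.mem_span_range_iff_exists_fun _).mp hu
    refine Submodule.sum_mem _ fun i _ => Submodule.smul_mem _ (c i : F) ?_
    rw [hσ₁s i]
    exact Submodule.sum_mem _ fun j _ => Submodule.smul_mem _ _ (Submodule.subset_span ⟨j, rfl⟩)
  · intro u hu
    simp only [hev] at hu
    have h1 := hind (fun j => (u j).map (algebraMap R' K)) hu
    funext j
    exact Polynomial.map_injective (algebraMap R' K) hinjR'
      ((congrFun h1 j).trans (Polynomial.map_zero _).symm)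
  · intro n l
    have h2 := Ph_iterate hη hnabla hT'K hb n l
    simp only [hηa] at h2
    rw [hevT, map_pow, ← pow_mul] at h2
    rw [h2]
    refine Finset.sum_congr rfl fun j _ => ?_
    rw [hev, ← hQQ]
    rfl
  · intro 𝔪' h𝔪' hlc n l hn j i
    let _ : Field (R' ⧸ 𝔪') := Ideal.Quotient.field 𝔪'
    have hTθ : T.map ((Ideal.Quotient.mk 𝔪').comp (algebraMap R₀ R')) ≠ 0 := by
      intro h0
      have h1 := congrArg (fun q => q.coeff T.natDegree) h0
      simp only [coeff_map, coeff_zero, coeff_natDegree] at h1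
      exact hlc (Ideal.Quotient.eq_zero_iff_mem.mp h1)
    obtain ⟨a, f, hf, h1⟩ := rep_of_mem_smul hTx hEs _ hn
    have h2 := Ph_iterate hη hnabla hT'K hb n l
    simp only [hηa] at h2
    have h3 : QQ ((T ^ k).map ((Ideal.Quotient.mk 𝔪').comp (algebraMap R₀ R')))
        (M.map (mapRingHom (Ideal.Quotient.mk 𝔪'))) n j l = 0 := by
      refine red_rel K ι x (b := b) (s := s) (a := a) hinjR' hind σ' (fun i => ?_) T (T ^ k) hf ?_ h2
        (Ideal.Quotient.mk 𝔪') (fun y hy => ?_) hTθ j
      · rw [hσ₁s i]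
        exact Finset.sum_congr rfl fun j _ => by rw [hσ']
      · rw [hevT, h1]
        exact Finset.sum_congr rfl fun i _ => by rw [hevR]
      · exact Ideal.Quotient.eq_zero_iff_mem.mpr hy
    have h4 := QQ_map (Ideal.Quotient.mk 𝔪') ((T ^ k).map (algebraMap R₀ R')) M n
    rw [Polynomial.map_map] at h4
    rw [← h4] at h3
    have h5 := congrArg (fun p => p.coeff i) h3
    simp only [Matrix.map_apply, coe_mapRingHom, coeff_map, coeff_zero] at h5
    exact Ideal.Quotient.eq_zero_iff_mem.mp h5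

end Pool.Agent.W77.IM
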