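import Mathlib

set_option autoImplicit false

namespace Pool.Agent.W77.IM

/-- The `p`-th power of a connection satisfies the Leibniz rule modulo `p`. -/
theorem pleib {A M : Type*} [CommRing A] [AddCommGroup M] [Module A M] (d : A → A) (D : M →+ M)
    (hD : ∀ (a : A) (m : M), D (a • m) = d a • m + a • D m) {p : ℕ} (hp : p.Prime) (a : A) (m : M) :
    ∃ v : M, D^[p] (a • m) = d^[p] a • m + a • D^[p] m + p • v := by
  let D' : Module.End ℤ M := D.toIntLinearMap
  let mu : A → Module.End ℤ M := fun a =>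
    { toFun := fun y => a • y
      map_add' := fun y z => smul_add a y z
      map_smul' := fun n y => smul_comm a n y }
  let Lm : Module.End ℤ (Module.End ℤ M) := LinearMap.mulLeft ℤ D'
  let Rm : Module.End ℤ (Module.End ℤ M) := LinearMap.mulRight ℤ D'
  have hcomm : Commute Lm Rm := LinearMap.commute_mulLeft_right D' D'
  have hcomm' : Commute (Lm - Rm) Rm := hcomm.sub_left (Commute.refl _)
  have had : ∀ f, (Lm - Rm) (mu f) = mu (d f) := by
    intro f
    refine LinearMap.ext fun y => ?_
    change D (f • y) - f • D y = d f • y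
    rw [hD, add_sub_cancel_right]
  have had' : ∀ (n : ℕ) (f : A), ((Lm - Rm) ^ n) (mu f) = mu (d^[n] f) := by
    intro n
    induction n with
    | zero => intro f; rfl
    | succ n ih =>
      intro f
      rw [pow_succ, Module.End.mul_apply, had, ih, ← Function.iterate_succ_apply]
  obtain ⟨Z, hZ⟩ := hcomm'.exists_add_pow_prime_eq hp
  rw [sub_add_cancel] at hZ
  have h1 := congrArg (fun W : Module.End ℤ (Module.End ℤ M) => W (mu a) m) hZ
  simp only [LinearMap.add_apply] at h1
  rw [had', LinearMap.pow_mulLeft, LinearMap.pow_mulRight] at h1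
  have h3 : ∀ (n : ℕ) (y : M), (D' ^ n) y = D^[n] y := by
    intro n y
    rw [Module.End.pow_apply]
    rfl
  have h4 : (LinearMap.mulLeft ℤ (D' ^ p)) (mu a) m = D^[p] (a • m) := by
    rw [LinearMap.mulLeft_apply, Module.End.mul_apply, h3]
    rfl
  have h5 : (LinearMap.mulRight ℤ (D' ^ p)) (mu a) m = a • D^[p] m := by
    rw [LinearMap.mulRight_apply, Module.End.mul_apply, h3]
    rfl
  refine ⟨(((Lm - Rm) * (Rm * Z)) (mu a)) m, ?_⟩
  have h6 : (((p : ℕ) : Module.End ℤ (Module.End ℤ M)) * (Lm - Rm) * Rm * Z) (mu a) m =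
      p • (((Lm - Rm) * (Rm * Z)) (mu a)) m := by
    rw [mul_assoc, mul_assoc, Module.End.mul_apply, Module.End.natCast_apply,
      LinearMap.smul_apply]
  rw [h4, h5, h6] at h1
  exact h1

/-- The `p`-th power of a derivation is a derivation modulo `p`. -/
lemma pder {A : Type*} [CommRing A] (d : A →+ A) (hd : ∀ a b : A, d (a * b) = d a * b + a * d b)
    {p : ℕ} (hp : p.Prime) (a b : A) :
    ∃ v : A, d^[p] (a * b) = d^[p] a * b + a * d^[p] b + p * v := by
  obtain ⟨v, hv⟩ := pleib (M := A) d d (fun a b => by rw [smul_eq_mul, smul_eq_mul, smul_eq_mul, hd])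
    hp a b
  exact ⟨v, by rw [smul_eq_mul, smul_eq_mul, smul_eq_mul, nsmul_eq_mul] at hv; exact hv⟩

end Pool.Agent.W77.IM
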