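import Mathlib
import Pool.Agent.W77.IM.Model
import Pool.Agent.W77.IM.PLeib

set_option autoImplicit false

open Polynomial Module
open Pool.Agent.W432.PC Pool.Agent.W432.FD

namespace Pool.Agent.W77.IM

universe u v w

section small

variable {R₀ F : Type*} [CommRing R₀] [IsDomain R₀] [CharZero R₀] [Field F] [Algebra R₀ F]

lemma aeval_ne_zero (hF : Function.Injective (algebraMap R₀ F)) (δ : Derivation ℤ F F)
    (hδ : ∀ a : R₀, δ (algebraMap R₀ F a) = 0) (x : F) (hx : δ x = 1) {q : R₀[X]} (hq : q ≠ 0) :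
    (aeval x q : F) ≠ 0 := by
  let k₀ := FractionRing R₀
  have hch : CharZero k₀ := charZero_of_injective_algebraMap (R := R₀)
    (IsFractionRing.injective R₀ k₀)
  let ι : k₀ →+* F := IsFractionRing.lift (A := R₀) (K := k₀) hF
  have hιR : ∀ a, ι (algebraMap R₀ k₀ a) = algebraMap R₀ F a := fun a =>
    IsFractionRing.lift_algebraMap hF a
  have hι : ∀ c, δ (ι c) = 0 := by
    intro c
    obtain ⟨a, b, hb, hc⟩ := IsFractionRing.div_surjective (A := R₀) c
    have hb0 : algebraMap R₀ k₀ b ≠ 0 := by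
      rw [Ne, map_eq_zero_iff _ (IsFractionRing.injective R₀ k₀)]
      exact nonZeroDivisors.ne_zero hb
    have h1 : c * algebraMap R₀ k₀ b = algebraMap R₀ k₀ a := by rw [← hc, div_mul_cancel₀ _ hb0]
    have h2 := congrArg (fun z => δ (ι z)) h1
    simp only [map_mul, Derivation.leibniz, hιR, hδ, smul_eq_mul, mul_zero, zero_add] at h2
    have h3 : algebraMap R₀ F b ≠ 0 := by
      rw [← hιR, Ne, map_eq_zero]; exact hb0
    exact (mul_eq_zero.mp h2).resolve_left h3
  have he := eval_injective δ ι x hι hx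
  have h1 : (aeval x q : F) = eval₂RingHom ι x (q.map (algebraMap R₀ k₀)) := by
    rw [coe_eval₂RingHom, eval₂_map]
    have : ι.comp (algebraMap R₀ k₀) = algebraMap R₀ F := RingHom.ext hιR
    rw [this]
    rfl
  rw [h1, Ne, map_eq_zero_iff _ he,
    Polynomial.map_eq_zero_iff (IsFractionRing.injective R₀ k₀)]
  exact hq

/-- Elements of `k₀(x)` are quotients of polynomials over `R₀`. -/
lemma frac_of_mem (x : F) (hx : ∀ q : R₀[X], q ≠ 0 → (aeval x q : F) ≠ 0) {z : F}
    (hz : z ∈ (Subfield.closure (Set.range (algebraMap R₀ F) ∪ {x}) : Subfield F)) :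
    ∃ f q : R₀[X], q ≠ 0 ∧ (aeval x q : F) * z = aeval x f := by
  induction hz using Subfield.closure_induction with
  | mem z hz =>
    rcases hz with ⟨c, rfl⟩ | hz
    · exact ⟨C c, 1, one_ne_zero, by rw [map_one, one_mul, aeval_C]⟩
    · rw [Set.mem_singleton_iff] at hz
      exact ⟨X, 1, one_ne_zero, by rw [map_one, one_mul, aeval_X, hz]⟩
  | one => exact ⟨1, 1, one_ne_zero, by rw [mul_one]⟩
  | add y z _ _ hy hz =>
    obtain ⟨f, q, hq, h1⟩ := hy
    obtain ⟨f', q', hq', h2⟩ := hz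
    refine ⟨f * q' + f' * q, q * q', mul_ne_zero hq hq', ?_⟩
    rw [map_mul, map_add, map_mul, map_mul, ← h1, ← h2]
    ring
  | neg y _ hy =>
    obtain ⟨f, q, hq, h1⟩ := hy
    exact ⟨-f, q, hq, by rw [map_neg, ← h1, mul_neg]⟩
  | inv y _ hy =>
    obtain ⟨f, q, hq, h1⟩ := hy
    by_cases hf : f = 0
    · rw [hf, map_zero] at h1
      have h2 := (mul_eq_zero.mp h1).resolve_left (hx q hq)
      exact ⟨0, 1, one_ne_zero, by rw [h2, inv_zero, mul_zero, map_zero]⟩
    · refine ⟨q, f, hf, ?_⟩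
      have hy0 : y ≠ 0 := by
        rintro rfl
        rw [mul_zero] at h1
        exact hx f hf h1.symm
      rw [← h1, mul_assoc, mul_inv_cancel₀ hy0, mul_one]
  | mul y z _ _ hy hz =>
    obtain ⟨f, q, hq, h1⟩ := hy
    obtain ⟨f', q', hq', h2⟩ := hz
    refine ⟨f * f', q * q', mul_ne_zero hq hq', ?_⟩
    rw [map_mul, map_mul, ← h1, ← h2]
    ring

end small

section alg

variable {R₀ F : Type*} [CommRing R₀] [Field F] [Algebra R₀ F] (δ : Derivation R₀ F F)

lemma aeval_mem (x : F) (T : R₀[X]) (f : R₀[X]) : (aeval x f : F) ∈ CoordRing x T R₀ := by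
  have h1 : (aeval x f : F) ∈ Algebra.adjoin R₀ ({x} : Set F) := by
    rw [Algebra.adjoin_singleton_eq_range_aeval]
    exact ⟨f, rfl⟩
  exact Algebra.adjoin_mono (Set.singleton_subset_iff.mpr (Set.mem_insert _ _)) h1

lemma inv_mem_coord (x : F) (T : R₀[X]) : (aeval x T : F)⁻¹ ∈ CoordRing x T R₀ :=
  Algebra.subset_adjoin (Set.mem_insert_of_mem _ rfl)

lemma der_aeval {x : F} (hx : δ x = 1) (f : R₀[X]) : δ (aeval x f) = aeval x (derivative f) := by
  rw [Derivation.map_aeval, hx, smul_eq_mul, mul_one]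

/-- The coordinate ring is stable under the derivation. -/
lemma der_mem {x : F} (hx : δ x = 1) (T : R₀[X]) {c : F} (hc : c ∈ CoordRing x T R₀) :
    δ c ∈ CoordRing x T R₀ := by
  induction hc using Algebra.adjoin_induction with
  | mem c hc =>
    rcases hc with rfl | hc
    · rw [hx]; exact Subalgebra.one_mem _
    · rw [Set.mem_singleton_iff] at hc
      rw [hc, Derivation.leibniz_inv, smul_eq_mul, der_aeval δ hx]
      exact Subalgebra.mul_mem _ (Subalgebra.neg_mem _ (Subalgebra.pow_mem _ (inv_mem_coord x T) _))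
        (aeval_mem x T _)
  | algebraMap c => rw [δ.map_algebraMap]; exact Subalgebra.zero_mem _
  | add a b _ _ ha hb => rw [map_add]; exact Subalgebra.add_mem _ ha hb
  | mul a b ha' hb' ha hb =>
    rw [Derivation.leibniz, smul_eq_mul, smul_eq_mul]
    exact Subalgebra.add_mem _ (Subalgebra.mul_mem _ ha' hb) (Subalgebra.mul_mem _ hb' ha)

/-- The derivation of the coordinate ring. -/
noncomputable def dA {x : F} (hx : δ x = 1) (T : R₀[X]) : CoordRing x T R₀ →+ CoordRing x T R₀ where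
  toFun c := ⟨δ c, der_mem δ hx T c.2⟩
  map_zero' := Subtype.ext (map_zero δ)
  map_add' a b := Subtype.ext (map_add δ _ _)

lemma dA_mul {x : F} (hx : δ x = 1) (T : R₀[X]) (a b : CoordRing x T R₀) :
    dA δ hx T (a * b) = dA δ hx T a * b + a * dA δ hx T b := by
  apply Subtype.ext
  change δ ((a : F) * b) = δ a * b + a * δ b
  rw [Derivation.leibniz, smul_eq_mul, smul_eq_mul]
  ring

lemma iterate_const {M : Type*} [AddMonoid M] (D : M →+ M) {m : M} (hm : D m = 0) {n : ℕ}
    (hn : 0 < n) : D^[n] m = 0 := by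
  obtain ⟨k, rfl⟩ : ∃ k, n = k + 1 := ⟨n - 1, by omega⟩
  rw [Function.iterate_succ_apply, hm]
  clear hn
  induction k with
  | zero => rfl
  | succ k ih => rw [Function.iterate_succ_apply', ih, map_zero]

/-- The `p`-th power of the derivation of the coordinate ring is divisible by `p`. -/
lemma dA_iterate {x : F} (hx : δ x = 1) {T : R₀[X]} (hT : (aeval x T : F) ≠ 0) {p : ℕ}
    (hp : p.Prime) (c : CoordRing x T R₀) :
    ∃ v : CoordRing x T R₀, (dA δ hx T)^[p] c = p * v := by
  obtain ⟨c, hc⟩ := c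
  have key : ∀ a b : CoordRing x T R₀, (∃ v, (dA δ hx T)^[p] a = p * v) →
      (∃ v, (dA δ hx T)^[p] b = p * v) → ∃ v, (dA δ hx T)^[p] (a * b) = p * v := by
    rintro a b ⟨v, hv⟩ ⟨w, hw⟩
    obtain ⟨u, hu⟩ := pder (dA δ hx T) (dA_mul δ hx T) hp a b
    exact ⟨v * b + a * w + u, by rw [hu, hv, hw]; ring⟩
  have hX : ∃ v, (dA δ hx T)^[p] (⟨x, by simpa using aeval_mem x T (X : R₀[X])⟩ :
      CoordRing x T R₀) = p * v := by
    obtain ⟨k, rfl⟩ : ∃ k, p = k + 1 := ⟨p - 1, by have := hp.pos; omega⟩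
    refine ⟨0, ?_⟩
    rw [Function.iterate_succ_apply, mul_zero]
    have h1 : dA δ hx T ⟨x, by simpa using aeval_mem x T (X : R₀[X])⟩ = 1 := Subtype.ext hx
    rw [h1]
    exact iterate_const _ (Subtype.ext δ.map_one_eq_zero) (by have := hp.two_le; omega)
  have hC : ∀ a : R₀, ∃ v, (dA δ hx T)^[p] (algebraMap R₀ (CoordRing x T R₀) a) = p * v := by
    intro a
    refine ⟨0, ?_⟩
    rw [mul_zero]
    exact iterate_const _ (Subtype.ext (δ.map_algebraMap a)) hp.pos
  have hadd : ∀ a b : CoordRing x T R₀, (∃ v, (dA δ hx T)^[p] a = p * v) →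
      (∃ v, (dA δ hx T)^[p] b = p * v) → ∃ v, (dA δ hx T)^[p] (a + b) = p * v := by
    rintro a b ⟨v, hv⟩ ⟨w, hw⟩
    exact ⟨v + w, by rw [iterate_map_add, hv, hw]; ring⟩
  have hpoly : ∀ f : R₀[X], ∃ v, (dA δ hx T)^[p] (⟨aeval x f, aeval_mem x T f⟩ :
      CoordRing x T R₀) = p * v := by
    intro f
    induction f using Polynomial.induction_on' with
    | add f g hf hg =>
      have h1 : (⟨aeval x (f + g), aeval_mem x T _⟩ : CoordRing x T R₀) =
          ⟨aeval x f, aeval_mem x T f⟩ + ⟨aeval x g, aeval_mem x T g⟩ :=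
        Subtype.ext (map_add _ _ _)
      rw [h1]
      exact hadd _ _ hf hg
    | monomial n a =>
      have h1 : (⟨aeval x (monomial n a), aeval_mem x T _⟩ : CoordRing x T R₀) =
          algebraMap R₀ (CoordRing x T R₀) a *
            ⟨x, by simpa using aeval_mem x T (X : R₀[X])⟩ ^ n := by
        apply Subtype.ext
        change (aeval x (monomial n a) : F) = algebraMap R₀ F a * x ^ n
        rw [aeval_monomial]
      rw [h1]
      clear h1
      refine key _ _ (hC a) ?_
      induction n with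
      | zero =>
        rw [pow_zero]
        exact ⟨0, by rw [mul_zero]; exact iterate_const _ (Subtype.ext δ.map_one_eq_zero) hp.pos⟩
      | succ n ih =>
        rw [pow_succ]
        exact key _ _ ih hX
  have hinv : ∃ v, (dA δ hx T)^[p] (⟨(aeval x T : F)⁻¹, inv_mem_coord x T⟩ :
      CoordRing x T R₀) = p * v := by
    obtain ⟨v, hv⟩ := hpoly T
    set t : CoordRing x T R₀ := ⟨aeval x T, aeval_mem x T T⟩
    set t' : CoordRing x T R₀ := ⟨(aeval x T : F)⁻¹, inv_mem_coord x T⟩
    have htt : t * t' = 1 := Subtype.ext (mul_inv_cancel₀ hT)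
    obtain ⟨u, hu⟩ := pder (dA δ hx T) (dA_mul δ hx T) hp t t'
    have h0 : (dA δ hx T)^[p] (t * t') = 0 := by
      rw [htt]
      exact iterate_const _ (Subtype.ext δ.map_one_eq_zero) hp.pos
    rw [h0, hv] at hu
    refine ⟨-(t' * (v * t' + u)), ?_⟩
    linear_combination (-t') * hu - ((dA δ hx T)^[p] t') * htt
  induction hc using Algebra.adjoin_induction with
  | mem c hc =>
    rcases hc with rfl | hc
    · exact hX
    · rw [Set.mem_singleton_iff] at hc
      subst hc
      exact hinv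
  | algebraMap c => exact hC c
  | add a b ha' hb' ha hb => exact hadd ⟨a, ha'⟩ ⟨b, hb'⟩ ha hb
  | mul a b ha' hb' ha hb => exact key ⟨a, ha'⟩ ⟨b, hb'⟩ ha hb

end alg

section mod

variable {R₀ F : Type*} [CommRing R₀] [Field F] [Algebra R₀ F] (δ : Derivation R₀ F F)
  {V : Type*} [AddCommGroup V] [Module F V] (nabla : V →+ V)

/-- `∇` preserves `𝔪 E`. -/
lemma nabla_mem {x : F} (hx : δ x = 1) {T : R₀[X]}
    (hnabla : ∀ (f : F) (v : V), nabla (f • v) = δ f • v + f • nabla v)
    {E : Submodule (CoordRing x T R₀) V} (hE : ∀ e ∈ E, nabla e ∈ E) (𝔪 : Ideal R₀) {u : V}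
    (hu : u ∈ 𝔪.map (algebraMap R₀ (CoordRing x T R₀)) • E) :
    nabla u ∈ 𝔪.map (algebraMap R₀ (CoordRing x T R₀)) • E := by
  induction hu using Submodule.smul_induction_on' with
  | smul r hr e he =>
    have h1 : nabla (r • e) = (dA δ hx T r) • e + r • nabla e := hnabla r e
    rw [h1]
    refine Submodule.add_mem _ (Submodule.smul_mem_smul ?_ he)
      (Submodule.smul_mem_smul hr (hE e he))
    clear he h1
    induction hr using Submodule.span_induction with
    | mem r hr =>
      obtain ⟨a, ha, rfl⟩ := hr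
      have h2 : dA δ hx T (algebraMap R₀ (CoordRing x T R₀) a) = 0 :=
        Subtype.ext (δ.map_algebraMap a)
      rw [h2]; exact Ideal.zero_mem _
    | zero => rw [map_zero]; exact Ideal.zero_mem _
    | add a b _ _ ha hb => rw [map_add]; exact Ideal.add_mem _ ha hb
    | smul a b hb' hb =>
      rw [smul_eq_mul, dA_mul]
      exact Ideal.add_mem _ (Ideal.mul_mem_left _ _ hb') (Ideal.mul_mem_left _ _ hb)
  | add a _ b _ ha hb => rw [map_add]; exact Submodule.add_mem _ ha hb

lemma iterate_mem {M : Type*} {P : M → Prop} {D : M → M} (h : ∀ m, P m → P (D m)) (n : ℕ) {m : M}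
    (hm : P m) : P (D^[n] m) := by
  induction n with
  | zero => exact hm
  | succ n ih => rw [Function.iterate_succ_apply']; exact h _ ih

/-- Powers of the `p`-curvature are linear modulo `𝔪`. -/
lemma psi_linear {x : F} (hx : δ x = 1) {T : R₀[X]} (hT : (aeval x T : F) ≠ 0)
    (hnabla : ∀ (f : F) (v : V), nabla (f • v) = δ f • v + f • nabla v)
    {E : Submodule (CoordRing x T R₀) V} (hE : ∀ e ∈ E, nabla e ∈ E) {𝔪 : Ideal R₀} {p : ℕ}
    (hp : p.Prime) (hp𝔪 : (p : R₀) ∈ 𝔪) (n : ℕ) (c : CoordRing x T R₀) {u : V} (hu : u ∈ E) :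
    nabla^[p * n] (c • u) - c • nabla^[p * n] u ∈
      𝔪.map (algebraMap R₀ (CoordRing x T R₀)) • E := by
  have hpm : ((p : ℕ) : CoordRing x T R₀) ∈ 𝔪.map (algebraMap R₀ (CoordRing x T R₀)) := by
    have h1 : ((p : ℕ) : CoordRing x T R₀) = algebraMap R₀ (CoordRing x T R₀) (p : R₀) := by simp
    rw [h1]
    exact Ideal.mem_map_of_mem _ hp𝔪
  have h1 : ∀ (c : CoordRing x T R₀) (u : V), u ∈ E → nabla^[p] (c • u) - c • nabla^[p] u ∈
      𝔪.map (algebraMap R₀ (CoordRing x T R₀)) • E := by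
    intro c u hu
    let D : E →+ E :=
      { toFun := fun e => ⟨nabla e, hE e e.2⟩
        map_zero' := Subtype.ext (map_zero nabla)
        map_add' := fun a b => Subtype.ext (map_add nabla _ _) }
    have hD : ∀ (n : ℕ) (e : E), ((D^[n] e : E) : V) = nabla^[n] (e : V) := by
      intro n e
      induction n with
      | zero => rfl
      | succ n ih => rw [Function.iterate_succ_apply', Function.iterate_succ_apply', ← ih]; rfl
    obtain ⟨v, hv⟩ := pleib (dA δ hx T) D (fun a m => Subtype.ext (hnabla a m)) hp c ⟨u, hu⟩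
    obtain ⟨w, hw⟩ := dA_iterate δ hx hT hp c
    have h2 := congrArg (fun e : E => (e : V)) hv
    simp only [hD, Submodule.coe_add, Submodule.coe_smul, AddSubmonoidClass.coe_nsmul] at h2
    have h3 : nabla^[p] (c • u) - c • nabla^[p] u =
        ((p : ℕ) : CoordRing x T R₀) • (w • u + (v : V)) := by
      rw [h2, hw, smul_add, mul_smul, Nat.cast_smul_eq_nsmul (CoordRing x T R₀) p (v : V)]
      abel
    rw [h3]
    exact Submodule.smul_mem_smul hpm (E.add_mem (E.smul_mem _ hu) v.2)
  have hst : ∀ u, u ∈ 𝔪.map (algebraMap R₀ (CoordRing x T R₀)) • E →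
      nabla^[p] u ∈ 𝔪.map (algebraMap R₀ (CoordRing x T R₀)) • E := fun u hu =>
    iterate_mem (P := fun u => u ∈ 𝔪.map (algebraMap R₀ (CoordRing x T R₀)) • E)
      (fun m hm => nabla_mem δ nabla hx hnabla hE 𝔪 hm) p hu
  have hstE : ∀ u, u ∈ E → nabla^[p] u ∈ E := fun u hu =>
    iterate_mem (P := fun u => u ∈ E) hE p hu
  rw [Function.iterate_mul]
  induction n with
  | zero => rw [Function.iterate_zero, id, id, sub_self]; exact Submodule.zero_mem _
  | succ n ih =>
    rw [Function.iterate_succ_apply', Function.iterate_succ_apply']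
    have hun : (nabla^[p])^[n] u ∈ E := iterate_mem (P := fun u => u ∈ E) hstE n hu
    have h2 := hst _ ih
    rw [iterate_map_sub] at h2
    have h3 := h1 c _ hun
    have h4 := Submodule.add_mem _ h2 h3
    rwa [sub_add_sub_cancel] at h4

end mod

end Pool.Agent.W77.IM
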