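import Mathlib
import Pool.Agent.W77.IM.Main

set_option autoImplicit false

open Polynomial WithZero
open Pool.Agent.W432.PC Pool.Agent.W432.FD

namespace Pool.Agent.W77.IM

universe u v

section fibre

variable {R₀ R : Type*} [CommRing R₀] [IsDomain R₀] [CommRing R] [Algebra R₀ R]
  {d D : ℕ} (E : RepData R₀ R d D) {κ : Type*} [Field κ] (θ : R₀ →+* κ)
  (hθ : MvPolynomial.map θ E.f ≠ 0)

/-- Residue fields of points over the closed point `ker θ` have characteristic `p`. -/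
lemma pnilp_coordS [IsJacobsonRing R] {p : ℕ} [Fact p.Prime] [CharP κ p]
    (hsurj : Function.Surjective θ)
    (hdet : pif E.f θ hθ (Matrix.of fun i j => (E.β i * E.β j).trace).det ≠ 0)
    {g : R} (hg : pif E.f θ hθ (E.ρ g).det ≠ 0) {r : ℕ} {T : R₀[X]} (hT : T.map θ ≠ 0)
    {M : Matrix (Fin r) (Fin r) R[X]}
    (hnil : ∀ (𝔪 : Ideal R) (h𝔪 : 𝔪.IsMaximal), (∀ x, θ x = 0 → algebraMap R₀ R x ∈ 𝔪) → g ∉ 𝔪 →
      letI : Field (R ⧸ 𝔪) := Ideal.Quotient.field 𝔪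
      PNilp ((T.map (algebraMap R₀ R)).map (Ideal.Quotient.mk 𝔪))
        (M.map (mapRingHom (Ideal.Quotient.mk 𝔪)))) (l l' : Fin r) (m : ℕ) :
    (rb E θ hθ ((QQ (T.map (algebraMap R₀ R)) M (p * r) l' l).coeff m)).mulVec (cb E θ hθ) = 0 := by
  refine coord_zero E θ hθ hdet hg fun 𝔪 h𝔪 hker hgm => ?_
  let _ : Field (R ⧸ 𝔪) := Ideal.Quotient.field 𝔪
  have h1 := hnil 𝔪 h𝔪 hker hgm
  -- the residue characteristic
  have hlift : ∃ φ : κ →+* R ⧸ 𝔪, φ.comp θ = (Ideal.Quotient.mk 𝔪).comp (algebraMap R₀ R) := by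
    refine ⟨RingHom.liftOfSurjective θ hsurj ⟨(Ideal.Quotient.mk 𝔪).comp (algebraMap R₀ R), ?_⟩,
      RingHom.liftOfRightInverse_comp _ _ _ _⟩
    intro x hx
    rw [RingHom.mem_ker, RingHom.comp_apply]
    exact Ideal.Quotient.eq_zero_iff_mem.mpr (hker x hx)
  obtain ⟨φ, hφ⟩ := hlift
  have hchar : CharP (R ⧸ 𝔪) p := charP_of_injective_ringHom φ.injective p
  have hrc : ringChar (R ⧸ 𝔪) = p := ringChar.eq _ _
  have hT' : (T.map (algebraMap R₀ R)).map (Ideal.Quotient.mk 𝔪) ≠ 0 := by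
    rw [Polynomial.map_map, ← hφ, ← Polynomial.map_map]
    exact (Polynomial.map_ne_zero_iff φ.injective).mpr hT
  have h2 := QQ_eq_zero_of_pnilp hT' h1
  rw [hrc, ← QQ_map] at h2
  have h3 := congrFun (congrFun h2 l') l
  rw [Matrix.map_apply, Matrix.zero_apply, coe_mapRingHom] at h3
  have h4 := congrArg (fun q => q.coeff m) h3
  simp only [coeff_map, coeff_zero] at h4
  exact Ideal.Quotient.eq_zero_iff_mem.mp h4

lemma fibre_boundS [IsJacobsonRing R] {p : ℕ} [Fact p.Prime] [CharP κ p]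
    (hsurj : Function.Surjective θ)
    (hdeg : (MvPolynomial.map θ E.f).totalDegree = E.f.totalDegree)
    (hdet : pif E.f θ hθ (Matrix.of fun i j => (E.β i * E.β j).trace).det ≠ 0)
    {g : R} (hg : pif E.f θ hθ (E.ρ g).det ≠ 0) {r : ℕ} {T : R₀[X]} (hT : T.map θ ≠ 0)
    {M : Matrix (Fin r) (Fin r) R[X]}
    (hnil : ∀ (𝔪 : Ideal R) (h𝔪 : 𝔪.IsMaximal), (∀ x, θ x = 0 → algebraMap R₀ R x ∈ 𝔪) → g ∉ 𝔪 →
      letI : Field (R ⧸ 𝔪) := Ideal.Quotient.field 𝔪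
      PNilp ((T.map (algebraMap R₀ R)).map (Ideal.Quotient.mk 𝔪))
        (M.map (mapRingHom (Ideal.Quotient.mk 𝔪))))
    {β μ : ℤᵐ⁰} (hβ : 1 ≤ β)
    (hM : ∀ a b m i j, dv R₀ d (jf E.f E.hf (E.ρ ((M a b).coeff m) i j)) ≤ β)
    (hμ : ∀ i, dv R₀ d (jf E.f E.hf (E.c i)) ≤ μ) (n : ℕ) (l l' : Fin r) (m : ℕ) (i : Fin D) :
    dv κ d (pif E.f θ hθ ((E.ρ ((QQ (T.map (algebraMap R₀ R)) M n l' l).coeff m)).mulVec E.c i)) ≤
      β ^ (r * D) * μ := by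
  let k := FractionRing (MvPolynomial (Fin d) κ)
  let ι : κ →+* k := (algebraMap (MvPolynomial (Fin d) κ) k).comp MvPolynomial.C
  set T' : k[X] := (T.map θ).map ι with hT'
  have hcoef : ∀ m, rb E θ hθ ((T.map (algebraMap R₀ R)).coeff m) =
      Matrix.scalar (Fin D) (T'.coeff m) := by
    intro m
    rw [coeff_map, rb_algebraMap, hT', coeff_map, coeff_map]
    rfl
  have hι : Function.Injective ι := ι.injective
  have hval : ∀ x : κ, x ≠ 0 → dv κ d (ι x) = 1 := by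
    intro x hx
    have h1 : dv κ d (ι x) = degVal (MvPolynomial.C x : MvPolynomial (Fin d) κ) :=
      degK_algebraMap _ _
    rw [h1, degVal_of_ne (by rwa [Ne, MvPolynomial.C_eq_zero]), MvPolynomial.totalDegree_C]
    simp
  have hgs : gs (dv κ d) T' = 1 := by
    apply le_antisymm
    · rw [gs_le]
      intro j
      rw [hT', coeff_map]
      by_cases h : (T.map θ).coeff j = 0
      · rw [h, map_zero, map_zero]; exact zero_le
      · rw [hval _ h]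
    · obtain ⟨j, hj⟩ : ∃ j, (T.map θ).coeff j ≠ 0 := by
        by_contra! h
        exact hT (Polynomial.ext fun j => by rw [h j, coeff_zero])
      have h1 := le_gs (dv κ d) T' j
      rwa [hT', coeff_map, hval _ hj] at h1
  have h1 := phi_bound (rb E θ hθ) (dv κ d) hcoef hgs (cb E θ hθ) (M := M) hβ
    (fun a b m i j => by
      rw [rb_apply]
      exact (dv_compare θ E.hf hθ hdeg _).trans (hM a b m i j))
    (fun i => (dv_compare θ E.hf hθ hdeg _).trans (hμ i)) (l := l) (N := p * r)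
    (fun l' m => pnilp_coordS E θ hθ hsurj hdet hg hT hnil l l' m) n l' m i
  rwa [rb_mulVec] at h1

end fibre

/-- The degrees of the coordinates of all iterates are bounded. -/
theorem bound0S {R₀ R : Type u} [CommRing R₀] [IsDomain R₀] [CharZero R₀] [Algebra.FiniteType ℤ R₀]
    [CommRing R] [IsDomain R] [Algebra R₀ R] [Algebra.FiniteType R₀ R] {d D : ℕ}
    (E : RepData R₀ R d D) {r : ℕ} {T : R₀[X]} (hT : T ≠ 0) {M : Matrix (Fin r) (Fin r) R[X]}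
    {g : R} (hg : g ≠ 0) {S : Set (Ideal R₀)}
    (hS : ∀ h : R₀, h ≠ 0 → ∃ 𝔪₀ ∈ S, 𝔪₀.IsMaximal ∧ h ∉ 𝔪₀)
    (hnil : ∀ (𝔪 : Ideal R) (h𝔪 : 𝔪.IsMaximal), 𝔪.comap (algebraMap R₀ R) ∈ S → g ∉ 𝔪 →
      letI : Field (R ⧸ 𝔪) := Ideal.Quotient.field 𝔪
      PNilp ((T.map (algebraMap R₀ R)).map (Ideal.Quotient.mk 𝔪))
        (M.map (mapRingHom (Ideal.Quotient.mk 𝔪)))) :
    ∃ B : ℤᵐ⁰, ∀ (n : ℕ) (l l' : Fin r) (m : ℕ) (i : Fin D),
      dv R₀ d (jf E.f E.hf ((E.ρ ((QQ (T.map (algebraMap R₀ R)) M n l' l).coeff m)).mulVec E.c i)) ≤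
        B := by
  classical
  have hjacZ : IsJacobsonRing ℤ := jac_int
  have hjac0 : IsJacobsonRing R₀ := isJacobsonRing_of_finiteType (A := ℤ)
  have hjac : IsJacobsonRing R := isJacobsonRing_of_finiteType (A := R₀)
  -- the constants
  obtain ⟨β, hβ1, hM⟩ : ∃ β : ℤᵐ⁰, 1 ≤ β ∧ ∀ a b m i j,
      dv R₀ d (jf E.f E.hf (E.ρ ((M a b).coeff m) i j)) ≤ β := by
    have h1 : ∀ x : (Fin r × Fin r) × (Fin D × Fin D), ∃ β : ℤᵐ⁰, ∀ m,
        dv R₀ d (jf E.f E.hf (E.ρ ((M x.1.1 x.1.2).coeff m) x.2.1 x.2.2)) ≤ β := fun x =>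
      exists_bd_poly (M x.1.1 x.1.2) (fun y => dv R₀ d (jf E.f E.hf (E.ρ y x.2.1 x.2.2))) (by simp)
    choose F hF using h1
    obtain ⟨β, hβ⟩ := exists_bd_fin F
    refine ⟨max 1 β, le_max_left _ _, fun a b m i j => ?_⟩
    exact (hF ((a, b), (i, j)) m).trans ((hβ _).trans (le_max_right _ _))
  obtain ⟨μ, hμ'⟩ := exists_bd_fin fun i => dv R₀ d (jf E.f E.hf (E.c i))
  refine ⟨β ^ (r * D) * μ, ?_⟩
  intro n l l' m i
  set z := (E.ρ ((QQ (T.map (algebraMap R₀ R)) M n l' l).coeff m)).mulVec E.c i with hz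
  by_cases hz0 : z = 0
  · rw [hz0, map_zero, map_zero]; exact zero_le
  obtain ⟨x₁, hx₁, h₁⟩ := dv_eq E.hf hz0
  obtain ⟨x₂, hx₂, h₂⟩ := dv_eq E.hf E.hdet
  obtain ⟨x₃, hx₃, h₃⟩ := dv_eq E.hf (E.hdety g hg)
  have hx₄ : T.leadingCoeff ≠ 0 := leadingCoeff_ne_zero.mpr hT
  have hx₅ := lcc_ne E.hf
  have hx : x₁ * x₂ * x₃ * T.leadingCoeff * lcc E.f ≠ 0 :=
    mul_ne_zero (mul_ne_zero (mul_ne_zero (mul_ne_zero hx₁ hx₂) hx₃) hx₄) hx₅
  obtain ⟨𝔪₀, h𝔪₀S, h𝔪₀, hxm⟩ := hS _ hx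
  let _ : Field (R₀ ⧸ 𝔪₀) := Ideal.Quotient.field 𝔪₀
  let θ : R₀ →+* R₀ ⧸ 𝔪₀ := Ideal.Quotient.mk 𝔪₀
  obtain ⟨p, hpp, hchar⟩ := exists_char (Ideal.Quotient.mk 𝔪₀) Ideal.Quotient.mk_surjective
  have hfact : Fact p.Prime := ⟨hpp⟩
  have hne : ∀ x : R₀, x ∣ x₁ * x₂ * x₃ * T.leadingCoeff * lcc E.f → θ x ≠ 0 := by
    intro x hdvd h0
    apply hxm
    obtain ⟨y, hy⟩ := hdvd
    rw [hy]
    exact 𝔪₀.mul_mem_right _ (Ideal.Quotient.eq_zero_iff_mem.mp h0)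
  have e₅ : θ (lcc E.f) ≠ 0 := hne _ ⟨x₁ * x₂ * x₃ * T.leadingCoeff, by ring⟩
  have e₄ : θ T.leadingCoeff ≠ 0 := hne _ ⟨x₁ * x₂ * x₃ * lcc E.f, by ring⟩
  have e₃ : θ x₃ ≠ 0 := hne _ ⟨x₁ * x₂ * T.leadingCoeff * lcc E.f, by ring⟩
  have e₂ : θ x₂ ≠ 0 := hne _ ⟨x₁ * x₃ * T.leadingCoeff * lcc E.f, by ring⟩
  have e₁ : θ x₁ ≠ 0 := hne _ ⟨x₂ * x₃ * T.leadingCoeff * lcc E.f, by ring⟩
  obtain ⟨hθ, hdeg⟩ := map_of_lcc θ E.hf e₅
  have hTθ : T.map θ ≠ 0 := by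
    intro h0
    have h1 := congrArg (fun q => q.coeff T.natDegree) h0
    simp only [coeff_map, coeff_zero] at h1
    exact e₄ h1
  have hnil' : ∀ (𝔪 : Ideal R) (h𝔪 : 𝔪.IsMaximal), (∀ x, θ x = 0 → algebraMap R₀ R x ∈ 𝔪) →
      g ∉ 𝔪 →
      letI : Field (R ⧸ 𝔪) := Ideal.Quotient.field 𝔪
      PNilp ((T.map (algebraMap R₀ R)).map (Ideal.Quotient.mk 𝔪))
        (M.map (mapRingHom (Ideal.Quotient.mk 𝔪))) := by
    intro 𝔪 h𝔪 hx𝔪 hgm
    refine hnil 𝔪 h𝔪 ?_ hgm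
    have h5 : 𝔪₀ = 𝔪.comap (algebraMap R₀ R) :=
      h𝔪₀.eq_of_le (Ideal.comap_ne_top _ h𝔪.ne_top) fun x hx' =>
        hx𝔪 x (Ideal.Quotient.eq_zero_iff_mem.mpr hx')
    rw [← h5]
    exact h𝔪₀S
  have h4 := fibre_boundS E θ hθ (p := p) Ideal.Quotient.mk_surjective hdeg (h₂ θ hθ hdeg e₂).2
    (h₃ θ hθ hdeg e₃).2 hTθ hnil' hβ1 hM hμ' n l l' m i
  rw [← hz, (h₁ θ hθ hdeg e₁).1] at h4
  exact h4

/-- The coefficients of all iterates lie in a finite dimensional space. -/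
theorem bounded_spanS {R₀ R : Type u} [CommRing R₀] [IsDomain R₀] [CharZero R₀]
    [Algebra.FiniteType ℤ R₀] [CommRing R] [IsDomain R] [Algebra R₀ R]
    (hinj : Function.Injective (algebraMap R₀ R)) [Algebra.FiniteType R₀ R]
    (K : Type u) [Field K] [Algebra R K] [IsFractionRing R K]
    {k₀ : Type v} [Field k₀] [Algebra R₀ k₀] [IsFractionRing R₀ k₀] (κ₀ : k₀ →+* K)
    (hκ₀ : ∀ x, κ₀ (algebraMap R₀ k₀ x) = algebraMap R K (algebraMap R₀ R x))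
    {r : ℕ} {T : R₀[X]} (hT : T ≠ 0) {M : Matrix (Fin r) (Fin r) R[X]}
    {S : Set (Ideal R₀)} (hS : ∀ h : R₀, h ≠ 0 → ∃ 𝔪₀ ∈ S, 𝔪₀.IsMaximal ∧ h ∉ 𝔪₀)
    (hnil : ∃ g : R, g ≠ 0 ∧ ∀ (𝔪 : Ideal R) [𝔪.IsMaximal], 𝔪.comap (algebraMap R₀ R) ∈ S →
      g ∉ 𝔪 → PNilpAt (T.map (algebraMap R₀ R)) M 𝔪) :
    ∃ (s : ℕ) (w : Fin s → K), ∀ (n : ℕ) (l l' : Fin r) (m : ℕ), ∃ c : Fin s → k₀,
      algebraMap R K ((QQ (T.map (algebraMap R₀ R)) M n l' l).coeff m) =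
        ∑ j, κ₀ (c j) * w j := by
  classical
  obtain ⟨g, hg, hnil⟩ := hnil
  obtain ⟨d, D, E, h, b, σK, hh, hσ, hσC, hE⟩ := exists_setup (R₀ := R₀) (R := R) hinj K
  obtain ⟨B, hB⟩ := bound0S E hT (M := M) hg hS fun 𝔪 h𝔪 hm hgm => hnil 𝔪 hm hgm
  -- the degree bound
  obtain ⟨Δ, hΔ⟩ : ∃ Δ : ℕ, ∀ N : MvPolynomial (Fin d) R₀,
      (degVal N : ℤᵐ⁰) ≤ degVal h * B → N.totalDegree ≤ Δ := by
    by_cases h0 : degVal h * B = 0
    · refine ⟨0, fun N hN => ?_⟩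
      rw [h0] at hN
      by_cases hN0 : N = 0
      · rw [hN0, MvPolynomial.totalDegree_zero]
      · rw [degVal_of_ne hN0] at hN
        exact absurd (le_antisymm hN zero_le) exp_ne_zero
    · refine ⟨(log (degVal h * B)).toNat, fun N hN => ?_⟩
      by_cases hN0 : N = 0
      · rw [hN0, MvPolynomial.totalDegree_zero]; exact Nat.zero_le _
      · rw [degVal_of_ne hN0, ← exp_log h0, exp_le_exp] at hN
        omega
  -- the finite family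
  have hfin : {f : Fin d →₀ ℕ | f.degree ≤ Δ}.Finite := Finsupp.finite_of_degree_le Δ
  let 𝒯 : Finset (Fin d →₀ ℕ) := hfin.toFinset
  let ι₀ := 𝒯 × Fin D
  let w₀ : ι₀ → K := fun αi => σK (MvPolynomial.monomial αi.1.val 1) * b αi.2 * (σK h)⁻¹
  let eq := Fintype.equivFin ι₀
  refine ⟨Fintype.card ι₀, fun j => w₀ (eq.symm j), fun n l l' m => ?_⟩
  set y := (QQ (T.map (algebraMap R₀ R)) M n l' l).coeff m with hy
  obtain ⟨x, hx, N, hN1, hN2⟩ := hE y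
  have hdeg : ∀ i, (N i).totalDegree ≤ Δ := by
    intro i
    apply hΔ
    have h1 := congrArg (dv R₀ d) (hN1 i)
    rw [map_mul, degK_algebraMap, degK_algebraMap, map_mul] at h1
    have h2 : degVal (MvPolynomial.C x : MvPolynomial (Fin d) R₀) = 1 := by
      rw [degVal_of_ne (by rwa [Ne, MvPolynomial.C_eq_zero]), MvPolynomial.totalDegree_C]
      simp
    rw [h2, one_mul] at h1
    rw [← h1]
    exact mul_le_mul' le_rfl (hB n l l' m i)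
  have hσh : σK h ≠ 0 := by rw [Ne, map_eq_zero_iff _ hσ]; exact hh
  have hσx : σK (MvPolynomial.C x) ≠ 0 := by
    rw [Ne, map_eq_zero_iff _ hσ, MvPolynomial.C_eq_zero]; exact hx
  have hxk : κ₀ (algebraMap R₀ k₀ x) ≠ 0 := by rw [hκ₀, ← hσC]; exact hσx
  have hmain : algebraMap R K y = ∑ αi : ι₀, κ₀ (algebraMap R₀ k₀ ((N αi.2).coeff αi.1.val) *
      (algebraMap R₀ k₀ x)⁻¹) * w₀ αi := by
    rw [Fintype.sum_prod_type_right]
    have h1 : ∀ i, σK (N i) = ∑ α : 𝒯, σK (MvPolynomial.C ((N i).coeff α.val)) *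
        σK (MvPolynomial.monomial α.val 1) := by
      intro i
      conv_lhs => rw [(N i).as_sum]
      rw [map_sum]
      have h2 : ∑ α ∈ (N i).support, σK (MvPolynomial.monomial α ((N i).coeff α)) =
          ∑ α ∈ 𝒯, σK (MvPolynomial.monomial α ((N i).coeff α)) := by
        refine Finset.sum_subset ?_ ?_
        · intro α hα
          rw [Set.Finite.mem_toFinset]
          have h3 := MvPolynomial.le_totalDegree hα
          exact h3.trans (hdeg i)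
        · intro α _ hα
          rw [MvPolynomial.notMem_support_iff.mp hα]
          simp
      rw [h2, ← Finset.sum_coe_sort 𝒯]
      refine Finset.sum_congr rfl fun α _ => ?_
      rw [← map_mul, MvPolynomial.C_mul_monomial, mul_one]
    apply mul_left_cancel₀ (mul_ne_zero hσx hσh)
    rw [← map_mul, hN2, Finset.mul_sum]
    refine Finset.sum_congr rfl fun i _ => ?_
    rw [h1 i, Finset.sum_mul, Finset.mul_sum]
    refine Finset.sum_congr rfl fun α _ => ?_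
    simp only [w₀]
    rw [map_mul, map_mul, map_inv₀, hκ₀, hκ₀, ← hσC, ← hσC]
    field_simp
  refine ⟨fun j => algebraMap R₀ k₀ ((N (eq.symm j).2).coeff (eq.symm j).1.val) *
      (algebraMap R₀ k₀ x)⁻¹, ?_⟩
  rw [hmain]
  exact (Equiv.sum_comp eq.symm (fun αi : ι₀ => κ₀ (algebraMap R₀ k₀ ((N αi.2).coeff αi.1.val) *
      (algebraMap R₀ k₀ x)⁻¹) * w₀ αi)).symm

end Pool.Agent.W77.IM
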