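import Mathlib
import Pool.Agent.W432.FD.Bound
import Pool.Agent.W432.FD.Setup
import Pool.Agent.W432.PC.LinSpec

set_option autoImplicit false

open Pool.Agent.W432.PC Pool.Agent.W432.FD

namespace Pool.Agent.W77.IM

universe u

/-- Elements of `R` which are linearly independent over `R₀` stay independent at almost all closed
points of `Spec R₀`, in the fibre over the point, as functions on the set of closed points of the
fibre. -/
theorem indep_mod {R₀ R : Type u} [CommRing R₀] [IsDomain R₀] [CharZero R₀]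
    [Algebra.FiniteType ℤ R₀] [CommRing R] [IsDomain R] [Algebra R₀ R] [Algebra.FiniteType R₀ R]
    (hinj : Function.Injective (algebraMap R₀ R)) {s : ℕ} (y : Fin s → R)
    (hy : ∀ c : Fin s → R₀, ∑ i, algebraMap R₀ R (c i) * y i = 0 → c = 0) {g : R} (hg : g ≠ 0) :
    ∃ h : R₀, h ≠ 0 ∧ ∀ 𝔪₀ : Ideal R₀, 𝔪₀.IsMaximal → h ∉ 𝔪₀ → ∀ c : Fin s → R₀,
      (∀ 𝔪 : Ideal R, 𝔪.IsMaximal → (∀ x ∈ 𝔪₀, algebraMap R₀ R x ∈ 𝔪) → g ∉ 𝔪 →
        ∑ i, algebraMap R₀ R (c i) * y i ∈ 𝔪) → ∀ i, c i ∈ 𝔪₀ := by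
  classical
  have hjacZ : IsJacobsonRing ℤ := jac_int
  have hjac0 : IsJacobsonRing R₀ := isJacobsonRing_of_finiteType (A := ℤ)
  have hjac : IsJacobsonRing R := isJacobsonRing_of_finiteType (A := R₀)
  let K := FractionRing R
  obtain ⟨d, D, E, h, b, σK, hh, hσ, hσC, hE⟩ := exists_setup (R₀ := R₀) (R := R) hinj K
  let S := MvPolynomial (Fin d) R₀
  let Lc := Localization.Away E.f
  let al : S →+* Lc := algebraMap S Lc
  let co : R → Fin D → Lc := fun z => (E.ρ z).mulVec E.c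
  have hco_mul : ∀ (c : R₀) (z : R) (j : Fin D),
      co (algebraMap R₀ R c * z) j = al (MvPolynomial.C c) * co z j := by
    intro c z j
    change (E.ρ (algebraMap R₀ R c * z)).mulVec E.c j = _
    rw [map_mul, E.hscal, ← Matrix.mulVec_mulVec]
    simp only [Matrix.scalar_apply, Matrix.mulVec_diagonal]
    rfl
  have hco_sum : ∀ (c : Fin s → R₀) (j : Fin D),
      co (∑ i, algebraMap R₀ R (c i) * y i) j = ∑ i, al (MvPolynomial.C (c i)) * co (y i) j := by
    intro c j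
    change (E.ρ (∑ i, algebraMap R₀ R (c i) * y i)).mulVec E.c j = _
    rw [map_sum, Matrix.sum_mulVec, Finset.sum_apply]
    exact Finset.sum_congr rfl fun i _ => hco_mul _ _ _
  have hco_inj : ∀ z : R, (∀ j, co z j = 0) → z = 0 := by
    intro z hz
    obtain ⟨x, hx, N, hN1, hN2⟩ := hE z
    have hN0 : ∀ i, N i = 0 := by
      intro i
      have h1 := hN1 i
      have h2 : (E.ρ z).mulVec E.c i = 0 := hz i
      rw [h2, map_zero, mul_zero] at h1
      exact (map_eq_zero_iff _ (IsFractionRing.injective (MvPolynomial (Fin d) R₀)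
        (FractionRing (MvPolynomial (Fin d) R₀)))).mp h1.symm
    simp only [hN0, map_zero, zero_mul, Finset.sum_const_zero] at hN2
    have h3 : σK (MvPolynomial.C x * h) ≠ 0 := by
      rw [Ne, map_eq_zero_iff _ hσ]
      exact mul_ne_zero (by rwa [Ne, MvPolynomial.C_eq_zero]) hh
    have h4 := (mul_eq_zero.mp hN2).resolve_left h3
    exact (map_eq_zero_iff _ (IsFractionRing.injective R K)).mp h4
  -- common denominators
  have hnum : ∀ ij : Fin s × Fin D, ∃ (e : ℕ) (N : S), co (y ij.1) ij.2 * al E.f ^ e = al N :=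
    fun ij => exists_num E.f _
  choose ee NN hNN using hnum
  set e : ℕ := ∑ ij, ee ij with he
  obtain ⟨N', hN'⟩ : ∃ N' : Fin s × Fin D → S, ∀ ij : Fin s × Fin D,
      co (y ij.1) ij.2 * al E.f ^ e = al (N' ij) := by
    refine ⟨fun ij => NN ij * E.f ^ (e - ee ij), fun ij => ?_⟩
    have h1 : ee ij ≤ e := Finset.single_le_sum (f := ee) (fun _ _ => Nat.zero_le _)
      (Finset.mem_univ ij)
    rw [map_mul, map_pow, ← hNN ij, mul_assoc, ← pow_add, Nat.add_sub_cancel' h1]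
  let 𝒮 : Finset (Fin d →₀ ℕ) := Finset.univ.biUnion fun ij => (N' ij).support
  let Γ : Matrix (Fin D × 𝒮) (Fin s) R₀ :=
    Matrix.of fun jα i => (N' (i, jα.1)).coeff jα.2.val
  have hrel : ∀ (c : Fin s → R₀) (j : Fin D),
      co (∑ i, algebraMap R₀ R (c i) * y i) j * al E.f ^ e =
        al (∑ i, MvPolynomial.C (c i) * N' (i, j)) := by
    intro c j
    rw [hco_sum, Finset.sum_mul, map_sum]
    refine Finset.sum_congr rfl fun i _ => ?_
    rw [mul_assoc, hN' (i, j), map_mul]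
  have hfu : IsUnit (al E.f ^ e) := (IsLocalization.Away.algebraMap_isUnit E.f).pow e
  have hker0 : ∀ c : Fin s → R₀, Γ.mulVec c = 0 → c = 0 := by
    intro c hc
    apply hy
    apply hco_inj
    intro j
    have h1 : ∑ i, MvPolynomial.C (c i) * N' (i, j) = 0 := by
      ext α
      have hcm : ∀ i, MvPolynomial.coeff α (MvPolynomial.C (c i) * N' (i, j)) =
          c i * MvPolynomial.coeff α (N' (i, j)) := fun i => MvPolynomial.coeff_C_mul _ _ _
      rw [MvPolynomial.coeff_sum, MvPolynomial.coeff_zero, Finset.sum_congr rfl fun i _ => hcm i]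
      by_cases hα : α ∈ 𝒮
      · have h2 := congrFun hc (j, ⟨α, hα⟩)
        simp only [Matrix.mulVec, dotProduct, Pi.zero_apply] at h2
        rw [← h2]
        exact Finset.sum_congr rfl fun i _ => mul_comm _ _
      · refine Finset.sum_eq_zero fun i _ => ?_
        have h2 : α ∉ (N' (i, j)).support := fun h =>
          hα (Finset.mem_biUnion.mpr ⟨(i, j), Finset.mem_univ _, h⟩)
        rw [MvPolynomial.notMem_support_iff.mp h2, mul_zero]
    have h2 := hrel c j
    rw [h1, map_zero] at h2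
    exact (hfu.mul_left_eq_zero).mp h2
  have hker : ∀ v : Fin s → FractionRing R₀,
      (Γ.map (algebraMap R₀ (FractionRing R₀))).mulVec v = 0 → v = 0 := by
    intro v hv
    obtain ⟨a, ha⟩ := IsLocalization.exist_integer_multiples_of_finite (nonZeroDivisors R₀) v
    choose c hc using ha
    have hinj0 : Function.Injective (algebraMap R₀ (FractionRing R₀)) :=
      IsFractionRing.injective R₀ _
    have h1 : Γ.mulVec c = 0 := by
      funext j
      apply hinj0
      have h2 := congrFun hv j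
      simp only [Matrix.mulVec, dotProduct, Matrix.map_apply, Pi.zero_apply] at h2 ⊢
      rw [map_sum, map_zero]
      have h3 : ∀ i, algebraMap R₀ (FractionRing R₀) (Γ j i * c i) =
          algebraMap R₀ (FractionRing R₀) a * (algebraMap R₀ (FractionRing R₀) (Γ j i) * v i) := by
        intro i
        rw [map_mul, hc i, Algebra.smul_def]
        ring
      simp only [h3]
      rw [← Finset.mul_sum, h2, mul_zero]
    have h2 := hker0 c h1
    funext i
    have h3 := hc i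
    rw [h2, Pi.zero_apply, map_zero, Algebra.smul_def] at h3
    have h4 : algebraMap R₀ (FractionRing R₀) a ≠ 0 := by
      rw [Ne, map_eq_zero_iff _ hinj0]
      exact nonZeroDivisors.ne_zero a.2
    exact (mul_eq_zero.mp h3.symm).resolve_left h4
  obtain ⟨g₀, hg₀, hΓ⟩ := exists_ne_zero_of_trivial_kernel.{u} Γ hker
  obtain ⟨x₂, hx₂, h₂⟩ := dv_eq E.hf E.hdet
  obtain ⟨x₃, hx₃, h₃⟩ := dv_eq E.hf (E.hdety g hg)
  have hx₅ := lcc_ne E.hf
  refine ⟨g₀ * x₂ * x₃ * lcc E.f, mul_ne_zero (mul_ne_zero (mul_ne_zero hg₀ hx₂) hx₃) hx₅, ?_⟩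
  intro 𝔪₀ h𝔪₀ hh𝔪 c hc
  let _ : Field (R₀ ⧸ 𝔪₀) := Ideal.Quotient.field 𝔪₀
  let θ : R₀ →+* R₀ ⧸ 𝔪₀ := Ideal.Quotient.mk 𝔪₀
  have hne : ∀ x : R₀, x ∣ g₀ * x₂ * x₃ * lcc E.f → θ x ≠ 0 := by
    intro x hdvd h0
    apply hh𝔪
    obtain ⟨y, hy⟩ := hdvd
    rw [hy]
    exact 𝔪₀.mul_mem_right _ (Ideal.Quotient.eq_zero_iff_mem.mp h0)
  have e₁ : θ g₀ ≠ 0 := hne _ ⟨x₂ * x₃ * lcc E.f, by ring⟩
  have e₂ : θ x₂ ≠ 0 := hne _ ⟨g₀ * x₃ * lcc E.f, by ring⟩
  have e₃ : θ x₃ ≠ 0 := hne _ ⟨g₀ * x₂ * lcc E.f, by ring⟩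
  have e₅ : θ (lcc E.f) ≠ 0 := hne _ ⟨g₀ * x₂ * x₃, by ring⟩
  obtain ⟨hθ, hdeg⟩ := map_of_lcc θ E.hf e₅
  have h4 := coord_zero E θ hθ (h₂ θ hθ hdeg e₂).2 (h₃ θ hθ hdeg e₃).2
    (a := ∑ i, algebraMap R₀ R (c i) * y i) (fun 𝔪 h𝔪 hx hgm => hc 𝔪 h𝔪
      (fun x hxm => hx x (Ideal.Quotient.eq_zero_iff_mem.mpr hxm)) hgm)
  have h5 : ∀ j, ∑ i, MvPolynomial.C (θ (c i)) * MvPolynomial.map θ (N' (i, j)) = 0 := by
    intro j
    have h6 := congrArg (pif E.f θ hθ) (hrel c j)
    have h7 : pif E.f θ hθ (co (∑ i, algebraMap R₀ R (c i) * y i) j) = 0 := by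
      have h8 := congrFun h4 j
      rw [rb_mulVec] at h8
      exact h8
    rw [map_mul, h7, zero_mul] at h6
    have h8 : pif E.f θ hθ (al (∑ i, MvPolynomial.C (c i) * N' (i, j))) =
        algebraMap _ _ (MvPolynomial.map θ (∑ i, MvPolynomial.C (c i) * N' (i, j))) :=
      pif_algebraMap E.f θ hθ _
    rw [h8] at h6
    have h9 := (map_eq_zero_iff _ (IsFractionRing.injective (MvPolynomial (Fin d) (R₀ ⧸ 𝔪₀))
      (FractionRing (MvPolynomial (Fin d) (R₀ ⧸ 𝔪₀))))).mp h6.symm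
    rw [map_sum] at h9
    simp only [map_mul, MvPolynomial.map_C] at h9
    exact h9
  have h6 : (Γ.map θ).mulVec (fun i => θ (c i)) = 0 := by
    funext jα
    have h7 := congrArg (fun q => MvPolynomial.coeff jα.2.val q) (h5 jα.1)
    simp only [MvPolynomial.coeff_sum, MvPolynomial.coeff_C_mul, MvPolynomial.coeff_map,
      MvPolynomial.coeff_zero] at h7
    simp only [Matrix.mulVec, dotProduct, Matrix.map_apply, Pi.zero_apply]
    rw [← h7]
    exact Finset.sum_congr rfl fun i _ => mul_comm _ _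
  have h7 := hΓ (R₀ ⧸ 𝔪₀) θ e₁ _ h6
  intro i
  exact Ideal.Quotient.eq_zero_iff_mem.mp (congrFun h7 i)

end Pool.Agent.W77.IM
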