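import Mathlib
import Pool.Agent.W77.IM.Unif

set_option autoImplicit false

open Polynomial
open Pool.Agent.W432.PC Pool.Agent.W432.FD

namespace Pool.Agent.W77.IM

universe u

/-- A matrix with trivial kernel keeps a trivial kernel over the field of fractions. -/
lemma ker_frac {A : Type*} [CommRing A] [IsDomain A] {a b : Type*} [Fintype a] [Fintype b]
    (Γ : Matrix a b A) (h : ∀ c : b → A, Γ.mulVec c = 0 → c = 0) (v : b → FractionRing A)
    (hv : (Γ.map (algebraMap A (FractionRing A))).mulVec v = 0) : v = 0 := by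
  classical
  obtain ⟨d, hd⟩ := IsLocalization.exist_integer_multiples_of_finite (nonZeroDivisors A) v
  choose c hc using hd
  have hinj0 : Function.Injective (algebraMap A (FractionRing A)) := IsFractionRing.injective A _
  have h1 : Γ.mulVec c = 0 := by
    funext j
    apply hinj0
    have h2 := congrFun hv j
    simp only [Matrix.mulVec, dotProduct, Matrix.map_apply, Pi.zero_apply] at h2 ⊢
    rw [map_sum, map_zero]
    have h3 : ∀ i, algebraMap A (FractionRing A) (Γ j i * c i) =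
        algebraMap A (FractionRing A) d * (algebraMap A (FractionRing A) (Γ j i) * v i) := by
      intro i
      rw [map_mul, hc i, Algebra.smul_def]
      ring
    simp only [h3]
    rw [← Finset.mul_sum, h2, mul_zero]
  have h2 := h c h1
  funext i
  have h3 := hc i
  rw [h2, Pi.zero_apply, map_zero, Algebra.smul_def] at h3
  have h4 : algebraMap A (FractionRing A) d ≠ 0 := by
    rw [Ne, map_eq_zero_iff _ hinj0]
    exact nonZeroDivisors.ne_zero d.2
  exact (mul_eq_zero.mp h3.symm).resolve_left h4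

/-- A finite family in `R` is, up to denominators, spanned by an independent family over `R₀`. -/
lemma exists_indep {R₀ R : Type u} [CommRing R₀] [IsDomain R₀] [CommRing R] [IsDomain R]
    [Algebra R₀ R] (hinj : Function.Injective (algebraMap R₀ R)) {ω : Type} [Fintype ω]
    (z : ω → R) : ∃ (s : ℕ) (y : Fin s → R) (h₁ : R₀) (κ : ω → Fin s → R₀), h₁ ≠ 0 ∧
      (∀ c : Fin s → R₀, ∑ i, algebraMap R₀ R (c i) * y i = 0 → c = 0) ∧
      ∀ w, algebraMap R₀ R h₁ * z w = ∑ ρ, algebraMap R₀ R (κ w ρ) * y ρ := by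
  classical
  let K := FractionRing R
  let k₀ := FractionRing R₀
  have hRK : Function.Injective (algebraMap R K) := IsFractionRing.injective R K
  have h₀K : Function.Injective ((algebraMap R K).comp (algebraMap R₀ R)) := hRK.comp hinj
  let ψ : k₀ →+* K := IsFractionRing.lift (A := R₀) (K := k₀) h₀K
  have hψ : ∀ c, ψ (algebraMap R₀ k₀ c) = algebraMap R K (algebraMap R₀ R c) := fun c =>
    IsFractionRing.lift_algebraMap h₀K c
  let _ : Module k₀ K := Module.compHom K ψ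
  have hsm : ∀ (c : k₀) (x : K), c • x = ψ c * x := fun _ _ => rfl
  obtain ⟨κ, a, ha, hspan, hli⟩ := exists_linearIndependent' k₀ fun w => algebraMap R K (z w)
  have hκ : Fintype κ := Fintype.ofInjective a ha
  let eq := Fintype.equivFin κ
  let y : Fin (Fintype.card κ) → R := fun ρ => z (a (eq.symm ρ))
  have hli' := Fintype.linearIndependent_iff.mp hli
  have hy : ∀ c : Fin (Fintype.card κ) → R₀, ∑ i, algebraMap R₀ R (c i) * y i = 0 → c = 0 := by
    intro c hc
    have h1 : ∑ i, algebraMap R₀ k₀ (c (eq i)) •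
        ((fun w => algebraMap R K (z w)) ∘ a) i = 0 := by
      have h2 := congrArg (algebraMap R K) hc
      rw [map_sum, map_zero] at h2
      rw [← h2, ← Equiv.sum_comp eq]
      refine Finset.sum_congr rfl fun i _ => ?_
      rw [hsm, hψ, map_mul]
      simp only [y, Equiv.symm_apply_apply, Function.comp_apply]
    funext ρ
    have h2 := hli' _ h1 (eq.symm ρ)
    rw [Equiv.apply_symm_apply] at h2
    exact (map_eq_zero_iff _ (IsFractionRing.injective R₀ k₀)).mp h2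
  have hz : ∀ w, ∃ β : Fin (Fintype.card κ) → k₀, algebraMap R K (z w) =
      ∑ ρ, ψ (β ρ) * algebraMap R K (y ρ) := by
    intro w
    have h1 : algebraMap R K (z w) ∈
        Submodule.span k₀ (Set.range ((fun w => algebraMap R K (z w)) ∘ a)) := by
      rw [hspan]; exact Submodule.subset_span ⟨w, rfl⟩
    obtain ⟨β, hβ⟩ := (Submodule.mem_span_range_iff_exists_fun k₀).mp h1
    refine ⟨fun ρ => β (eq.symm ρ), ?_⟩
    rw [← hβ, ← Equiv.sum_comp eq.symm]
    rfl
  choose β hβ using hz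
  obtain ⟨d, hd⟩ := IsLocalization.exist_integer_multiples_of_finite (nonZeroDivisors R₀)
    (fun x : ω × Fin (Fintype.card κ) => β x.1 x.2)
  choose g hg using hd
  refine ⟨_, y, d, fun w ρ => g (w, ρ), nonZeroDivisors.ne_zero d.2, hy, fun w => ?_⟩
  apply hRK
  rw [map_mul, hβ, map_sum, Finset.mul_sum]
  refine Finset.sum_congr rfl fun ρ _ => ?_
  rw [map_mul, ← hψ, ← hψ, hg (w, ρ), Algebra.smul_def, map_mul]
  ring

/-- Independence of polynomial vectors modulo almost all closed points. -/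
theorem indep_mod_poly {R₀ R : Type u} [CommRing R₀] [IsDomain R₀] [CharZero R₀]
    [Algebra.FiniteType ℤ R₀] [CommRing R] [IsDomain R] [Algebra R₀ R] [Algebra.FiniteType R₀ R]
    (hinj : Function.Injective (algebraMap R₀ R)) {N m : ℕ} (H : Fin N → Fin m → R[X])
    (hH : ∀ f : Fin m → R₀[X], (∀ j, ∑ i, (f i).map (algebraMap R₀ R) * H j i = 0) → f = 0)
    {g : R} (hg : g ≠ 0) :
    ∃ h : R₀, h ≠ 0 ∧ ∀ 𝔪₀ : Ideal R₀, 𝔪₀.IsMaximal → h ∉ 𝔪₀ → ∀ f : Fin m → R₀[X],
      (∀ 𝔪 : Ideal R, 𝔪.IsMaximal → (∀ x ∈ 𝔪₀, algebraMap R₀ R x ∈ 𝔪) → g ∉ 𝔪 →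
        ∀ j t, (∑ i, (f i).map (algebraMap R₀ R) * H j i).coeff t ∈ 𝔪) →
      ∀ i t, (f i).coeff t ∈ 𝔪₀ := by
  classical
  obtain ⟨B, hB⟩ : ∃ B : ℕ, ∀ j i, (H j i).natDegree < B := by
    refine ⟨(∑ j, ∑ i, (H j i).natDegree) + 1, fun j i => Nat.lt_succ_of_le ?_⟩
    calc (H j i).natDegree ≤ ∑ i, (H j i).natDegree :=
          Finset.single_le_sum (f := fun i => (H j i).natDegree) (fun _ _ => Nat.zero_le _)
            (Finset.mem_univ i)
      _ ≤ ∑ j, ∑ i, (H j i).natDegree :=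
          Finset.single_le_sum (f := fun j => ∑ i, (H j i).natDegree) (fun _ _ => Nat.zero_le _)
            (Finset.mem_univ j)
  obtain ⟨s, y, h₁, κ, hh₁, hy, hκ⟩ := exists_indep hinj
    (fun w : Fin N × Fin m × Fin B => (H w.1 w.2.1).coeff w.2.2)
  let Γ : Matrix (Fin N × Fin s) (Fin m) R₀[X] :=
    Matrix.of fun jρ i => ∑ v : Fin B, C (κ (jρ.1, i, v) jρ.2) * X ^ (v : ℕ)
  have hΓ : ∀ j i, C (algebraMap R₀ R h₁) * H j i =
      ∑ ρ, (Γ (j, ρ) i).map (algebraMap R₀ R) * C (y ρ) := by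
    intro j i
    have h1 : H j i = ∑ v : Fin B, C ((H j i).coeff v) * X ^ (v : ℕ) := by
      conv_lhs => rw [as_sum_range' (H j i) B (hB j i)]
      rw [Finset.sum_range]
      exact Finset.sum_congr rfl fun v _ => (C_mul_X_pow_eq_monomial).symm
    conv_lhs => rw [h1, Finset.mul_sum]
    have h2 : ∀ ρ, (Γ (j, ρ) i).map (algebraMap R₀ R) * C (y ρ) =
        ∑ v : Fin B, C (algebraMap R₀ R (κ (j, i, v) ρ) * y ρ) * X ^ (v : ℕ) := by
      intro ρ
      have h3 : Γ (j, ρ) i = ∑ v : Fin B, C (κ (j, i, v) ρ) * X ^ (v : ℕ) := rfl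
      rw [h3, Polynomial.map_sum, Finset.sum_mul]
      refine Finset.sum_congr rfl fun v _ => ?_
      rw [Polynomial.map_mul, map_C, Polynomial.map_pow, map_X, C_mul]
      ring
    simp only [h2]
    rw [Finset.sum_comm]
    refine Finset.sum_congr rfl fun v _ => ?_
    rw [← mul_assoc, ← C_mul, hκ (j, i, v), map_sum, Finset.sum_mul]
  have hrel : ∀ (f : Fin m → R₀[X]) (j : Fin N),
      C (algebraMap R₀ R h₁) * ∑ i, (f i).map (algebraMap R₀ R) * H j i =
        ∑ ρ, (Γ.mulVec f (j, ρ)).map (algebraMap R₀ R) * C (y ρ) := by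
    intro f j
    rw [Finset.mul_sum]
    have h1 : ∀ i, C (algebraMap R₀ R h₁) * ((f i).map (algebraMap R₀ R) * H j i) =
        ∑ ρ, (Γ (j, ρ) i * f i).map (algebraMap R₀ R) * C (y ρ) := by
      intro i
      rw [mul_left_comm, hΓ, Finset.mul_sum]
      refine Finset.sum_congr rfl fun ρ _ => ?_
      rw [Polynomial.map_mul]
      ring
    simp only [h1]
    rw [Finset.sum_comm]
    refine Finset.sum_congr rfl fun ρ _ => ?_
    rw [← Finset.sum_mul, ← Polynomial.map_sum]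
    rfl
  have hC : C (algebraMap R₀ R h₁) ≠ 0 := by
    rw [Ne, C_eq_zero, map_eq_zero_iff _ hinj]; exact hh₁
  have hker : ∀ c : Fin m → R₀[X], Γ.mulVec c = 0 → c = 0 := by
    intro c hc
    apply hH
    intro j
    have h1 := hrel c j
    simp only [hc, Pi.zero_apply, Polynomial.map_zero, zero_mul, Finset.sum_const_zero] at h1
    exact (mul_eq_zero.mp h1).resolve_left hC
  obtain ⟨q, hq, hΓq⟩ := exists_ne_zero_of_trivial_kernel.{u} Γ (ker_frac Γ hker)
  obtain ⟨h₂, hh₂, hmod⟩ := indep_mod hinj y hy hg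
  refine ⟨h₂ * q.leadingCoeff, mul_ne_zero hh₂ (leadingCoeff_ne_zero.mpr hq), ?_⟩
  intro 𝔪₀ h𝔪₀ hh f hf
  have hh₂' : h₂ ∉ 𝔪₀ := fun h => hh (𝔪₀.mul_mem_right _ h)
  have hq' : q.leadingCoeff ∉ 𝔪₀ := fun h => hh (𝔪₀.mul_mem_left _ h)
  have h3 : ∀ j ρ t, (Γ.mulVec f (j, ρ)).coeff t ∈ 𝔪₀ := by
    intro j ρ t
    refine hmod 𝔪₀ h𝔪₀ hh₂' (fun ρ => (Γ.mulVec f (j, ρ)).coeff t) (fun 𝔪 h𝔪 hx hgm => ?_) ρ
    have h4 := congrArg (fun p => p.coeff t) (hrel f j)
    simp only [coeff_C_mul, finsetSum_coeff, coeff_mul_C, coeff_map] at h4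
    rw [← h4, ← finsetSum_coeff]
    exact 𝔪.mul_mem_left _ (hf 𝔪 h𝔪 hx hgm j t)
  let _ : Field (R₀ ⧸ 𝔪₀) := Ideal.Quotient.field 𝔪₀
  let θ : R₀ →+* R₀ ⧸ 𝔪₀ := Ideal.Quotient.mk 𝔪₀
  let φ : R₀[X] →+* RatFunc (R₀ ⧸ 𝔪₀) :=
    (algebraMap (R₀ ⧸ 𝔪₀)[X] (RatFunc (R₀ ⧸ 𝔪₀))).comp (mapRingHom θ)
  have hφ : ∀ p : R₀[X], φ p = 0 ↔ p.map θ = 0 := by
    intro p
    change algebraMap (R₀ ⧸ 𝔪₀)[X] (RatFunc (R₀ ⧸ 𝔪₀)) (p.map θ) = 0 ↔ _
    exact map_eq_zero_iff _ (IsFractionRing.injective _ _)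
  have hφq : φ q ≠ 0 := by
    rw [Ne, hφ]
    intro h0
    have h1 := congrArg (fun p => p.coeff q.natDegree) h0
    simp only [coeff_map, coeff_zero, coeff_natDegree] at h1
    exact hq' (Ideal.Quotient.eq_zero_iff_mem.mp h1)
  have h4 : (Γ.map φ).mulVec (fun i => φ (f i)) = 0 := by
    funext jρ
    have h5 : (Γ.map φ).mulVec (fun i => φ (f i)) jρ = φ (Γ.mulVec f jρ) := by
      simp only [Matrix.mulVec, dotProduct, Matrix.map_apply, map_sum, map_mul]
    rw [h5, Pi.zero_apply, hφ]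
    ext t
    rw [coeff_map, coeff_zero]
    exact Ideal.Quotient.eq_zero_iff_mem.mpr (h3 jρ.1 jρ.2 t)
  have h5 := hΓq (RatFunc (R₀ ⧸ 𝔪₀)) φ hφq _ h4
  intro i t
  have h6 := (hφ (f i)).mp (congrFun h5 i)
  have h7 := congrArg (fun p => p.coeff t) h6
  simp only [coeff_map, coeff_zero] at h7
  exact Ideal.Quotient.eq_zero_iff_mem.mp h7

end Pool.Agent.W77.IM
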