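import Mathlib
import Pool.Agent.W77.IM.CurvA
import Pool.Agent.W77.IM.UnifP

set_option autoImplicit false

open Polynomial Module
open Pool.Agent.W432.PC Pool.Agent.W432.FD

namespace Pool.Agent.W77.IM

universe u v w

/-- The `n`-th power of the `p`-curvature vanishes at all closed points of a dense open subset of
`Spec R`: `∇ ^ (p n)` maps the lattice `E` into `𝔪 E`, where `p` is the residue characteristic. -/
def PCurvPowZero {R F V : Type*} [CommRing R] [Field F] [Algebra R F] [AddCommGroup V]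
    [Module F V] {A : Subalgebra R F} (n : ℕ) (nabla : V →+ V) (E : Submodule A V) : Prop :=
  ∃ g : R, g ≠ 0 ∧ ∀ 𝔪 : Ideal R, 𝔪.IsMaximal → g ∉ 𝔪 → ∀ p : ℕ, p.Prime → (p : R) ∈ 𝔪 →
    ∀ e ∈ E, nabla^[p * n] e ∈ 𝔪.map (algebraMap R A) • E

theorem descent_curv {R₀ R : Type u} [CommRing R₀] [IsDomain R₀] [CharZero R₀]
    [Algebra.FiniteType ℤ R₀] [CommRing R] [IsDomain R] [Algebra R₀ R] [Algebra.FiniteType R₀ R]
    (hR₀ : Function.Injective (algebraMap R₀ R))
    {F : Type v} [Field F] [Algebra R F] [Algebra R₀ F] [IsScalarTower R₀ R F]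
    (hRF : Function.Injective (algebraMap R F)) (δ : Derivation R F F) (x : F) (hx : δ x = 1)
    (T : R₀[X]) (hT : T ≠ 0) {V : Type w} [AddCommGroup V] [Module F V]
    (nabla : V →+ V) (hnabla : ∀ (f : F) (v : V), nabla (f • v) = δ f • v + f • nabla v)
    (E : Submodule (CoordRing x T R) V) (hfg : E.FG) (hE : ∀ e ∈ E, nabla e ∈ E)
    (n₁ : ℕ) (hnil : PCurvPowZero n₁ nabla E) :
    ∃ (T₀ : R₀[X]) (_ : T₀ ≠ 0) (E₀ : Submodule (CoordRing x T₀ R₀) V), E₀.FG ∧
      (∀ e ∈ E₀, nabla e ∈ E₀) ∧ ((E : Set V) ⊆ Submodule.span F (E₀ : Set V)) ∧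
      PCurvPowZero n₁ nabla E₀ := by
  classical
  obtain ⟨g, hg, hnil⟩ := hnil
  have hjacZ : IsJacobsonRing ℤ := jac_int
  have hjac0 : IsJacobsonRing R₀ := isJacobsonRing_of_finiteType (A := ℤ)
  have hjac : IsJacobsonRing R := isJacobsonRing_of_finiteType (A := R₀)
  let δ₀ : Derivation R₀ F F := δ.restrictScalars R₀
  have hδ₀ : ∀ f, δ₀ f = δ f := fun _ => rfl
  have hx₀ : δ₀ x = 1 := hx
  have h₀F : Function.Injective (algebraMap R₀ F) := by
    rw [IsScalarTower.algebraMap_eq R₀ R F]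
    exact hRF.comp hR₀
  have hq0 : ∀ q : R₀[X], q ≠ 0 → (aeval x q : F) ≠ 0 := fun q hq =>
    aeval_ne_zero h₀F (δ.restrictScalars ℤ) (fun a => δ₀.map_algebraMap a) x hx hq
  obtain ⟨c, hc, N, k, b, M, lam, hlamR, hlaminj, hbE, hEb, hind, hit, hRP⟩ :=
    exists_model hR₀ hRF (δ.restrictScalars ℤ) (fun a => δ.map_algebraMap a) x hx T hT nabla hnabla
      E hfg hE
  set R' := Localization.Away c with hR'
  have hle : Submonoid.powers c ≤ nonZeroDivisors R := by
    rw [Submonoid.powers_le]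
    exact mem_nonZeroDivisors_of_ne_zero hc
  have hdom : IsDomain R' := IsLocalization.isDomain_localization hle
  have hft : Algebra.FiniteType R₀ R' := inferInstance
  have hinjRR' : Function.Injective (algebraMap R R') := IsLocalization.injective R' hle
  have hinj' : Function.Injective (algebraMap R₀ R') := by
    rw [IsScalarTower.algebraMap_eq R₀ R R']
    exact hinjRR'.comp hR₀
  have hjac' : IsJacobsonRing R' := isJacobsonRing_of_finiteType (A := R₀)
  have hlam0 : ∀ a : R₀, lam (algebraMap R₀ R' a) = algebraMap R₀ F a := by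
    intro a
    rw [IsScalarTower.algebraMap_apply R₀ R R', hlamR, ← IsScalarTower.algebraMap_apply]
  have hev0 : ∀ f : R₀[X], eval₂ lam x (f.map (algebraMap R₀ R')) = aeval x f := by
    intro f
    rw [eval₂_map]
    have : lam.comp (algebraMap R₀ R') = algebraMap R₀ F := RingHom.ext hlam0
    rw [this]
    rfl
  set T' : R'[X] := (T ^ k).map (algebraMap R₀ R') with hT'
  have hevT' : ∀ s : ℕ, eval₂ lam x (T' ^ s) = (aeval x T : F) ^ (k * s) := by
    intro s
    rw [eval₂_pow, hT', hev0, map_pow, ← pow_mul]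
  -- the bad locus
  have hlc : algebraMap R₀ R T.leadingCoeff ≠ 0 := by
    rw [Ne, map_eq_zero_iff _ hR₀]; exact leadingCoeff_ne_zero.mpr hT
  set g' : R' := algebraMap R R' (g * algebraMap R₀ R T.leadingCoeff) with hg'def
  have hg' : g' ≠ 0 := by
    rw [hg'def, Ne, map_eq_zero_iff _ hinjRR']
    exact mul_ne_zero hg hlc
  have hg'1 : ∀ 𝔪' : Ideal R', g' ∉ 𝔪' → g ∉ 𝔪'.under R := by
    intro 𝔪' hg'm h
    apply hg'm
    rw [hg'def, map_mul]
    exact 𝔪'.mul_mem_right _ h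
  have hg'2 : ∀ 𝔪' : Ideal R', g' ∉ 𝔪' → algebraMap R₀ R' T.leadingCoeff ∉ 𝔪' := by
    intro 𝔪' hg'm h
    apply hg'm
    rw [hg'def, map_mul, ← IsScalarTower.algebraMap_apply R₀ R R']
    exact 𝔪'.mul_mem_left _ h
  have hstar : ∀ 𝔪' : Ideal R', 𝔪'.IsMaximal → g' ∉ 𝔪' → ∀ p : ℕ, p.Prime → (p : R') ∈ 𝔪' →
      ∀ j l i, (QQ T' M (p * n₁) j l).coeff i ∈ 𝔪' := by
    intro 𝔪' h𝔪' hgm p hp hpm j l i
    have h𝔪 : (𝔪'.under R).IsMaximal :=
      ((IsLocalization.isMaximal_iff_isMaximal_disjoint R' c 𝔪').mp h𝔪').1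
    refine hRP 𝔪' h𝔪' (hg'2 𝔪' hgm) (p * n₁) l (hnil _ h𝔪 (hg'1 𝔪' hgm) p hp ?_ (b l) (hbE l)) j i
    change algebraMap R R' (p : R) ∈ 𝔪'
    rwa [map_natCast]
  have hTθ : ∀ 𝔪' : Ideal R', 𝔪'.IsMaximal → g' ∉ 𝔪' →
      T'.map (Ideal.Quotient.mk 𝔪') ≠ 0 := by
    intro 𝔪' h𝔪' hgm
    let _ : Field (R' ⧸ 𝔪') := Ideal.Quotient.field 𝔪'
    rw [hT', Polynomial.map_map, Polynomial.map_pow]
    refine pow_ne_zero _ fun h0 => ?_
    have h1 := congrArg (fun q => q.coeff T.natDegree) h0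
    simp only [coeff_map, coeff_zero, coeff_natDegree] at h1
    exact hg'2 𝔪' hgm (Ideal.Quotient.eq_zero_iff_mem.mp h1)
  -- global nilpotence
  have hGN : GloballyNilpotent T' M := by
    refine ⟨g', hg', fun 𝔪' h𝔪' hgm => ?_⟩
    unfold PNilpAt
    let _ : Field (R' ⧸ 𝔪') := Ideal.Quotient.field 𝔪'
    have hft' : Algebra.FiniteType ℤ R' := Algebra.FiniteType.trans (S := R₀) inferInstance hft
    obtain ⟨p, hp, hcharp⟩ := exists_char (Ideal.Quotient.mk 𝔪') Ideal.Quotient.mk_surjective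
    have hpm : (p : R') ∈ 𝔪' := by
      rw [← Ideal.Quotient.eq_zero_iff_mem, map_natCast]
      exact CharP.cast_eq_zero _ p
    refine pnilp_of hp _ _ fun l => ⟨p * n₁, ?_⟩
    funext j
    have hT0 := hTθ 𝔪' h𝔪' hgm
    have h4 := conn_iterate hT0 (M := M.map (mapRingHom (Ideal.Quotient.mk 𝔪'))) l (p * n₁) j
    have h5 : QQ (T'.map (Ideal.Quotient.mk 𝔪')) (M.map (mapRingHom (Ideal.Quotient.mk 𝔪')))
        (p * n₁) j l = 0 := by
      rw [← QQ_map, Matrix.map_apply, coe_mapRingHom]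
      ext i
      rw [coeff_map, coeff_zero]
      exact Ideal.Quotient.eq_zero_iff_mem.mpr (hstar 𝔪' h𝔪' hgm p hp hpm j l i)
    rw [h5, map_zero, mul_eq_zero] at h4
    refine h4.resolve_left (pow_ne_zero _ ?_)
    rw [Ne, map_eq_zero_iff _ (IsFractionRing.injective _ _)]
    exact hT0
  -- finiteness
  let K' := FractionRing R'
  let k₀ := FractionRing R₀
  have hRK' : Function.Injective (algebraMap R' K') := IsFractionRing.injective R' K'
  have hinjk : Function.Injective ((algebraMap R' K').comp (algebraMap R₀ R')) := hRK'.comp hinj'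
  let κ₀ : k₀ →+* K' := IsFractionRing.lift (A := R₀) (K := k₀) hinjk
  have hκ₀ : ∀ a, κ₀ (algebraMap R₀ k₀ a) = algebraMap R' K' (algebraMap R₀ R' a) := fun a =>
    IsFractionRing.lift_algebraMap hinjk a
  obtain ⟨s', wK, hwK⟩ := bounded_span (R₀ := R₀) (R := R') hinj' K' κ₀ hκ₀
    (pow_ne_zero k hT) hGN
  let κF : K' →+* F := IsFractionRing.lift (A := R') (K := K') hlaminj
  have hκF : ∀ a, κF (algebraMap R' K' a) = lam a := fun a => IsFractionRing.lift_algebraMap hlaminj a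
  let L₀ : Subfield F := Subfield.closure (Set.range (algebraMap R₀ F) ∪ {x})
  have hxL : x ∈ L₀ := Subfield.subset_closure (Or.inr (Set.mem_singleton x))
  have haL : ∀ a : R₀, algebraMap R₀ F a ∈ L₀ := fun a =>
    Subfield.subset_closure (Or.inl (Set.mem_range_self a))
  have hpL : ∀ f : R₀[X], (aeval x f : F) ∈ L₀ := by
    intro f
    rw [aeval_eq_sum_range]
    refine Subfield.sum_mem _ fun i _ => ?_
    rw [Algebra.smul_def]
    exact Subfield.mul_mem _ (haL _) (Subfield.pow_mem _ hxL _)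
  have hkL : ∀ a : k₀, κF (κ₀ a) ∈ L₀ := by
    intro a
    obtain ⟨y, z, hz, rfl⟩ := IsFractionRing.div_surjective (A := R₀) a
    rw [map_div₀, map_div₀, hκ₀, hκ₀, hκF, hκF, hlam0, hlam0]
    exact Subfield.div_mem _ (haL _) (haL _)
  let vv : ℕ × Fin N → V := fun nl => nabla^[nl.1] (b nl.2)
  have hTx : (aeval x T : F) ≠ 0 := hq0 T hT
  let 𝒲 : Submodule L₀ V := Submodule.span L₀
    (Set.range fun jl : Fin s' × Fin N => κF (wK jl.1) • b jl.2)
  have hvW : ∀ nl, vv nl ∈ 𝒲 := by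
    intro nl
    have h1 : vv nl = (((aeval x T : F) ^ (k * nl.1))⁻¹) •
        ∑ j, eval₂ lam x (QQ T' M nl.1 j nl.2) • b j := by
      rw [← hit nl.1 nl.2, smul_smul, inv_mul_cancel₀ (pow_ne_zero _ hTx), one_smul]
    rw [h1]
    refine Submodule.smul_mem 𝒲 (⟨((aeval x T : F) ^ (k * nl.1))⁻¹, Subfield.inv_mem _
      (Subfield.pow_mem _ (hpL T) _)⟩ : L₀) (Submodule.sum_mem _ fun j _ => ?_)
    rw [eval₂_eq_sum_range, Finset.sum_smul]
    refine Submodule.sum_mem _ fun m _ => ?_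
    obtain ⟨cc, hcc⟩ := hwK nl.1 nl.2 j m
    have h2 : lam ((QQ T' M nl.1 j nl.2).coeff m) = ∑ i, κF (κ₀ (cc i)) * κF (wK i) := by
      rw [← hκF, hcc, map_sum]
      exact Finset.sum_congr rfl fun i _ => map_mul _ _ _
    rw [h2, Finset.sum_mul, Finset.sum_smul]
    refine Submodule.sum_mem _ fun i _ => ?_
    have h3 : (κF (κ₀ (cc i)) * κF (wK i) * x ^ m) • b j =
        (κF (κ₀ (cc i)) * x ^ m) • (κF (wK i) • b j) := by
      rw [smul_smul]; congr 1; ring
    rw [h3]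
    exact Submodule.smul_mem 𝒲 (⟨κF (κ₀ (cc i)) * x ^ m, Subfield.mul_mem _ (hkL _)
      (Subfield.pow_mem _ hxL _)⟩ : L₀) (Submodule.subset_span ⟨(i, j), rfl⟩)
  -- a basis among the iterates
  obtain ⟨κ, a, ha, hspan, hli⟩ := exists_linearIndependent' L₀ vv
  have hκfin : Finite κ := by
    refine hli.finite_of_le_span_finite _ (Set.range fun jl : Fin s' × Fin N =>
      κF (wK jl.1) • b jl.2) ?_
    rintro _ ⟨i, rfl⟩
    exact hvW _
  obtain ⟨m, ⟨eq⟩⟩ := Finite.exists_equiv_fin κ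
  let w : Fin m → V := fun i => vv (a (eq.symm i))
  have hwli : LinearIndependent L₀ w := hli.comp eq.symm eq.symm.injective
  have hwspan : Submodule.span L₀ (Set.range w) = Submodule.span L₀ (Set.range vv) := by
    rw [← hspan]
    congr 1
    ext u
    constructor
    · rintro ⟨i, rfl⟩; exact ⟨eq.symm i, rfl⟩
    · rintro ⟨i, rfl⟩
      refine ⟨eq i, ?_⟩
      change vv (a (eq.symm (eq i))) = vv (a i)
      rw [Equiv.symm_apply_apply]
  have hcoef : ∀ nl, ∃ z : Fin m → F, (∀ i, z i ∈ L₀) ∧ vv nl = ∑ i, z i • w i := by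
    intro nl
    have h1 : vv nl ∈ Submodule.span L₀ (Set.range w) := by
      rw [hwspan]; exact Submodule.subset_span ⟨nl, rfl⟩
    obtain ⟨z, hz⟩ := (Submodule.mem_span_range_iff_exists_fun L₀).mp h1
    exact ⟨fun i => z i, fun i => (z i).2, hz.symm⟩
  let ni : Fin m → ℕ := fun i => (a (eq.symm i)).1
  let li : Fin m → Fin N := fun i => (a (eq.symm i)).2
  have hw : ∀ i, w i = nabla^[ni i] (b (li i)) := fun i => rfl
  -- structure constants
  have hcoef' : ∀ θ : Fin m ⊕ Fin N, ∃ z : Fin m → F, (∀ i, z i ∈ L₀) ∧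
      (Sum.elim (fun j => nabla (w j)) b θ) = ∑ i, z i • w i := by
    rintro (j | l)
    · obtain ⟨z, hz, h⟩ := hcoef (ni j + 1, li j)
      refine ⟨z, hz, ?_⟩
      rw [← h]
      change nabla (nabla^[ni j] (b (li j))) = nabla^[ni j + 1] (b (li j))
      rw [Function.iterate_succ_apply']
    · obtain ⟨z, hz, h⟩ := hcoef (0, l)
      exact ⟨z, hz, h⟩
  choose z hzL hz using hcoef'
  have hfr : ∀ θi : (Fin m ⊕ Fin N) × Fin m, ∃ f q : R₀[X], q ≠ 0 ∧
      (aeval x q : F) * z θi.1 θi.2 = aeval x f := fun θi =>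
    frac_of_mem x hq0 (hzL θi.1 θi.2)
  choose ff qq hqq hfq using hfr
  let T₀ : R₀[X] := ∏ θi, qq θi
  have hT₀ : T₀ ≠ 0 := Finset.prod_ne_zero_iff.mpr fun θi _ => hqq θi
  have hT₀x : (aeval x T₀ : F) ≠ 0 := hq0 T₀ hT₀
  have hzA : ∀ θ i, z θ i ∈ CoordRing x T₀ R₀ := by
    intro θ i
    have h1 : z θ i = aeval x (ff (θ, i) * ∏ ζ ∈ Finset.univ.erase (θ, i), qq ζ) *
        (aeval x T₀ : F)⁻¹ := by
      have h2 : (aeval x T₀ : F) = aeval x (qq (θ, i)) *
          aeval x (∏ ζ ∈ Finset.univ.erase (θ, i), qq ζ) := by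
        rw [← map_mul, Finset.mul_prod_erase _ _ (Finset.mem_univ _)]
      rw [eq_mul_inv_iff_mul_eq₀ hT₀x, map_mul, ← hfq (θ, i), h2]
      ring
    rw [h1]
    exact Subalgebra.mul_mem _ (aeval_mem x T₀ _) (inv_mem_coord x T₀)
  let E₀ : Submodule (CoordRing x T₀ R₀) V := Submodule.span _ (Set.range w)
  have hE₀def : E₀ = Submodule.span (CoordRing x T₀ R₀) (Set.range w) := rfl
  have hwE : ∀ i, w i ∈ E₀ := fun i => Submodule.subset_span ⟨i, rfl⟩
  have hE₀st : ∀ e ∈ E₀, nabla e ∈ E₀ := by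
    intro e he
    induction he using Submodule.span_induction with
    | mem e he =>
      obtain ⟨j, rfl⟩ := he
      have h1 := hz (Sum.inl j)
      simp only [Sum.elim_inl] at h1
      rw [h1]
      exact Submodule.sum_mem _ fun i _ =>
        Submodule.smul_mem _ (⟨z (Sum.inl j) i, hzA _ _⟩ : CoordRing x T₀ R₀) (hwE i)
    | zero => rw [map_zero]; exact Submodule.zero_mem _
    | add u v _ _ hu hv => rw [map_add]; exact Submodule.add_mem _ hu hv
    | smul c u hu' hu =>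
      have h1 : nabla (c • u) = (dA δ₀ hx₀ T₀ c) • u + c • nabla u := hnabla c u
      rw [h1]
      exact Submodule.add_mem _ (Submodule.smul_mem _ _ hu') (Submodule.smul_mem _ _ hu)
  have hbE₀ : ∀ l, b l ∈ E₀ := by
    intro l
    have h1 := hz (Sum.inr l)
    simp only [Sum.elim_inr] at h1
    rw [h1]
    exact Submodule.sum_mem _ fun i _ =>
      Submodule.smul_mem _ (⟨z (Sum.inr l) i, hzA _ _⟩ : CoordRing x T₀ R₀) (hwE i)
  have hiterE : ∀ n u, u ∈ E₀ → nabla^[n] u ∈ E₀ := fun n u hu =>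
    iterate_mem (P := fun u => u ∈ E₀) hE₀st n hu
  refine ⟨T₀, hT₀, E₀, Submodule.fg_span (Set.finite_range w), hE₀st, ?_, ?_⟩
  · refine hEb.trans ?_
    refine Submodule.span_le.mpr ?_
    rintro _ ⟨l, rfl⟩
    exact Submodule.subset_span (hbE₀ l)
  -- the curvature
  set s : ℕ := ∑ i, ni i with hs
  have hni : ∀ i, ni i ≤ s := fun i => Finset.single_le_sum (f := ni) (fun _ _ => Nat.zero_le _)
    (Finset.mem_univ i)
  obtain ⟨H, hHdef⟩ : ∃ H : Fin N → Fin m → R'[X],
      ∀ j i, H j i = T' ^ (s - ni i) * QQ T' M (ni i) j (li i) := ⟨_, fun _ _ => rfl⟩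
  have hHw : ∀ i, (aeval x T : F) ^ (k * s) • w i = ∑ j, eval₂ lam x (H j i) • b j := by
    intro i
    have h1 : k * s = k * (s - ni i) + k * ni i := by
      rw [← mul_add, Nat.sub_add_cancel (hni i)]
    rw [h1, pow_add, mul_smul, hw i, hit (ni i) (li i), Finset.smul_sum]
    refine Finset.sum_congr rfl fun j _ => ?_
    rw [hHdef, eval₂_mul, hevT', smul_smul]
  have hsum : ∀ f : Fin m → R₀[X],
      ∑ j, eval₂ lam x (∑ i, (f i).map (algebraMap R₀ R') * H j i) • b j =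
        (aeval x T : F) ^ (k * s) • ∑ i, (aeval x (f i) : F) • w i := by
    intro f
    rw [Finset.smul_sum]
    have h1 : ∀ i, (aeval x T : F) ^ (k * s) • (aeval x (f i) : F) • w i =
        ∑ j, eval₂ lam x ((f i).map (algebraMap R₀ R') * H j i) • b j := by
      intro i
      rw [smul_comm, hHw i, Finset.smul_sum]
      refine Finset.sum_congr rfl fun j _ => ?_
      rw [eval₂_mul, hev0, smul_smul]
    simp only [h1]
    rw [Finset.sum_comm]
    refine Finset.sum_congr rfl fun j _ => ?_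
    rw [← Finset.sum_smul]
    congr 1
    exact map_sum (eval₂RingHom lam x) _ _
  have hH : ∀ f : Fin m → R₀[X], (∀ j, ∑ i, (f i).map (algebraMap R₀ R') * H j i = 0) →
      f = 0 := by
    intro f hf
    have h1 := hsum f
    simp only [hf, eval₂_zero, zero_smul, Finset.sum_const_zero] at h1
    have h2 := (smul_eq_zero.mp h1.symm).resolve_left (pow_ne_zero _ hTx)
    have h3 := (Fintype.linearIndependent_iff.mp hwli) (fun i => ⟨aeval x (f i), hpL _⟩) h2
    funext i
    by_contra hfi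
    exact hq0 (f i) hfi (congrArg Subtype.val (h3 i))
  obtain ⟨h, hh, hmod⟩ := indep_mod_poly hinj' H hH hg'
  refine ⟨h, hh, fun 𝔪₀ h𝔪₀ hhm p hp hp𝔪 => ?_⟩
  -- the generators
  have claim1 : ∀ l, nabla^[p * n₁] (b l) ∈
      𝔪₀.map (algebraMap R₀ (CoordRing x T₀ R₀)) • E₀ := by
    intro l
    obtain ⟨a', f, -, h1⟩ := rep_of_mem hT₀x hE₀def (hiterE (p * n₁) _ (hbE₀ l))
    have hrel : ∀ j, T' ^ (p * n₁) * ∑ i, (f i).map (algebraMap R₀ R') * H j i =
        T' ^ s * (T₀.map (algebraMap R₀ R')) ^ a' * QQ T' M (p * n₁) j l := by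
      intro j
      have h2 := hind (fun j => T' ^ (p * n₁) * ∑ i, (f i).map (algebraMap R₀ R') * H j i -
        T' ^ s * (T₀.map (algebraMap R₀ R')) ^ a' * QQ T' M (p * n₁) j l) ?_
      · exact sub_eq_zero.mp (congrFun h2 j)
      · simp only [eval₂_sub, sub_smul, Finset.sum_sub_distrib, eval₂_mul, mul_smul, hevT',
          eval₂_pow, hev0]
        rw [← Finset.smul_sum, hsum f, ← h1, ← Finset.smul_sum, ← Finset.smul_sum,
          ← hit (p * n₁) l]
        simp only [smul_smul]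
        rw [sub_eq_zero]
        congr 1
        ring
    have hcf : ∀ i t, (f i).coeff t ∈ 𝔪₀ := by
      refine hmod 𝔪₀ h𝔪₀ hhm f fun 𝔪' h𝔪' hx' hgm j t => ?_
      have hp' : (p : R') ∈ 𝔪' := by
        have h2 := hx' _ hp𝔪
        rwa [map_natCast] at h2
      have h2 := congrArg (Polynomial.map (Ideal.Quotient.mk 𝔪')) (hrel j)
      have h3 : (QQ T' M (p * n₁) j l).map (Ideal.Quotient.mk 𝔪') = 0 := by
        ext i
        rw [coeff_map, coeff_zero]
        exact Ideal.Quotient.eq_zero_iff_mem.mpr (hstar 𝔪' h𝔪' hgm p hp hp' j l i)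
      rw [Polynomial.map_mul, Polynomial.map_mul, h3, mul_zero, Polynomial.map_pow] at h2
      let _ : Field (R' ⧸ 𝔪') := Ideal.Quotient.field 𝔪'
      have h4 := (mul_eq_zero.mp h2).resolve_left (pow_ne_zero _ (hTθ 𝔪' h𝔪' hgm))
      have h5 := congrArg (fun q => q.coeff t) h4
      simp only [coeff_map, coeff_zero] at h5
      exact Ideal.Quotient.eq_zero_iff_mem.mp h5
    have h2 : nabla^[p * n₁] (b l) = ∑ i,
        ((⟨(aeval x T₀ : F)⁻¹, inv_mem_coord x T₀⟩ : CoordRing x T₀ R₀) ^ a' *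
          (⟨aeval x (f i), aeval_mem x T₀ (f i)⟩ : CoordRing x T₀ R₀)) • w i := by
      have h3 : nabla^[p * n₁] (b l) = ((aeval x T₀ : F)⁻¹ ^ a') •
          ∑ i, (aeval x (f i) : F) • w i := by
        rw [← h1, smul_smul, ← mul_pow, inv_mul_cancel₀ hT₀x, one_pow, one_smul]
      rw [h3, Finset.smul_sum]
      refine Finset.sum_congr rfl fun i _ => ?_
      rw [smul_smul]
      rfl
    rw [h2]
    refine Submodule.sum_mem _ fun i _ => Submodule.smul_mem_smul (Ideal.mul_mem_left _ _ ?_)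
      (hwE i)
    have h3 : (⟨aeval x (f i), aeval_mem x T₀ (f i)⟩ : CoordRing x T₀ R₀) =
        ∑ t ∈ Finset.range ((f i).natDegree + 1),
          (⟨aeval x (X ^ t : R₀[X]), aeval_mem x T₀ _⟩ : CoordRing x T₀ R₀) *
            algebraMap R₀ (CoordRing x T₀ R₀) ((f i).coeff t) := by
      apply Subtype.ext
      have h4 : ((∑ t ∈ Finset.range ((f i).natDegree + 1),
          (⟨aeval x (X ^ t : R₀[X]), aeval_mem x T₀ _⟩ : CoordRing x T₀ R₀) *
            algebraMap R₀ (CoordRing x T₀ R₀) ((f i).coeff t) : CoordRing x T₀ R₀) : F) =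
          ∑ t ∈ Finset.range ((f i).natDegree + 1),
            (aeval x (X ^ t : R₀[X]) : F) * algebraMap R₀ F ((f i).coeff t) :=
        map_sum (CoordRing x T₀ R₀).val _ _
      rw [h4]
      change (aeval x (f i) : F) = _
      rw [aeval_eq_sum_range]
      refine Finset.sum_congr rfl fun t _ => ?_
      rw [map_pow, aeval_X, Algebra.smul_def, mul_comm]
    rw [h3]
    exact Ideal.sum_mem _ fun t _ => Ideal.mul_mem_left _ _ (Ideal.mem_map_of_mem _ (hcf i t))
  have claim2 : ∀ i, nabla^[p * n₁] (w i) ∈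
      𝔪₀.map (algebraMap R₀ (CoordRing x T₀ R₀)) • E₀ := by
    intro i
    rw [hw i, ← Function.iterate_add_apply, add_comm, Function.iterate_add_apply]
    exact iterate_mem (P := fun u => u ∈ 𝔪₀.map (algebraMap R₀ (CoordRing x T₀ R₀)) • E₀)
      (fun u hu => nabla_mem δ₀ nabla hx₀ hnabla hE₀st 𝔪₀ hu) _ (claim1 (li i))
  intro e he
  rw [hE₀def] at he
  obtain ⟨cc, rfl⟩ := (Submodule.mem_span_range_iff_exists_fun _).mp he
  have hadd : ∀ (t : Finset (Fin m)), nabla^[p * n₁] (∑ i ∈ t, cc i • w i) ∈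
      𝔪₀.map (algebraMap R₀ (CoordRing x T₀ R₀)) • E₀ := by
    intro t
    induction t using Finset.induction_on with
    | empty => rw [Finset.sum_empty, iterate_map_zero]; exact Submodule.zero_mem _
    | insert i t hi ih =>
      rw [Finset.sum_insert hi, iterate_map_add]
      refine Submodule.add_mem _ ?_ ih
      have h1 := psi_linear δ₀ nabla hx₀ hT₀x hnabla hE₀st hp hp𝔪 n₁ (cc i) (hwE i)
      have h2 := Submodule.add_mem _ h1 (Submodule.smul_mem _ (cc i) (claim2 i))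
      rwa [sub_add_cancel] at h2
  exact hadd Finset.univ

end Pool.Agent.W77.IM
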