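import Mathlib
import Pool.Agent.W77.IM.CurvA

set_option autoImplicit false

open Polynomial Module
open Pool.Agent.W432.PC Pool.Agent.W432.FD

namespace Pool.Agent.W77.IM

lemma mem_range_finset {V : Type*} [AddCommGroup V] {B : Type*} [CommRing B] [Module B V]
    {ι : Type*} (vv : ι → V) (h : (Submodule.span B (Set.range vv)).FG) :
    ∃ (q : ℕ) (a : Fin q → ι), Submodule.span B (Set.range fun ν => vv (a ν)) =
      Submodule.span B (Set.range vv) := by
  classical
  obtain ⟨s', hs', hspan⟩ := (Submodule.fg_span_iff_fg_span_finset_subset _).mp h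
  have h1 : ∀ y : s', ∃ i, vv i = y := fun y => hs' y.2
  choose a ha using h1
  refine ⟨s'.card, fun ν => a (s'.equivFin.symm ν), ?_⟩
  rw [hspan]
  congr 1
  ext u
  constructor
  · rintro ⟨ν, rfl⟩
    change vv (a (s'.equivFin.symm ν)) ∈ (s' : Set V)
    rw [ha]
    exact (s'.equivFin.symm ν).2
  · intro hu
    refine ⟨s'.equivFin ⟨u, hu⟩, ?_⟩
    change vv (a (s'.equivFin.symm (s'.equivFin ⟨u, hu⟩))) = u
    rw [Equiv.symm_apply_apply, ha]

section

variable {R₀ k F : Type*} [CommRing R₀] [Field k] [Field F] [Algebra R₀ F] [Algebra k F]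

lemma aeval_mem' (x : F) (T : R₀[X]) (f : k[X]) : (aeval x f : F) ∈ CoordRing x T k := by
  have h1 : (aeval x f : F) ∈ Algebra.adjoin k ({x} : Set F) := by
    rw [Algebra.adjoin_singleton_eq_range_aeval]
    exact ⟨f, rfl⟩
  exact Algebra.adjoin_mono (Set.singleton_subset_iff.mpr (Set.mem_insert _ _)) h1

lemma inv_mem_coord' (x : F) (T : R₀[X]) : (aeval x T : F)⁻¹ ∈ CoordRing x T k :=
  Algebra.subset_adjoin (Set.mem_insert_of_mem _ rfl)

lemma noeth_coord (x : F) (T : R₀[X]) : IsNoetherianRing (CoordRing x T k) := by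
  have h : (CoordRing x T k).FG := Subalgebra.fg_def.mpr ⟨_, Set.toFinite _, rfl⟩
  exact isNoetherianRing_of_fg h

variable [Algebra R₀ k] [IsScalarTower R₀ k F]

lemma der_mem' (δ : Derivation k F F) {x : F} (hx : δ x = 1) (T : R₀[X]) {c : F}
    (hc : c ∈ CoordRing x T k) : δ c ∈ CoordRing x T k := by
  have h3 : (aeval x T : F) = aeval x (T.map (algebraMap R₀ k)) := aeval_T x T
  change c ∈ Algebra.adjoin k {x, (aeval x T : F)⁻¹} at hc
  change δ c ∈ Algebra.adjoin k {x, (aeval x T : F)⁻¹}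
  rw [h3] at hc ⊢
  exact der_mem δ hx _ hc

variable {V : Type*} [AddCommGroup V] [Module F V] {nabla : V →+ V}

lemma stable_span (δ : Derivation k F F) {x : F} (hx : δ x = 1) (T : R₀[X])
    (hnabla : ∀ (f : F) (v : V), nabla (f • v) = δ f • v + f • nabla v) {s : Set V}
    (hs : ∀ v ∈ s, nabla v ∈ Submodule.span (CoordRing x T k) s) :
    ∀ v ∈ Submodule.span (CoordRing x T k) s, nabla v ∈ Submodule.span (CoordRing x T k) s := by
  intro v hv
  induction hv using Submodule.span_induction with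
  | mem v hv => exact hs v hv
  | zero => rw [map_zero]; exact Submodule.zero_mem _
  | add u v _ _ hu hv => rw [map_add]; exact Submodule.add_mem _ hu hv
  | smul c u hu' hu =>
    have h1 : nabla (c • u) = (⟨δ c, der_mem' δ hx T c.2⟩ : CoordRing x T k) • u +
        c • nabla u := hnabla c u
    rw [h1]
    exact Submodule.add_mem _ (Submodule.smul_mem _ _ hu') (Submodule.smul_mem _ _ hu)

/-- A lattice generated by iterates. -/
lemma lattice_core [IsDomain R₀] [CharZero k] [IsFractionRing R₀ k]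
    (δ : Derivation k F F) {x : F} (hx : δ x = 1) {T : R₀[X]} (hT : (aeval x T : F) ≠ 0)
    (hnabla : ∀ (f : F) (v : V), nabla (f • v) = δ f • v + f • nabla v) {N : ℕ}
    (b : Fin N → V) {s₀ : Set V} (hs₀ : s₀.Finite)
    (hu : ∀ n l, nabla^[n] (b l) ∈ Submodule.span (CoordRing x T k) s₀) :
    ∃ (m q : ℕ) (w : Fin m → V) (a : Fin q → ℕ × Fin N) (h : R₀) (_ : h ≠ 0)
      (gτ : Fin q → Fin m → R₀[X]) (gx : Fin m ⊕ Fin N → Fin m → R₀[X])
      (ex : Fin m ⊕ Fin N → ℕ),
      (∀ i, algebraMap R₀ F h • w i =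
        ∑ ν, (aeval x (gτ ν i) : F) • nabla^[(a ν).1] (b (a ν).2)) ∧
      (∀ θ, (algebraMap R₀ F h * (aeval x T : F) ^ ex θ) •
        Sum.elim (fun j => nabla (w j)) b θ = ∑ i, (aeval x (gx θ i) : F) • w i) ∧
      ∀ f : Fin m → R₀[X], ∑ i, (aeval x (f i) : F) • w i = 0 → f = 0 := by
  classical
  have hB : IsNoetherianRing (CoordRing x T k) := noeth_coord x T
  let vv : ℕ × Fin N → V := fun nl => nabla^[nl.1] (b nl.2)
  have hYfg : (Submodule.span (CoordRing x T k) (Set.range vv)).FG := by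
    have h1 : (Submodule.span (CoordRing x T k) s₀).FG := Submodule.fg_span hs₀
    have h2 : IsNoetherian (CoordRing x T k) (Submodule.span (CoordRing x T k) s₀) :=
      isNoetherian_of_fg_of_noetherian _ h1
    have h3 : Submodule.span (CoordRing x T k) (Set.range vv) ≤
        Submodule.span (CoordRing x T k) s₀ :=
      Submodule.span_le.mpr (by rintro _ ⟨i, rfl⟩; exact hu i.1 i.2)
    exact (isNoetherian_submodule.mp h2) _ h3
  obtain ⟨q, a, hYs⟩ := mem_range_finset vv hYfg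
  obtain ⟨Y, hY⟩ : ∃ Y, Y = Submodule.span (CoordRing x T k) (Set.range vv) := ⟨_, rfl⟩
  let sv : Fin q → V := fun ν => vv (a ν)
  have hYs' : Y = Submodule.span (CoordRing x T k) (Set.range sv) := hY.trans hYs.symm
  have hek : Function.Injective (eval₂RingHom (algebraMap k F) x) :=
    eval_injective (δ.restrictScalars ℤ) (algebraMap k F) x (fun a => δ.map_algebraMap a) hx
  have haek : ∀ f : k[X], (aeval x f : F) = eval₂RingHom (algebraMap k F) x f := fun _ => rfl
  obtain ⟨m, w, σ, τ, hσ, hτ, hindw⟩ := exists_lattice (eval₂RingHom (algebraMap k F) x) hek sv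
  have hYst : ∀ u ∈ Y, nabla u ∈ Y := by
    rw [hY]
    refine stable_span δ hx T hnabla ?_
    rintro _ ⟨nl, rfl⟩
    have h1 : nabla (vv nl) = vv (nl.1 + 1, nl.2) := by
      change nabla (nabla^[nl.1] (b nl.2)) = nabla^[nl.1 + 1] (b nl.2)
      rw [Function.iterate_succ_apply']
    rw [h1]
    exact Submodule.subset_span ⟨_, rfl⟩
  have hsvY : ∀ ν, sv ν ∈ Y := fun ν => by
    rw [hYs']
    exact Submodule.subset_span ⟨ν, rfl⟩
  have hwY : ∀ j, w j ∈ Y := by
    intro j
    rw [hτ j]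
    refine Submodule.sum_mem _ fun ν _ => ?_
    exact Submodule.smul_mem _ (⟨_, aeval_mem' x T (τ ν j)⟩ : CoordRing x T k) (hsvY ν)
  have hYrep : ∀ u ∈ Y, ∃ (e : ℕ) (f : Fin m → k[X]),
      (aeval x T : F) ^ e • u = ∑ i, (aeval x (f i) : F) • w i := by
    intro u hu
    obtain ⟨e, f, -, h1⟩ := rep_of_mem (R := k) hT hYs' hu
    refine ⟨e, fun i => ∑ ν, f ν * σ i ν, ?_⟩
    rw [h1]
    simp only [map_sum, map_mul, Finset.sum_smul, mul_smul]
    rw [Finset.sum_comm]
    refine Finset.sum_congr rfl fun ν _ => ?_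
    rw [← Finset.smul_sum]
    congr 1
    exact hσ ν
  have hXex : ∀ θ : Fin m ⊕ Fin N, ∃ (e : ℕ) (f : Fin m → k[X]),
      (aeval x T : F) ^ e • (Sum.elim (fun j => nabla (w j)) b θ) =
        ∑ i, (aeval x (f i) : F) • w i := by
    rintro (j | l)
    · exact hYrep _ (hYst _ (hwY j))
    · refine hYrep _ ?_
      rw [hY]
      exact Submodule.subset_span ⟨(0, l), rfl⟩
  choose ex fx hfx using hXex
  obtain ⟨h, hh, gx, hgx⟩ := clear_poly (R := R₀) (K := k)
    (Sum.elim (fun θi : (Fin m ⊕ Fin N) × Fin m => fx θi.1 θi.2)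
      (fun νj : Fin q × Fin m => τ νj.1 νj.2))
  have hgx' : ∀ ξ, (aeval x (gx ξ) : F) = algebraMap R₀ F h *
      aeval x (Sum.elim (fun θi : (Fin m ⊕ Fin N) × Fin m => fx θi.1 θi.2)
      (fun νj : Fin q × Fin m => τ νj.1 νj.2) ξ) := by
    intro ξ
    rw [aeval_T (R := k) x (gx ξ), ← hgx ξ, map_mul, aeval_C,
      ← IsScalarTower.algebraMap_apply R₀ k F]
  refine ⟨m, q, w, a, h, hh, fun ν i => gx (Sum.inr (ν, i)), fun θ i => gx (Sum.inl (θ, i)), ex,
    ?_, ?_, ?_⟩
  · intro i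
    conv_lhs => rw [hτ i, Finset.smul_sum]
    refine Finset.sum_congr rfl fun ν _ => ?_
    rw [smul_smul, hgx' (Sum.inr (ν, i))]
    rfl
  · intro θ
    rw [mul_smul, hfx θ, Finset.smul_sum]
    refine Finset.sum_congr rfl fun i _ => ?_
    rw [smul_smul, hgx' (Sum.inl (θ, i))]
    rfl
  · intro f hf
    have h3 := hindw (fun i => (f i).map (algebraMap R₀ k)) (by
      rw [← hf]
      refine Finset.sum_congr rfl fun i _ => ?_
      rw [← haek, ← aeval_T (R := k) x (f i)])
    funext i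
    exact Polynomial.map_injective _ (IsFractionRing.injective R₀ k)
      ((congrFun h3 i).trans (Polynomial.map_zero _).symm)

omit [Algebra R₀ k] [IsScalarTower R₀ k F] in
/-- A sufficient condition for membership in a lattice. -/
lemma mem_lattice {x : F} {T : R₀[X]} (hT : (aeval x T : F) ≠ 0) {N s' : ℕ} (b : Fin N → V)
    (κ : Fin s' → F) {v : V} {e : ℕ} {A : Type*} [CommRing A] (lam : A →+* F) (Q : Fin N → A[X])
    (hQ : ∀ j m, ∃ cc : Fin s' → k, lam ((Q j).coeff m) = ∑ i, algebraMap k F (cc i) * κ i)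
    (h : (aeval x T : F) ^ e • v = ∑ j, eval₂ lam x (Q j) • b j) :
    v ∈ Submodule.span (CoordRing x T k)
      (Set.range fun jl : Fin s' × Fin N => κ jl.1 • b jl.2) := by
  have h1 : v = (((aeval x T : F)⁻¹) ^ e) • ∑ j, eval₂ lam x (Q j) • b j := by
    rw [← h, smul_smul, ← mul_pow, inv_mul_cancel₀ hT, one_pow, one_smul]
  rw [h1]
  refine Submodule.smul_mem _ (⟨((aeval x T : F)⁻¹) ^ e, Subalgebra.pow_mem _
    (inv_mem_coord' x T) _⟩ : CoordRing x T k) (Submodule.sum_mem _ fun j _ => ?_)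
  rw [eval₂_eq_sum_range, Finset.sum_smul]
  refine Submodule.sum_mem _ fun m _ => ?_
  obtain ⟨cc, hcc⟩ := hQ j m
  rw [hcc, Finset.sum_mul, Finset.sum_smul]
  refine Submodule.sum_mem _ fun i _ => ?_
  have h3 : (algebraMap k F (cc i) * κ i * x ^ m) • b j =
      (aeval x (C (cc i) * X ^ m) : F) • (κ i • b j) := by
    rw [smul_smul, map_mul, aeval_C, map_pow, aeval_X]
    congr 1
    ring
  rw [h3]
  exact Submodule.smul_mem _ (⟨_, aeval_mem' x T (C (cc i) * X ^ m)⟩ : CoordRing x T k)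
    (Submodule.subset_span ⟨(i, j), rfl⟩)

end

/-- The lattice over `R₀`. -/
lemma lattice_core₀ {R₀ F A K' k₀ : Type*} [CommRing R₀] [IsDomain R₀] [CharZero R₀] [Field F]
    [Algebra R₀ F] (δ : Derivation R₀ F F) {x : F} (hx : δ x = 1) {T : R₀[X]}
    (hT : (aeval x T : F) ≠ 0) {V : Type*} [AddCommGroup V] [Module F V] {nabla : V →+ V}
    (hnabla : ∀ (f : F) (v : V), nabla (f • v) = δ f • v + f • nabla v)
    [CommRing A] [IsDomain A] [Algebra R₀ A] (lam : A →+* F) (hlam : Function.Injective lam)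
    (hlam0 : ∀ a : R₀, lam (algebraMap R₀ A a) = algebraMap R₀ F a)
    [Field K'] [Algebra A K'] [IsFractionRing A K'] [Field k₀] [Algebra R₀ k₀]
    [IsFractionRing R₀ k₀] (κ₀ : k₀ →+* K')
    (hκ₀ : ∀ a, κ₀ (algebraMap R₀ k₀ a) = algebraMap A K' (algebraMap R₀ A a))
    {N s' : ℕ} (b : Fin N → V) (wK : Fin s' → K') (e : ℕ → ℕ) (Q : ℕ → Fin N → Fin N → A[X])
    (hQ : ∀ n l j m, ∃ cc : Fin s' → k₀,
      algebraMap A K' ((Q n j l).coeff m) = ∑ i, κ₀ (cc i) * wK i)
    (hit : ∀ n l, (aeval x T : F) ^ (e n) • nabla^[n] (b l) =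
      ∑ j, eval₂ lam x (Q n j l) • b j) :
    ∃ (m q : ℕ) (w : Fin m → V) (a : Fin q → ℕ × Fin N) (h : R₀) (_ : h ≠ 0)
      (gτ : Fin q → Fin m → R₀[X]) (gx : Fin m ⊕ Fin N → Fin m → R₀[X])
      (ex : Fin m ⊕ Fin N → ℕ),
      (∀ i, algebraMap R₀ F h • w i =
        ∑ ν, (aeval x (gτ ν i) : F) • nabla^[(a ν).1] (b (a ν).2)) ∧
      (∀ θ, (algebraMap R₀ F h * (aeval x T : F) ^ ex θ) •
        Sum.elim (fun j => nabla (w j)) b θ = ∑ i, (aeval x (gx θ i) : F) • w i) ∧
      ∀ f : Fin m → R₀[X], ∑ i, (aeval x (f i) : F) • w i = 0 → f = 0 := by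
  classical
  have h₀k : Function.Injective (algebraMap R₀ k₀) := IsFractionRing.injective R₀ k₀
  have hch : CharZero k₀ := charZero_of_injective_algebraMap (R := R₀) h₀k
  let κF : K' →+* F := IsFractionRing.lift (A := A) (K := K') hlam
  have hκF : ∀ a, κF (algebraMap A K' a) = lam a := fun a => IsFractionRing.lift_algebraMap hlam a
  let jk : k₀ →+* F := κF.comp κ₀
  have hjk : ∀ a : R₀, jk (algebraMap R₀ k₀ a) = algebraMap R₀ F a := by
    intro a
    change κF (κ₀ (algebraMap R₀ k₀ a)) = _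
    rw [hκ₀, hκF, hlam0]
  let algkF : Algebra k₀ F := jk.toAlgebra
  have hsckF : IsScalarTower R₀ k₀ F := IsScalarTower.of_algebraMap_eq fun a => (hjk a).symm
  have hδk : ∀ a : k₀, δ (jk a) = 0 := by
    intro a
    obtain ⟨y, z, hz, hyz⟩ := IsFractionRing.div_surjective (A := R₀) a
    have hz0 : algebraMap R₀ k₀ z ≠ 0 := by
      rw [Ne, map_eq_zero_iff _ h₀k]
      exact nonZeroDivisors.ne_zero hz
    have h1 : a * algebraMap R₀ k₀ z = algebraMap R₀ k₀ y := by rw [← hyz, div_mul_cancel₀ _ hz0]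
    have h2 := congrArg (fun z => δ (jk z)) h1
    simp only [map_mul, Derivation.leibniz, hjk, δ.map_algebraMap, smul_eq_mul, mul_zero,
      zero_add] at h2
    have h3 : algebraMap R₀ F z ≠ 0 := by
      rw [← hjk, Ne, map_eq_zero]; exact hz0
    exact (mul_eq_zero.mp h2).resolve_left h3
  let δk : Derivation k₀ F F :=
    { toFun := δ
      map_add' := map_add δ
      map_smul' := by
        intro a f
        have h1 : a • f = jk a * f := rfl
        have h2 : (RingHom.id k₀ a) • δ f = jk a * δ f := rfl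
        rw [h1, Derivation.leibniz, hδk, smul_zero, add_zero, smul_eq_mul, h2]
      map_one_eq_zero' := δ.map_one_eq_zero
      leibniz' := δ.leibniz }
  refine lattice_core (k := k₀) δk hx hT hnabla b
    (s₀ := Set.range fun jl : Fin s' × Fin N => κF (wK jl.1) • b jl.2) (Set.finite_range _) ?_
  intro n l
  refine mem_lattice (k := k₀) hT b (fun i => κF (wK i)) lam (fun j => Q n j l) ?_ (hit n l)
  intro j m
  obtain ⟨cc, hcc⟩ := hQ n l j m
  refine ⟨cc, ?_⟩
  rw [← hκF, hcc, map_sum]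
  exact Finset.sum_congr rfl fun i _ => map_mul _ _ _

end Pool.Agent.W77.IM
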