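import Mathlib
import Pool.Agent.W77.IM.BoundS
import Pool.Agent.W77.IM.LatS
import Pool.Agent.W77.IM.UnifP

set_option autoImplicit false

open Polynomial Module
open Pool.Agent.W432.PC Pool.Agent.W432.FD

namespace Pool.Agent.W77.IM

universe u v w

section defs

/-- A Zariski dense set of closed points of `Spec R₀`. -/
def DensePoints {R₀ : Type*} [CommRing R₀] (S : Set (Ideal R₀)) : Prop :=
  ∀ h : R₀, h ≠ 0 → ∃ 𝔪₀ ∈ S, 𝔪₀.IsMaximal ∧ h ∉ 𝔪₀

/-- Nilpotence of the `p`-curvatures of the lattice `E` at almost all closed points of `Spec R`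
which lie over a point of `S`: every element of `E` is mapped into `𝔪 E` by some power of `∇`. -/
def NilpotentOver {R₀ R F V : Type*} [CommRing R₀] [CommRing R] [Algebra R₀ R] [Field F]
    [Algebra R F] [AddCommGroup V] [Module F V] {A : Subalgebra R F} (S : Set (Ideal R₀))
    (nabla : V →+ V) (E : Submodule A V) : Prop :=
  ∃ g : R, g ≠ 0 ∧ ∀ 𝔪 : Ideal R, 𝔪.IsMaximal → 𝔪.comap (algebraMap R₀ R) ∈ S → g ∉ 𝔪 →
    ∀ e ∈ E, ∃ n : ℕ, nabla^[n] e ∈ 𝔪.map (algebraMap R A) • E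

/-- The `n`-th powers of the `p`-curvatures of the lattice `E` vanish at almost all closed points of
`Spec R` which lie over a point of `S`: `∇ ^ (p n)` maps `E` into `𝔪 E`, where `p` is the residue
characteristic. -/
def PCurvPowZeroOver {R₀ R F V : Type*} [CommRing R₀] [CommRing R] [Algebra R₀ R] [Field F]
    [Algebra R F] [AddCommGroup V] [Module F V] {A : Subalgebra R F} (S : Set (Ideal R₀)) (n : ℕ)
    (nabla : V →+ V) (E : Submodule A V) : Prop :=
  ∃ g : R, g ≠ 0 ∧ ∀ 𝔪 : Ideal R, 𝔪.IsMaximal → 𝔪.comap (algebraMap R₀ R) ∈ S → g ∉ 𝔪 →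
    ∀ p : ℕ, p.Prime → (p : R) ∈ 𝔪 → ∀ e ∈ E, nabla^[p * n] e ∈ 𝔪.map (algebraMap R A) • E

end defs

theorem descent_core {R₀ R : Type u} [CommRing R₀] [IsDomain R₀] [CharZero R₀]
    [Algebra.FiniteType ℤ R₀] [CommRing R] [IsDomain R] [Algebra R₀ R] [Algebra.FiniteType R₀ R]
    (hR₀ : Function.Injective (algebraMap R₀ R))
    {F : Type v} [Field F] [Algebra R F] [Algebra R₀ F] [IsScalarTower R₀ R F]
    (hRF : Function.Injective (algebraMap R F)) (δ : Derivation R F F) (x : F) (hx : δ x = 1)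
    (T : R₀[X]) (hT : T ≠ 0) {V : Type w} [AddCommGroup V] [Module F V]
    (nabla : V →+ V) (hnabla : ∀ (f : F) (v : V), nabla (f • v) = δ f • v + f • nabla v)
    (E : Submodule (CoordRing x T R) V) (hfg : E.FG) (hE : ∀ e ∈ E, nabla e ∈ E)
    {S : Set (Ideal R₀)} (hS : DensePoints S) (hnil : NilpotentOver S nabla E) :
    ∃ (h : R₀) (_ : h ≠ 0) (E₀ : Submodule (CoordRing x (C h * T) R₀) V), E₀.FG ∧
      (∀ e ∈ E₀, nabla e ∈ E₀) ∧ ((E : Set V) ⊆ Submodule.span F (E₀ : Set V)) ∧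
      ∀ n₁ : ℕ, PCurvPowZeroOver S n₁ nabla E → PCurvPowZeroOver S n₁ nabla E₀ := by
  classical
  have hjacZ : IsJacobsonRing ℤ := jac_int
  have hjac0 : IsJacobsonRing R₀ := isJacobsonRing_of_finiteType (A := ℤ)
  have hjac : IsJacobsonRing R := isJacobsonRing_of_finiteType (A := R₀)
  let δ₀ : Derivation R₀ F F := δ.restrictScalars R₀
  have hx₀ : δ₀ x = 1 := hx
  have h₀F : Function.Injective (algebraMap R₀ F) := by
    rw [IsScalarTower.algebraMap_eq R₀ R F]
    exact hRF.comp hR₀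
  have hq0 : ∀ q : R₀[X], q ≠ 0 → (aeval x q : F) ≠ 0 := fun q hq =>
    aeval_ne_zero h₀F (δ.restrictScalars ℤ) (fun a => δ₀.map_algebraMap a) x hx hq
  obtain ⟨c, hc, N, k, b, M, lam, hlamR, hlaminj, hbE, hEb, hind, hit, hRP⟩ :=
    exists_model hR₀ hRF (δ.restrictScalars ℤ) (fun a => δ.map_algebraMap a) x hx T hT nabla hnabla
      E hfg hE
  set R' := Localization.Away c with hR'
  have hle : Submonoid.powers c ≤ nonZeroDivisors R := by
    rw [Submonoid.powers_le]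
    exact mem_nonZeroDivisors_of_ne_zero hc
  have hdom : IsDomain R' := IsLocalization.isDomain_localization hle
  have hft : Algebra.FiniteType R₀ R' := inferInstance
  have hinjRR' : Function.Injective (algebraMap R R') := IsLocalization.injective R' hle
  have hinj' : Function.Injective (algebraMap R₀ R') := by
    rw [IsScalarTower.algebraMap_eq R₀ R R']
    exact hinjRR'.comp hR₀
  have hjac' : IsJacobsonRing R' := isJacobsonRing_of_finiteType (A := R₀)
  have hlam0 : ∀ a : R₀, lam (algebraMap R₀ R' a) = algebraMap R₀ F a := by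
    intro a
    rw [IsScalarTower.algebraMap_apply R₀ R R', hlamR, ← IsScalarTower.algebraMap_apply]
  have hev0 : ∀ f : R₀[X], eval₂ lam x (f.map (algebraMap R₀ R')) = aeval x f := by
    intro f
    rw [eval₂_map]
    have : lam.comp (algebraMap R₀ R') = algebraMap R₀ F := RingHom.ext hlam0
    rw [this]
    rfl
  set T' : R'[X] := (T ^ k).map (algebraMap R₀ R') with hT'
  have hevT' : ∀ s : ℕ, eval₂ lam x (T' ^ s) = (aeval x T : F) ^ (k * s) := by
    intro s
    rw [eval₂_pow, hT', hev0, map_pow, ← pow_mul]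
  have hlc : algebraMap R₀ R T.leadingCoeff ≠ 0 := by
    rw [Ne, map_eq_zero_iff _ hR₀]; exact leadingCoeff_ne_zero.mpr hT
  -- facts on the points of the localisation
  have hcomap : ∀ 𝔪' : Ideal R', (𝔪'.under R).comap (algebraMap R₀ R) =
      𝔪'.comap (algebraMap R₀ R') := by
    intro 𝔪'
    rw [Ideal.under_def, Ideal.comap_comap, ← IsScalarTower.algebraMap_eq]
  have hmax : ∀ 𝔪' : Ideal R', 𝔪'.IsMaximal → (𝔪'.under R).IsMaximal := fun 𝔪' h𝔪' =>
    ((IsLocalization.isMaximal_iff_isMaximal_disjoint R' c 𝔪').mp h𝔪').1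
  have hTθ : ∀ 𝔪' : Ideal R', 𝔪'.IsMaximal → algebraMap R₀ R' T.leadingCoeff ∉ 𝔪' →
      T'.map (Ideal.Quotient.mk 𝔪') ≠ 0 := by
    intro 𝔪' h𝔪' hgm
    let _ : Field (R' ⧸ 𝔪') := Ideal.Quotient.field 𝔪'
    rw [hT', Polynomial.map_map, Polynomial.map_pow]
    refine pow_ne_zero _ fun h0 => ?_
    have h1 := congrArg (fun q => q.coeff T.natDegree) h0
    simp only [coeff_map, coeff_zero, coeff_natDegree] at h1
    exact hgm (Ideal.Quotient.eq_zero_iff_mem.mp h1)
  -- nilpotence in coordinates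
  have hGN : ∃ g : R', g ≠ 0 ∧ ∀ (𝔪 : Ideal R') [𝔪.IsMaximal],
      𝔪.comap (algebraMap R₀ R') ∈ S → g ∉ 𝔪 → PNilpAt T' M 𝔪 := by
    obtain ⟨g, hg, hnil⟩ := hnil
    refine ⟨algebraMap R R' (g * algebraMap R₀ R T.leadingCoeff), ?_, ?_⟩
    · rw [Ne, map_eq_zero_iff _ hinjRR']
      exact mul_ne_zero hg hlc
    intro 𝔪' h𝔪' hS' hgm
    have hg1 : g ∉ 𝔪'.under R := by
      intro h
      apply hgm
      rw [map_mul]
      exact 𝔪'.mul_mem_right _ h
    have hg2 : algebraMap R₀ R' T.leadingCoeff ∉ 𝔪' := by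
      intro h
      apply hgm
      rw [map_mul, ← IsScalarTower.algebraMap_apply R₀ R R']
      exact 𝔪'.mul_mem_left _ h
    unfold PNilpAt
    let _ : Field (R' ⧸ 𝔪') := Ideal.Quotient.field 𝔪'
    have hft' : Algebra.FiniteType ℤ R' := Algebra.FiniteType.trans (S := R₀) inferInstance hft
    obtain ⟨p, hp, hcharp⟩ := exists_char (Ideal.Quotient.mk 𝔪') Ideal.Quotient.mk_surjective
    refine pnilp_of hp _ _ fun l => ?_
    obtain ⟨n, hn⟩ := hnil _ (hmax 𝔪' h𝔪') (by rw [hcomap]; exact hS') hg1 (b l) (hbE l)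
    refine ⟨n, ?_⟩
    funext j
    have hT0 := hTθ 𝔪' h𝔪' hg2
    have h4 := conn_iterate hT0 (M := M.map (mapRingHom (Ideal.Quotient.mk 𝔪'))) l n j
    have h5 : QQ (T'.map (Ideal.Quotient.mk 𝔪')) (M.map (mapRingHom (Ideal.Quotient.mk 𝔪')))
        n j l = 0 := by
      rw [← QQ_map, Matrix.map_apply, coe_mapRingHom]
      ext i
      rw [coeff_map, coeff_zero]
      exact Ideal.Quotient.eq_zero_iff_mem.mpr (hRP 𝔪' h𝔪' hg2 n l hn j i)
    rw [h5, map_zero, mul_eq_zero] at h4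
    refine h4.resolve_left (pow_ne_zero _ ?_)
    rw [Ne, map_eq_zero_iff _ (IsFractionRing.injective _ _)]
    exact hT0
  -- finiteness
  let K' := FractionRing R'
  let k₀ := FractionRing R₀
  have hRK' : Function.Injective (algebraMap R' K') := IsFractionRing.injective R' K'
  have h₀k : Function.Injective (algebraMap R₀ k₀) := IsFractionRing.injective R₀ k₀
  have hinjk : Function.Injective ((algebraMap R' K').comp (algebraMap R₀ R')) := hRK'.comp hinj'
  let κ₀ : k₀ →+* K' := IsFractionRing.lift (A := R₀) (K := k₀) hinjk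
  have hκ₀ : ∀ a, κ₀ (algebraMap R₀ k₀ a) = algebraMap R' K' (algebraMap R₀ R' a) := fun a =>
    IsFractionRing.lift_algebraMap hinjk a
  obtain ⟨s', wK, hwK⟩ := bounded_spanS (R₀ := R₀) (R := R') hinj' K' κ₀ hκ₀
    (pow_ne_zero k hT) hS hGN
  have hTx : (aeval x T : F) ≠ 0 := hq0 T hT
  obtain ⟨m, q, w, a, h, hh, gτ, gx, ex, hwτ, hgx, hindw⟩ := lattice_core₀ (K' := K') (k₀ := k₀)
    δ₀ hx₀ hTx hnabla lam hlaminj hlam0 κ₀ hκ₀ b wK (fun n => k * n) (QQ T' M)
    (fun n l j m => hwK n l j m) hit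
  have hhF : algebraMap R₀ F h ≠ 0 := by rw [Ne, map_eq_zero_iff _ h₀F]; exact hh
  let T₀ : R₀[X] := C h * T
  have hT₀ : T₀ ≠ 0 := mul_ne_zero (by rwa [Ne, C_eq_zero]) hT
  have hT₀x : (aeval x T₀ : F) ≠ 0 := hq0 T₀ hT₀
  have hT₀x' : (aeval x T₀ : F) = algebraMap R₀ F h * aeval x T := by
    rw [map_mul, aeval_C]
  have hhinv : (algebraMap R₀ F h)⁻¹ ∈ CoordRing x T₀ R₀ := by
    have h1 : (algebraMap R₀ F h)⁻¹ = aeval x T * (aeval x T₀ : F)⁻¹ := by
      rw [hT₀x']; field_simp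
    rw [h1]
    exact Subalgebra.mul_mem _ (aeval_mem x T₀ _) (inv_mem_coord x T₀)
  have hTinv : (aeval x T : F)⁻¹ ∈ CoordRing x T₀ R₀ := by
    have h1 : (aeval x T : F)⁻¹ = algebraMap R₀ F h * (aeval x T₀ : F)⁻¹ := by
      rw [hT₀x']; field_simp
    rw [h1]
    exact Subalgebra.mul_mem _ (Subalgebra.algebraMap_mem _ _) (inv_mem_coord x T₀)
  let E₀ : Submodule (CoordRing x T₀ R₀) V := Submodule.span _ (Set.range w)
  have hE₀def : E₀ = Submodule.span (CoordRing x T₀ R₀) (Set.range w) := rfl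
  have hwE : ∀ i, w i ∈ E₀ := fun i => Submodule.subset_span ⟨i, rfl⟩
  have hXE : ∀ θ : Fin m ⊕ Fin N, Sum.elim (fun j => nabla (w j)) b θ ∈ E₀ := by
    intro θ
    have h1 : Sum.elim (fun j => nabla (w j)) b θ =
        (((aeval x T : F)⁻¹) ^ ex θ * (algebraMap R₀ F h)⁻¹) •
          ∑ i, (aeval x (gx θ i) : F) • w i := by
      rw [← hgx θ, smul_smul]
      have h2 : ((aeval x T : F)⁻¹) ^ ex θ * (algebraMap R₀ F h)⁻¹ *
          (algebraMap R₀ F h * (aeval x T : F) ^ ex θ) = 1 := by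
        rw [inv_pow]
        field_simp
      rw [h2, one_smul]
    rw [h1]
    refine Submodule.smul_mem _ (⟨_, Subalgebra.mul_mem _ (Subalgebra.pow_mem _ hTinv _) hhinv⟩ :
      CoordRing x T₀ R₀) (Submodule.sum_mem _ fun i _ => ?_)
    exact Submodule.smul_mem _ (⟨_, aeval_mem x T₀ _⟩ : CoordRing x T₀ R₀) (hwE i)
  have hE₀st : ∀ e ∈ E₀, nabla e ∈ E₀ := by
    intro e he
    induction he using Submodule.span_induction with
    | mem e he =>
      obtain ⟨j, rfl⟩ := he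
      exact hXE (Sum.inl j)
    | zero => rw [map_zero]; exact Submodule.zero_mem _
    | add u v _ _ hu hv => rw [map_add]; exact Submodule.add_mem _ hu hv
    | smul c u hu' hu =>
      have h1 : nabla (c • u) = (dA δ₀ hx₀ T₀ c) • u + c • nabla u := hnabla c u
      rw [h1]
      exact Submodule.add_mem _ (Submodule.smul_mem _ _ hu') (Submodule.smul_mem _ _ hu)
  have hbE₀ : ∀ l, b l ∈ E₀ := fun l => hXE (Sum.inr l)
  have hiterE : ∀ n u, u ∈ E₀ → nabla^[n] u ∈ E₀ := fun n u hu =>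
    iterate_mem (P := fun u => u ∈ E₀) hE₀st n hu
  let ni : Fin q → ℕ := fun ν => (a ν).1
  let li : Fin q → Fin N := fun ν => (a ν).2
  let sv : Fin q → V := fun ν => nabla^[(a ν).1] (b (a ν).2)
  have hsv : ∀ ν, sv ν = nabla^[ni ν] (b (li ν)) := fun ν => rfl
  refine ⟨h, hh, E₀, Submodule.fg_span (Set.finite_range w), hE₀st, ?_, ?_⟩
  · refine hEb.trans ?_
    refine Submodule.span_le.mpr ?_
    rintro _ ⟨l, rfl⟩
    exact Submodule.subset_span (hbE₀ l)
  -- the curvature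
  rintro n₁ ⟨g, hg, hpc⟩
  set g' : R' := algebraMap R R' (g * algebraMap R₀ R T.leadingCoeff) with hg'def
  have hg' : g' ≠ 0 := by
    rw [hg'def, Ne, map_eq_zero_iff _ hinjRR']
    exact mul_ne_zero hg hlc
  have hg'1 : ∀ 𝔪' : Ideal R', g' ∉ 𝔪' → g ∉ 𝔪'.under R := by
    intro 𝔪' hg'm h
    apply hg'm
    rw [hg'def, map_mul]
    exact 𝔪'.mul_mem_right _ h
  have hg'2 : ∀ 𝔪' : Ideal R', g' ∉ 𝔪' → algebraMap R₀ R' T.leadingCoeff ∉ 𝔪' := by
    intro 𝔪' hg'm h
    apply hg'm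
    rw [hg'def, map_mul, ← IsScalarTower.algebraMap_apply R₀ R R']
    exact 𝔪'.mul_mem_left _ h
  have hstar : ∀ 𝔪' : Ideal R', 𝔪'.IsMaximal → 𝔪'.comap (algebraMap R₀ R') ∈ S → g' ∉ 𝔪' →
      ∀ p : ℕ, p.Prime → (p : R') ∈ 𝔪' →
      ∀ j l i, (QQ T' M (p * n₁) j l).coeff i ∈ 𝔪' := by
    intro 𝔪' h𝔪' hS' hgm p hp hpm j l i
    refine hRP 𝔪' h𝔪' (hg'2 𝔪' hgm) (p * n₁) l (hpc _ (hmax 𝔪' h𝔪') (by rw [hcomap]; exact hS')
      (hg'1 𝔪' hgm) p hp ?_ (b l) (hbE l)) j i
    change algebraMap R R' (p : R) ∈ 𝔪'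
    rwa [map_natCast]
  set s : ℕ := ∑ i, ni i with hs
  have hni : ∀ i, ni i ≤ s := fun i => Finset.single_le_sum (f := ni) (fun _ _ => Nat.zero_le _)
    (Finset.mem_univ i)
  obtain ⟨H, hHdef⟩ : ∃ H : Fin N → Fin m → R'[X],
      ∀ j i, H j i = ∑ ν, (gτ ν i).map (algebraMap R₀ R') *
        (T' ^ (s - ni ν) * QQ T' M (ni ν) j (li ν)) := ⟨_, fun _ _ => rfl⟩
  have hHs : ∀ ν, (aeval x T : F) ^ (k * s) • sv ν =
      ∑ j, eval₂ lam x (T' ^ (s - ni ν) * QQ T' M (ni ν) j (li ν)) • b j := by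
    intro ν
    have h1 : k * s = k * (s - ni ν) + k * ni ν := by
      rw [← mul_add, Nat.sub_add_cancel (hni ν)]
    rw [h1, pow_add, mul_smul, hsv ν, hit (ni ν) (li ν), Finset.smul_sum]
    refine Finset.sum_congr rfl fun j _ => ?_
    rw [eval₂_mul, hevT', smul_smul]
  have hHw : ∀ i, (algebraMap R₀ F h * (aeval x T : F) ^ (k * s)) • w i =
      ∑ j, eval₂ lam x (H j i) • b j := by
    intro i
    rw [mul_comm, mul_smul, hwτ i, Finset.smul_sum]
    have h1 : ∀ ν, (aeval x T : F) ^ (k * s) • (aeval x (gτ ν i) : F) • sv ν =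
        ∑ j, eval₂ lam x ((gτ ν i).map (algebraMap R₀ R') *
          (T' ^ (s - ni ν) * QQ T' M (ni ν) j (li ν))) • b j := by
      intro ν
      rw [smul_comm, hHs ν, Finset.smul_sum]
      refine Finset.sum_congr rfl fun j _ => ?_
      have h2 : eval₂ lam x ((gτ ν i).map (algebraMap R₀ R') *
          (T' ^ (s - ni ν) * QQ T' M (ni ν) j (li ν))) = aeval x (gτ ν i) *
          eval₂ lam x (T' ^ (s - ni ν) * QQ T' M (ni ν) j (li ν)) := by
        rw [eval₂_mul, hev0]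
      rw [h2, smul_smul]
    refine (Finset.sum_congr rfl fun ν _ => h1 ν).trans ?_
    rw [Finset.sum_comm]
    refine Finset.sum_congr rfl fun j _ => ?_
    rw [← Finset.sum_smul, hHdef]
    congr 1
    exact (map_sum (eval₂RingHom lam x) _ _).symm
  have hsum : ∀ f : Fin m → R₀[X],
      ∑ j, eval₂ lam x (∑ i, (f i).map (algebraMap R₀ R') * H j i) • b j =
        (algebraMap R₀ F h * (aeval x T : F) ^ (k * s)) • ∑ i, (aeval x (f i) : F) • w i := by
    intro f
    rw [Finset.smul_sum]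
    have h1 : ∀ i, (algebraMap R₀ F h * (aeval x T : F) ^ (k * s)) • (aeval x (f i) : F) • w i =
        ∑ j, eval₂ lam x ((f i).map (algebraMap R₀ R') * H j i) • b j := by
      intro i
      rw [smul_comm, hHw i, Finset.smul_sum]
      refine Finset.sum_congr rfl fun j _ => ?_
      rw [eval₂_mul, hev0, smul_smul]
    simp only [h1]
    rw [Finset.sum_comm]
    refine Finset.sum_congr rfl fun j _ => ?_
    rw [← Finset.sum_smul]
    congr 1
    exact map_sum (eval₂RingHom lam x) _ _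
  have hH : ∀ f : Fin m → R₀[X], (∀ j, ∑ i, (f i).map (algebraMap R₀ R') * H j i = 0) →
      f = 0 := by
    intro f hf
    have h1 := hsum f
    simp only [hf, eval₂_zero, zero_smul, Finset.sum_const_zero] at h1
    have h2 := (smul_eq_zero.mp h1.symm).resolve_left (mul_ne_zero hhF (pow_ne_zero _ hTx))
    exact hindw f h2
  obtain ⟨h', hh', hmod⟩ := indep_mod_poly hinj' H hH hg'
  refine ⟨h', hh', fun 𝔪₀ h𝔪₀ hS₀ hhm p hp hp𝔪 => ?_⟩
  have hS₀' : 𝔪₀ ∈ S := by
    have h1 : 𝔪₀.comap (algebraMap R₀ R₀) = 𝔪₀ := Ideal.comap_id 𝔪₀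
    rwa [h1] at hS₀
  have claim1 : ∀ l, nabla^[p * n₁] (b l) ∈
      𝔪₀.map (algebraMap R₀ (CoordRing x T₀ R₀)) • E₀ := by
    intro l
    obtain ⟨a', f, -, h1⟩ := rep_of_mem hT₀x hE₀def (hiterE (p * n₁) _ (hbE₀ l))
    have hrel : ∀ j, T' ^ (p * n₁) * ∑ i, (f i).map (algebraMap R₀ R') * H j i =
        (C h).map (algebraMap R₀ R') * T' ^ s * (T₀.map (algebraMap R₀ R')) ^ a' *
          QQ T' M (p * n₁) j l := by
      intro j
      have h2 := hind (fun j => T' ^ (p * n₁) * ∑ i, (f i).map (algebraMap R₀ R') * H j i -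
        (C h).map (algebraMap R₀ R') * T' ^ s * (T₀.map (algebraMap R₀ R')) ^ a' *
          QQ T' M (p * n₁) j l) ?_
      · exact sub_eq_zero.mp (congrFun h2 j)
      · simp only [eval₂_sub, sub_smul, Finset.sum_sub_distrib, eval₂_mul, mul_smul, hevT',
          eval₂_pow, hev0]
        rw [← Finset.smul_sum, hsum f, ← h1, ← Finset.smul_sum, ← Finset.smul_sum,
          ← Finset.smul_sum, ← hit (p * n₁) l]
        simp only [smul_smul, aeval_C]
        rw [sub_eq_zero]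
        congr 1
        ring
    have hcf : ∀ i t, (f i).coeff t ∈ 𝔪₀ := by
      refine hmod 𝔪₀ h𝔪₀ hhm f fun 𝔪' h𝔪' hx' hgm j t => ?_
      have hS' : 𝔪'.comap (algebraMap R₀ R') ∈ S := by
        have h5 : 𝔪₀ = 𝔪'.comap (algebraMap R₀ R') :=
          h𝔪₀.eq_of_le (Ideal.comap_ne_top _ h𝔪'.ne_top) fun y hy => hx' y hy
        rw [← h5]
        exact hS₀'
      have hp' : (p : R') ∈ 𝔪' := by
        have h2 := hx' _ hp𝔪
        rwa [map_natCast] at h2
      have h2 := congrArg (Polynomial.map (Ideal.Quotient.mk 𝔪')) (hrel j)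
      have h3 : (QQ T' M (p * n₁) j l).map (Ideal.Quotient.mk 𝔪') = 0 := by
        ext i
        rw [coeff_map, coeff_zero]
        exact Ideal.Quotient.eq_zero_iff_mem.mpr (hstar 𝔪' h𝔪' hS' hgm p hp hp' j l i)
      rw [Polynomial.map_mul, Polynomial.map_mul, h3, mul_zero, Polynomial.map_pow] at h2
      let _ : Field (R' ⧸ 𝔪') := Ideal.Quotient.field 𝔪'
      have h4 := (mul_eq_zero.mp h2).resolve_left
        (pow_ne_zero _ (hTθ 𝔪' h𝔪' (hg'2 𝔪' hgm)))
      have h5 := congrArg (fun q => q.coeff t) h4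
      simp only [coeff_map, coeff_zero] at h5
      exact Ideal.Quotient.eq_zero_iff_mem.mp h5
    have h2 : nabla^[p * n₁] (b l) = ∑ i,
        ((⟨(aeval x T₀ : F)⁻¹, inv_mem_coord x T₀⟩ : CoordRing x T₀ R₀) ^ a' *
          (⟨aeval x (f i), aeval_mem x T₀ (f i)⟩ : CoordRing x T₀ R₀)) • w i := by
      have h3 : nabla^[p * n₁] (b l) = ((aeval x T₀ : F)⁻¹ ^ a') •
          ∑ i, (aeval x (f i) : F) • w i := by
        rw [← h1, smul_smul, ← mul_pow, inv_mul_cancel₀ hT₀x, one_pow, one_smul]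
      rw [h3, Finset.smul_sum]
      refine Finset.sum_congr rfl fun i _ => ?_
      rw [smul_smul]
      rfl
    rw [h2]
    refine Submodule.sum_mem _ fun i _ => Submodule.smul_mem_smul (Ideal.mul_mem_left _ _ ?_)
      (hwE i)
    have h3 : (⟨aeval x (f i), aeval_mem x T₀ (f i)⟩ : CoordRing x T₀ R₀) =
        ∑ t ∈ Finset.range ((f i).natDegree + 1),
          (⟨aeval x (X ^ t : R₀[X]), aeval_mem x T₀ _⟩ : CoordRing x T₀ R₀) *
            algebraMap R₀ (CoordRing x T₀ R₀) ((f i).coeff t) := by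
      apply Subtype.ext
      have h4 : ((∑ t ∈ Finset.range ((f i).natDegree + 1),
          (⟨aeval x (X ^ t : R₀[X]), aeval_mem x T₀ _⟩ : CoordRing x T₀ R₀) *
            algebraMap R₀ (CoordRing x T₀ R₀) ((f i).coeff t) : CoordRing x T₀ R₀) : F) =
          ∑ t ∈ Finset.range ((f i).natDegree + 1),
            (aeval x (X ^ t : R₀[X]) : F) * algebraMap R₀ F ((f i).coeff t) :=
        map_sum (CoordRing x T₀ R₀).val _ _
      rw [h4]
      change (aeval x (f i) : F) = _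
      rw [aeval_eq_sum_range]
      refine Finset.sum_congr rfl fun t _ => ?_
      rw [map_pow, aeval_X, Algebra.smul_def, mul_comm]
    rw [h3]
    exact Ideal.sum_mem _ fun t _ => Ideal.mul_mem_left _ _ (Ideal.mem_map_of_mem _ (hcf i t))
  have claims : ∀ ν, nabla^[p * n₁] (sv ν) ∈
      𝔪₀.map (algebraMap R₀ (CoordRing x T₀ R₀)) • E₀ := by
    intro ν
    rw [hsv ν, ← Function.iterate_add_apply, add_comm, Function.iterate_add_apply]
    exact iterate_mem (P := fun u => u ∈ 𝔪₀.map (algebraMap R₀ (CoordRing x T₀ R₀)) • E₀)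
      (fun u hu => nabla_mem δ₀ nabla hx₀ hnabla hE₀st 𝔪₀ hu) _ (claim1 (li ν))
  have hadd : ∀ (ω : Type) (t : Finset ω) (cc : ω → CoordRing x T₀ R₀) (uu : ω → V),
      (∀ i ∈ t, uu i ∈ E₀) → (∀ i ∈ t, nabla^[p * n₁] (uu i) ∈
        𝔪₀.map (algebraMap R₀ (CoordRing x T₀ R₀)) • E₀) →
      nabla^[p * n₁] (∑ i ∈ t, cc i • uu i) ∈
        𝔪₀.map (algebraMap R₀ (CoordRing x T₀ R₀)) • E₀ := by
    intro ω t cc uu huE hu
    induction t using Finset.induction_on with
    | empty => rw [Finset.sum_empty, iterate_map_zero]; exact Submodule.zero_mem _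
    | insert i t hi ih =>
      rw [Finset.sum_insert hi, iterate_map_add]
      refine Submodule.add_mem _ ?_ (ih (fun i hi => huE i (Finset.mem_insert_of_mem hi))
        fun i hi => hu i (Finset.mem_insert_of_mem hi))
      have h1 := psi_linear δ₀ nabla hx₀ hT₀x hnabla hE₀st hp hp𝔪 n₁ (cc i)
        (huE i (Finset.mem_insert_self _ _))
      have h2 := Submodule.add_mem _ h1 (Submodule.smul_mem _ (cc i)
        (hu i (Finset.mem_insert_self _ _)))
      rwa [sub_add_cancel] at h2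
  have hsvE : ∀ ν, sv ν ∈ E₀ := fun ν => hiterE _ _ (hbE₀ _)
  have claim2 : ∀ i, nabla^[p * n₁] (w i) ∈
      𝔪₀.map (algebraMap R₀ (CoordRing x T₀ R₀)) • E₀ := by
    intro i
    have h1 : w i = ∑ ν, (⟨(algebraMap R₀ F h)⁻¹ * aeval x (gτ ν i),
        Subalgebra.mul_mem _ hhinv (aeval_mem x T₀ _)⟩ : CoordRing x T₀ R₀) • sv ν := by
      have h2 : w i = (algebraMap R₀ F h)⁻¹ • ∑ ν, (aeval x (gτ ν i) : F) • sv ν := by
        rw [← hwτ i, smul_smul, inv_mul_cancel₀ hhF, one_smul]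
      rw [h2, Finset.smul_sum]
      refine Finset.sum_congr rfl fun ν _ => ?_
      rw [smul_smul]
      rfl
    rw [h1]
    exact hadd _ _ _ _ (fun ν _ => hsvE ν) (fun ν _ => claims ν)
  intro e he
  rw [hE₀def] at he
  obtain ⟨cc, rfl⟩ := (Submodule.mem_span_range_iff_exists_fun _).mp he
  exact hadd _ _ _ _ (fun i _ => hwE i) (fun i _ => claim2 i)

end Pool.Agent.W77.IM
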