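import Mathlib

set_option autoImplicit false

namespace Pool.Agent.W77.IM

open scoped TensorProduct

section disj

variable {k L F : Type*} [Field k] [Field L] [Field F] [Algebra k L] [Algebra L F] [Algebra k F]
  [IsScalarTower k L F] (dL : Derivation k L L) (dF : Derivation k F F)

/-- Constants which are independent over the constants of `L` are independent over `L`. -/
lemma linInd (hd : ∀ a, dF (algebraMap L F a) = algebraMap L F (dL a))
    (hk : ∀ a : L, dL a = 0 → ∃ c : k, algebraMap k L c = a) {ι : Type*} {c : ι → F}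
    (hc : ∀ i, dF (c i) = 0) (h : LinearIndependent k c) : LinearIndependent L c := by
  classical
  have hder : ∀ (u : L) (i : ι), dF (u • c i) = dL u • c i := by
    intro u i
    rw [Algebra.smul_def, Derivation.leibniz, hc, smul_zero, zero_add, hd, smul_eq_mul, mul_comm,
      Algebra.smul_def]
  rw [linearIndependent_iff'] at h ⊢
  intro s
  induction s using Finset.induction_on with
  | empty => intro g _ i hi; simp at hi
  | insert a s ha ih =>
    intro g hg
    have hga : g a = 0 := by
      by_contra hga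
      have h1 : ∑ i ∈ s, ((g a)⁻¹ * g i) • c i = -c a := by
        rw [Finset.sum_insert ha] at hg
        have h2 : ∑ i ∈ s, ((g a)⁻¹ * g i) • c i = (g a)⁻¹ • ∑ i ∈ s, g i • c i := by
          rw [Finset.smul_sum]
          exact Finset.sum_congr rfl fun i _ => mul_smul _ _ _
        have h3 : ∑ i ∈ s, g i • c i = -(g a • c a) := by
          rw [eq_neg_iff_add_eq_zero, add_comm]; exact hg
        rw [h2, h3, smul_neg, smul_smul, inv_mul_cancel₀ hga, one_smul]
      have h2 : ∑ i ∈ s, (dL ((g a)⁻¹ * g i)) • c i = 0 := by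
        have h3 := congrArg dF h1
        rw [map_sum, map_neg, hc, neg_zero] at h3
        rw [← h3]
        refine Finset.sum_congr rfl fun i _ => ?_
        exact (hder _ _).symm
      have h3 := ih _ h2
      have h4 : ∀ i, ∃ z : k, i ∈ s → algebraMap k L z = (g a)⁻¹ * g i := by
        intro i
        by_cases hi : i ∈ s
        · obtain ⟨z, hz⟩ := hk _ (h3 i hi)
          exact ⟨z, fun _ => hz⟩
        · exact ⟨0, fun h => absurd h hi⟩
      choose z hz using h4
      have h5 : ∑ i ∈ insert a s, (if i = a then (1 : k) else z i) • c i = 0 := by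
        rw [Finset.sum_insert ha, if_pos rfl, one_smul]
        have h6 : ∑ i ∈ s, (if i = a then (1 : k) else z i) • c i =
            ∑ i ∈ s, ((g a)⁻¹ * g i) • c i := by
          refine Finset.sum_congr rfl fun i hi => ?_
          rw [if_neg (by rintro rfl; exact ha hi), ← hz i hi, algebraMap_smul]
        rw [h6, h1, add_neg_cancel]
      have h6 := h _ _ h5 a (Finset.mem_insert_self _ _)
      rw [if_pos rfl] at h6
      exact one_ne_zero h6
    intro i hi
    rcases Finset.mem_insert.mp hi with rfl | hi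
    · exact hga
    · refine ih g ?_ i hi
      rw [Finset.sum_insert ha, hga, zero_smul, zero_add] at hg
      exact hg

/-- The multiplication map `L ⊗ B → F`. -/
noncomputable def jm (B : Subalgebra k F) : L ⊗[k] B →ₐ[L] F :=
  Algebra.TensorProduct.lift (Algebra.ofId L F) B.val (fun _ _ => Commute.all _ _)

/-- The specialisation `L ⊗ B → L` at a point of `B`. -/
noncomputable def sp (B : Subalgebra k F) (φ : B →ₐ[k] k) : L ⊗[k] B →ₐ[L] L :=
  Algebra.TensorProduct.lift (AlgHom.id L L) ((Algebra.ofId k L).comp φ)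
    (fun _ _ => Commute.all _ _)

omit [IsScalarTower k L F] [Algebra L F] in
lemma sp_tmul (B : Subalgebra k F) (φ : B →ₐ[k] k) (a : L) (b : B) :
    sp B φ (a ⊗ₜ[k] b) = a * algebraMap k L (φ b) := by
  simp [sp, Algebra.ofId_apply]

lemma jm_tmul (B : Subalgebra k F) (a : L) (b : B) :
    jm B (a ⊗ₜ[k] b) = algebraMap L F a * b := by
  simp [jm, Algebra.ofId_apply]

lemma jm_injective (hd : ∀ a, dF (algebraMap L F a) = algebraMap L F (dL a))
    (hk : ∀ a : L, dL a = 0 → ∃ c : k, algebraMap k L c = a) (B : Subalgebra k F)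
    (hB : ∀ b ∈ B, dF b = 0) : Function.Injective (jm (L := L) B) := by
  let bB := Module.Basis.ofVectorSpace k B
  let bT := Algebra.TensorProduct.basis L bB
  have h1 : LinearIndependent k fun i => (bB i : F) :=
    bB.linearIndependent.map' B.val.toLinearMap
      (LinearMap.ker_eq_bot.mpr Subtype.val_injective)
  have h2 : LinearIndependent L fun i => (bB i : F) :=
    linInd dL dF hd hk (fun i => hB _ (bB i).2) h1
  have h3 : ∀ i, jm (L := L) B (bT i) = (bB i : F) := by
    intro i
    rw [Algebra.TensorProduct.basis_apply, jm_tmul, map_one, one_mul]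
  rw [injective_iff_map_eq_zero]
  intro z hz
  have h4 : Finsupp.linearCombination L (fun i => (bB i : F)) (bT.repr z) = 0 := by
    rw [← hz]
    conv_rhs => rw [← bT.linearCombination_repr z]
    rw [Finsupp.linearCombination_apply, Finsupp.linearCombination_apply, Finsupp.sum,
      Finsupp.sum, map_sum]
    refine Finset.sum_congr rfl fun i _ => ?_
    rw [map_smul, h3]
  have h5 := (linearIndependent_iff.mp h2) _ h4
  exact bT.repr.map_eq_zero_iff.mp h5

/-- Both maps are compatible with the derivations. -/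
lemma exists_der (hd : ∀ a, dF (algebraMap L F a) = algebraMap L F (dL a)) (B : Subalgebra k F)
    (hB : ∀ b ∈ B, dF b = 0) (φ : B →ₐ[k] k) (z : L ⊗[k] B) :
    ∃ z' : L ⊗[k] B, jm B z' = dF (jm B z) ∧ sp B φ z' = dL (sp B φ z) := by
  induction z using TensorProduct.induction_on with
  | zero => exact ⟨0, by simp, by simp⟩
  | tmul a b =>
    refine ⟨dL a ⊗ₜ[k] b, ?_, ?_⟩
    · rw [jm_tmul, jm_tmul, Derivation.leibniz, hB _ b.2, smul_zero, zero_add, hd, smul_eq_mul,
        mul_comm]
    · rw [sp_tmul, sp_tmul, Derivation.leibniz, Derivation.map_algebraMap, smul_zero, zero_add,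
        smul_eq_mul, mul_comm]
  | add x y hx hy =>
    obtain ⟨x', hx1, hx2⟩ := hx
    obtain ⟨y', hy1, hy2⟩ := hy
    exact ⟨x' + y', by rw [map_add, hx1, hy1, map_add, map_add],
      by rw [map_add, hx2, hy2, map_add, map_add]⟩

omit [Algebra L F] [IsScalarTower k L F] in
/-- A nonzero element has a nonzero specialisation. -/
lemma exists_point [IsAlgClosed k] (B : Subalgebra k F) [Algebra.FiniteType k B] {z : L ⊗[k] B}
    (hz : z ≠ 0) : ∃ φ : B →ₐ[k] k, sp B φ z ≠ 0 := by
  classical
  let ε := Module.Basis.ofVectorSpace k L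
  let bT := Algebra.TensorProduct.basis B ε
  have h1 : bT.repr (TensorProduct.comm k L B z) ≠ 0 := by
    intro h
    rw [LinearEquiv.map_eq_zero_iff] at h
    exact hz ((TensorProduct.comm k L B).map_eq_zero_iff.mp h)
  obtain ⟨i, hi⟩ := Finsupp.ne_iff.mp h1
  rw [Finsupp.zero_apply] at hi
  have hjac : IsJacobsonRing B := isJacobsonRing_of_finiteType (A := k)
  obtain ⟨𝔫, h𝔫, hc⟩ : ∃ 𝔫 : Ideal B, 𝔫.IsMaximal ∧
      bT.repr (TensorProduct.comm k L B z) i ∉ 𝔫 := by
    by_contra! hcon
    have h2 : bT.repr (TensorProduct.comm k L B z) i ∈ (⊥ : Ideal B).jacobson := by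
      rw [Ideal.jacobson, Ideal.mem_sInf]
      rintro 𝔪 ⟨-, h𝔪⟩
      exact hcon 𝔪 h𝔪
    rw [← Ideal.radical_eq_jacobson] at h2
    obtain ⟨n, hn⟩ := h2
    exact hi (IsReduced.eq_zero _ ⟨n, Ideal.mem_bot.mp hn⟩)
  let _ : Field (B ⧸ 𝔫) := Ideal.Quotient.field 𝔫
  have hfin : Module.Finite k (B ⧸ 𝔫) := finite_of_finite_type_of_isJacobsonRing k (B ⧸ 𝔫)
  let φ : B →ₐ[k] k := (IsAlgClosed.lift (R := k) (S := B ⧸ 𝔫) (M := k)).comp
    (Ideal.Quotient.mkₐ k 𝔫)
  have hφ : φ (bT.repr (TensorProduct.comm k L B z) i) ≠ 0 := by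
    intro h
    have h2 : Ideal.Quotient.mkₐ k 𝔫 (bT.repr (TensorProduct.comm k L B z) i) = 0 :=
      (map_eq_zero_iff _ (RingHom.injective
        ((IsAlgClosed.lift (R := k) (S := B ⧸ 𝔫) (M := k)) : (B ⧸ 𝔫) →ₐ[k] k).toRingHom)).mp h
    exact hc (Ideal.Quotient.eq_zero_iff_mem.mp h2)
  refine ⟨φ, fun h0 => hφ ?_⟩
  have key : ∀ w : L ⊗[k] B, ε.repr (sp B φ w) i = φ (bT.repr (TensorProduct.comm k L B w) i) := by
    intro w
    induction w using TensorProduct.induction_on with
    | zero => simp
    | tmul a b =>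
      rw [sp_tmul, TensorProduct.comm_tmul, Algebra.TensorProduct.basis_repr_tmul]
      have h2 : a * algebraMap k L (φ b) = φ b • a := by
        rw [Algebra.smul_def, mul_comm]
      rw [h2, map_smul]
      simp [Finsupp.smul_apply]
    | add x y hx hy =>
      simp only [map_add, Finsupp.add_apply, hx, hy]
  rw [← key, h0, map_zero, Finsupp.zero_apply]

end disj

end Pool.Agent.W77.IM
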