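import Mathlib
import Pool.Agent.W77.IM.Disj

set_option autoImplicit false

namespace Pool.Agent.W77.IM

open scoped TensorProduct

section graph

variable {k L F : Type*} [Field k] [Field L] [Field F] [Algebra k L] [Algebra L F] [Algebra k F]
  [IsScalarTower k L F] (dL : Derivation k L L) (dF : Derivation k F F)

/-- `z` is the specialisation of `f` at the point `φ`. -/
def Sp (B : Subalgebra k F) (φ : B →ₐ[k] k) (f : F) (z : L) : Prop :=
  ∃ a b : L ⊗[k] B, sp B φ b ≠ 0 ∧ f * jm B b = jm B a ∧ z * sp B φ b = sp B φ a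

variable {B : Subalgebra k F} {φ : B →ₐ[k] k}

lemma Sp_algebraMap (a : L) : Sp B φ (algebraMap L F a) a :=
  ⟨a ⊗ₜ[k] 1, 1, by rw [map_one]; exact one_ne_zero, by
    rw [map_one, mul_one, jm_tmul]; simp, by
    rw [map_one, mul_one, sp_tmul, map_one, map_one, mul_one]⟩

lemma Sp_add {f g : F} {z w : L} (h : Sp B φ f z) (h' : Sp B φ g w) : Sp B φ (f + g) (z + w) := by
  obtain ⟨a, b, h1, h2, h3⟩ := h
  obtain ⟨a', b', h1', h2', h3'⟩ := h'
  refine ⟨a * b' + a' * b, b * b', ?_, ?_, ?_⟩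
  · rw [map_mul]; exact mul_ne_zero h1 h1'
  · rw [map_add, map_mul, map_mul, map_mul, ← h2, ← h2']; ring
  · rw [map_add, map_mul, map_mul, map_mul, ← h3, ← h3']; ring

lemma Sp_mul {f g : F} {z w : L} (h : Sp B φ f z) (h' : Sp B φ g w) : Sp B φ (f * g) (z * w) := by
  obtain ⟨a, b, h1, h2, h3⟩ := h
  obtain ⟨a', b', h1', h2', h3'⟩ := h'
  refine ⟨a * a', b * b', ?_, ?_, ?_⟩
  · rw [map_mul]; exact mul_ne_zero h1 h1'
  · rw [map_mul, map_mul, ← h2, ← h2']; ring
  · rw [map_mul, map_mul, ← h3, ← h3']; ring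

lemma Sp_sum {ι : Type*} (s : Finset ι) {f : ι → F} {z : ι → L} (h : ∀ i ∈ s, Sp B φ (f i) (z i)) :
    Sp B φ (∑ i ∈ s, f i) (∑ i ∈ s, z i) := by
  classical
  induction s using Finset.induction_on with
  | empty =>
    have h1 := Sp_algebraMap (F := F) (B := B) (φ := φ) (0 : L)
    rw [map_zero] at h1
    simpa using h1
  | insert a s ha ih =>
    rw [Finset.sum_insert ha, Finset.sum_insert ha]
    exact Sp_add (h a (Finset.mem_insert_self _ _))
      (ih fun i hi => h i (Finset.mem_insert_of_mem hi))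

lemma Sp_unique (hj : Function.Injective (jm (L := L) B)) {f : F} {z w : L} (h : Sp B φ f z)
    (h' : Sp B φ f w) : z = w := by
  obtain ⟨a, b, h1, h2, h3⟩ := h
  obtain ⟨a', b', h1', h2', h3'⟩ := h'
  have h4 : a * b' = a' * b := by
    apply hj
    rw [map_mul, map_mul, ← h2, ← h2']
    ring
  have h5 := congrArg (sp B φ) h4
  rw [map_mul, map_mul, ← h3, ← h3'] at h5
  have h6 : (sp B φ b * sp B φ b') * z = (sp B φ b * sp B φ b') * w := by
    linear_combination h5
  exact mul_left_cancel₀ (mul_ne_zero h1 h1') h6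

lemma Sp_der (hd : ∀ a, dF (algebraMap L F a) = algebraMap L F (dL a))
    (hB : ∀ b ∈ B, dF b = 0) {f : F} {z : L}
    (h : Sp B φ f z) : Sp B φ (dF f) (dL z) := by
  obtain ⟨a, b, h1, h2, h3⟩ := h
  obtain ⟨a', ha1, ha2⟩ := exists_der dL dF hd B hB φ a
  obtain ⟨b', hb1, hb2⟩ := exists_der dL dF hd B hB φ b
  refine ⟨a' * b - a * b', b * b, ?_, ?_, ?_⟩
  · rw [map_mul]; exact mul_ne_zero h1 h1
  · have h4 := congrArg dF h2
    rw [Derivation.leibniz] at h4
    simp only [smul_eq_mul] at h4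
    rw [map_sub, map_mul, map_mul, map_mul, ha1, hb1, ← h4, ← h2]
    ring
  · have h4 := congrArg dL h3
    rw [Derivation.leibniz] at h4
    simp only [smul_eq_mul] at h4
    rw [map_sub, map_mul, map_mul, map_mul, ha2, hb2, ← h4, ← h3]
    ring

end graph

section exist

variable {k L F : Type*} [Field k] [Field L] [Field F] [Algebra k L] [Algebra L F] [Algebra k F]
  [IsScalarTower k L F] (dL : Derivation k L L) (dF : Derivation k F F)

omit [Algebra k L] [IsScalarTower k L F] in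
lemma exists_finset_ring {y : F}
    (hy : y ∈ Subring.closure ({c | dF c = 0} ∪ Set.range (algebraMap L F))) :
    ∃ s : Finset F, (∀ c ∈ s, dF c = 0) ∧ y ∈ Algebra.adjoin L (s : Set F) := by
  classical
  induction hy using Subring.closure_induction with
  | mem y hy =>
    rcases hy with hy | ⟨a, rfl⟩
    · exact ⟨{y}, by simpa using hy, Algebra.subset_adjoin (by simp)⟩
    · exact ⟨∅, by simp, Subalgebra.algebraMap_mem _ _⟩
  | zero => exact ⟨∅, by simp, Subalgebra.zero_mem _⟩
  | one => exact ⟨∅, by simp, Subalgebra.one_mem _⟩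
  | add x y _ _ hx hy =>
    obtain ⟨s, hs1, hs2⟩ := hx
    obtain ⟨t, ht1, ht2⟩ := hy
    refine ⟨s ∪ t, fun c hc => (Finset.mem_union.mp hc).elim (hs1 c) (ht1 c), ?_⟩
    exact Subalgebra.add_mem _
      (Algebra.adjoin_mono (by exact_mod_cast Finset.subset_union_left) hs2)
      (Algebra.adjoin_mono (by exact_mod_cast Finset.subset_union_right) ht2)
  | neg x _ hx =>
    obtain ⟨s, hs1, hs2⟩ := hx
    exact ⟨s, hs1, Subalgebra.neg_mem _ hs2⟩
  | mul x y _ _ hx hy =>
    obtain ⟨s, hs1, hs2⟩ := hx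
    obtain ⟨t, ht1, ht2⟩ := hy
    refine ⟨s ∪ t, fun c hc => (Finset.mem_union.mp hc).elim (hs1 c) (ht1 c), ?_⟩
    exact Subalgebra.mul_mem _
      (Algebra.adjoin_mono (by exact_mod_cast Finset.subset_union_left) hs2)
      (Algebra.adjoin_mono (by exact_mod_cast Finset.subset_union_right) ht2)

omit [Algebra k L] [IsScalarTower k L F] in
lemma exists_finset (hgen : Subfield.closure ({c | dF c = 0} ∪ Set.range (algebraMap L F)) = ⊤)
    (fs : Finset F) : ∃ s : Finset F, (∀ c ∈ s, dF c = 0) ∧ ∀ f ∈ fs,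
      ∃ y ∈ Algebra.adjoin L (s : Set F), ∃ z ∈ Algebra.adjoin L (s : Set F), z ≠ 0 ∧ f * z = y := by
  classical
  induction fs using Finset.induction_on with
  | empty => exact ⟨∅, by simp, by simp⟩
  | insert f fs _ ih =>
    obtain ⟨s, hs1, hs2⟩ := ih
    have h1 : ∃ t : Finset F, (∀ c ∈ t, dF c = 0) ∧ ∃ y ∈ Algebra.adjoin L (t : Set F),
        ∃ z ∈ Algebra.adjoin L (t : Set F), z ≠ 0 ∧ f * z = y := by
      by_cases hf : f = 0
      · exact ⟨∅, by simp, 0, Subalgebra.zero_mem _, 1, Subalgebra.one_mem _, one_ne_zero, by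
          rw [hf, zero_mul]⟩
      · have h2 : f ∈ Subfield.closure ({c | dF c = 0} ∪ Set.range (algebraMap L F)) := by
          rw [hgen]; exact Subfield.mem_top f
        obtain ⟨y, hy, z, hz, hyz⟩ := Subfield.mem_closure_iff.mp h2
        obtain ⟨t₁, h11, h12⟩ := exists_finset_ring dF hy
        obtain ⟨t₂, h21, h22⟩ := exists_finset_ring dF hz
        have hz0 : z ≠ 0 := by
          rintro rfl
          rw [div_zero] at hyz
          exact hf hyz.symm
        refine ⟨t₁ ∪ t₂, fun c hc => (Finset.mem_union.mp hc).elim (h11 c) (h21 c), y,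
          Algebra.adjoin_mono (by exact_mod_cast Finset.subset_union_left) h12, z,
          Algebra.adjoin_mono (by exact_mod_cast Finset.subset_union_right) h22, hz0, ?_⟩
        rw [← hyz, div_mul_cancel₀ _ hz0]
    obtain ⟨t, ht1, ht2⟩ := h1
    refine ⟨s ∪ t, fun c hc => (Finset.mem_union.mp hc).elim (hs1 c) (ht1 c), fun g hg => ?_⟩
    rcases Finset.mem_insert.mp hg with rfl | hg
    · obtain ⟨y, hy, z, hz, h⟩ := ht2
      exact ⟨y, Algebra.adjoin_mono (by exact_mod_cast Finset.subset_union_right) hy, z,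
        Algebra.adjoin_mono (by exact_mod_cast Finset.subset_union_right) hz, h⟩
    · obtain ⟨y, hy, z, hz, h⟩ := hs2 g hg
      exact ⟨y, Algebra.adjoin_mono (by exact_mod_cast Finset.subset_union_left) hy, z,
        Algebra.adjoin_mono (by exact_mod_cast Finset.subset_union_left) hz, h⟩

/-- Finitely many elements can be specialised simultaneously. -/
theorem exists_sp [IsAlgClosed k] (hd : ∀ a, dF (algebraMap L F a) = algebraMap L F (dL a))
    (hk : ∀ a : L, dL a = 0 → ∃ c : k, algebraMap k L c = a)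
    (hgen : Subfield.closure ({c | dF c = 0} ∪ Set.range (algebraMap L F)) = ⊤)
    (fs : Finset F) : ∃ (B : Subalgebra k F) (φ : B →ₐ[k] k), (∀ b ∈ B, dF b = 0) ∧
      Function.Injective (jm (L := L) B) ∧ ∀ f ∈ fs, ∃ z : L, Sp B φ f z := by
  classical
  obtain ⟨s, hs, hfs⟩ := exists_finset (L := L) dF hgen fs
  let B : Subalgebra k F := Algebra.adjoin k (s : Set F)
  have hB : ∀ b ∈ B, dF b = 0 := by
    intro b hb
    induction hb using Algebra.adjoin_induction with
    | mem x hx => exact hs x hx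
    | algebraMap a => exact dF.map_algebraMap a
    | add x y _ _ hx hy => rw [map_add, hx, hy, add_zero]
    | mul x y _ _ hx hy => rw [Derivation.leibniz, hx, hy, smul_zero, smul_zero, add_zero]
  have hft : Algebra.FiniteType k B :=
    (Subalgebra.fg_iff_finiteType _).mp (Subalgebra.fg_adjoin_finset s)
  have hj := jm_injective dL dF hd hk B hB
  have hle : Algebra.adjoin L (s : Set F) ≤ (jm (L := L) B).range := by
    refine Algebra.adjoin_le fun c hc => ?_
    exact ⟨(1 : L) ⊗ₜ[k] ⟨c, Algebra.subset_adjoin hc⟩, by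
      change jm B _ = _
      rw [jm_tmul, map_one, one_mul]⟩
  have h1 : ∀ f ∈ fs, ∃ a b : L ⊗[k] B, jm B b ≠ 0 ∧ f * jm B b = jm B a := by
    intro f hf
    obtain ⟨y, hy, z, hz, hz0, h⟩ := hfs f hf
    obtain ⟨a, rfl⟩ := hle hy
    obtain ⟨b, rfl⟩ := hle hz
    exact ⟨a, b, hz0, h⟩
  choose! α β hβ hαβ using h1
  have h2 : ∏ f ∈ fs, β f ≠ 0 := by
    intro h
    have h3 := congrArg (jm (L := L) B) h
    rw [map_prod, map_zero, Finset.prod_eq_zero_iff] at h3
    obtain ⟨f, hf, hf0⟩ := h3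
    exact hβ f hf hf0
  obtain ⟨φ, hφ⟩ := exists_point B h2
  rw [map_prod, Finset.prod_ne_zero_iff] at hφ
  refine ⟨B, φ, hB, hj, fun f hf => ⟨sp B φ (α f) / sp B φ (β f), α f, β f, hφ f hf, hαβ f hf, ?_⟩⟩
  rw [div_mul_cancel₀ _ (hφ f hf)]

end exist

end Pool.Agent.W77.IM
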