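import Mathlib
import Pool.Agent.W77.IM.Spec

set_option autoImplicit false

namespace Pool.Agent.W77.IM

open Module

universe w

section irr

variable {k L F : Type*} [Field k] [Field L] [Field F] [Algebra k L] [Algebra L F] [Algebra k F]
  [IsScalarTower k L F] (dL : Derivation k L L) (dF : Derivation k F F)

/-- A basis of an irreducible connection over the small field is independent over the large
field. -/
theorem indep_of_irred [IsAlgClosed k] (hd : ∀ a, dF (algebraMap L F a) = algebraMap L F (dL a))
    (hk : ∀ a : L, dL a = 0 → ∃ c : k, algebraMap k L c = a)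
    (hgen : Subfield.closure ({c | dF c = 0} ∪ Set.range (algebraMap L F)) = ⊤)
    {V : Type*} [AddCommGroup V] [Module F V] [Module L V] [IsScalarTower L F V]
    (nabla : V →+ V) (hnabla : ∀ (f : F) (v : V), nabla (f • v) = dF f • v + f • nabla v)
    (V₁ : Submodule L V) (hst : ∀ v ∈ V₁, nabla v ∈ V₁)
    (hirr : ∀ U : Submodule L V, U ≤ V₁ → (∀ v ∈ U, nabla v ∈ U) → U = ⊥ ∨ U = V₁)
    {n : ℕ} (v : Basis (Fin n) L V₁) : LinearIndependent F fun i => (v i : V) := by
  classical
  obtain ⟨κ, a, ha, hspan, hli⟩ := exists_linearIndependent' F fun i => (v i : V)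
  have hκ : Fintype κ := Fintype.ofInjective a ha
  have hli' := Fintype.linearIndependent_iff.mp hli
  have huniq : ∀ x y : κ → F, ∑ i, x i • (v (a i) : V) = ∑ i, y i • (v (a i) : V) → x = y := by
    intro x y hxy
    funext i
    have h1 : ∑ i, (x i - y i) • ((fun i => (v i : V)) ∘ a) i = 0 := by
      simp only [sub_smul, Finset.sum_sub_distrib, Function.comp_apply]
      rw [hxy, sub_self]
    exact sub_eq_zero.mp (hli' _ h1 i)
  have hex : ∀ u : V, u ∈ V₁ → ∃ c : κ → F, u = ∑ i, c i • (v (a i) : V) := by
    intro u hu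
    have h1 : u ∈ Submodule.span F (Set.range ((fun i => (v i : V)) ∘ a)) := by
      rw [hspan]
      have h2 := congrArg (fun z : V₁ => (z : V)) (v.sum_repr ⟨u, hu⟩)
      simp only [AddSubmonoidClass.coe_finsetSum, Submodule.coe_smul] at h2
      rw [← h2]
      refine Submodule.sum_mem _ fun i _ => ?_
      rw [← algebraMap_smul F]
      exact Submodule.smul_mem _ _ (Submodule.subset_span ⟨i, rfl⟩)
    obtain ⟨c, hc⟩ := (Submodule.mem_span_range_iff_exists_fun F).mp h1
    exact ⟨c, hc.symm⟩
  choose! c hc using hex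
  have hcadd : ∀ u ∈ V₁, ∀ w ∈ V₁, c (u + w) = c u + c w := by
    intro u hu w hw
    apply huniq
    rw [← hc _ (V₁.add_mem hu hw)]
    simp only [Pi.add_apply, add_smul, Finset.sum_add_distrib]
    rw [← hc u hu, ← hc w hw]
  have hcsmul : ∀ (l : L), ∀ u ∈ V₁, c (l • u) = fun i => algebraMap L F l * c u i := by
    intro l u hu
    apply huniq
    rw [← hc _ (V₁.smul_mem l hu)]
    simp only [mul_smul]
    rw [← Finset.smul_sum, ← hc u hu, algebraMap_smul]
  have hcv : ∀ i, c (v (a i) : V) = Pi.single i 1 := by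
    intro i
    apply huniq
    rw [← hc _ (v (a i)).2]
    rw [Finset.sum_eq_single i]
    · rw [Pi.single_eq_same, one_smul]
    · intro j _ hj
      rw [Pi.single_eq_of_ne hj, zero_smul]
    · intro h; exact absurd (Finset.mem_univ i) h
  have hcn : ∀ u ∈ V₁, ∀ l, c (nabla u) l = dF (c u l) + ∑ i, c u i * c (nabla (v (a i) : V)) l := by
    intro u hu l
    have h1 : c (nabla u) = fun l => dF (c u l) + ∑ i, c u i * c (nabla (v (a i) : V)) l := by
      apply huniq
      rw [← hc _ (hst u hu)]
      conv_lhs => rw [hc u hu, map_sum]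
      simp only [hnabla, add_smul, Finset.sum_add_distrib]
      congr 1
      simp only [Finset.sum_smul]
      rw [Finset.sum_comm]
      refine Finset.sum_congr rfl fun i _ => ?_
      conv_lhs => rw [hc _ (hst _ (v (a i)).2), Finset.smul_sum]
      simp only [mul_smul]
    rw [h1]
  -- the specialisation
  obtain ⟨B, φ, hB, hj, hsp⟩ := exists_sp dL dF hd hk hgen
    (Finset.univ.image fun ji : Fin n × κ => c (v ji.1 : V) ji.2)
  have hsp' : ∀ j i, ∃ z : L, Sp B φ (c (v j : V) i) z := fun j i =>
    hsp _ (Finset.mem_image_of_mem _ (Finset.mem_univ (j, i)))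
  have hex2 : ∀ u ∈ V₁, ∀ i, ∃ z : L, Sp B φ (c u i) z := by
    intro u hu i
    choose z hz using hsp'
    have h2 := congrArg (fun z : V₁ => (z : V)) (v.sum_repr ⟨u, hu⟩)
    simp only [AddSubmonoidClass.coe_finsetSum, Submodule.coe_smul] at h2
    have h3 : c u = fun i => ∑ j, algebraMap L F (v.repr ⟨u, hu⟩ j) * c (v j : V) i := by
      apply huniq
      rw [← hc u hu]
      simp only [Finset.sum_smul, mul_smul]
      rw [Finset.sum_comm]
      simp only [← Finset.smul_sum]
      conv_lhs => rw [← h2]
      refine Finset.sum_congr rfl fun j _ => ?_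
      rw [algebraMap_smul, ← hc _ (v j).2]
    rw [h3]
    exact ⟨∑ j, v.repr ⟨u, hu⟩ j * z j i, Sp_sum _ fun j _ =>
      Sp_mul (Sp_algebraMap _) (hz j i)⟩
  choose! z hz using hex2
  have hz0 : Sp B φ (0 : F) (0 : L) := by
    have h1 := Sp_algebraMap (F := F) (B := B) (φ := φ) (0 : L)
    rwa [map_zero] at h1
  have hz1 : Sp B φ (1 : F) (1 : L) := by
    have h1 := Sp_algebraMap (F := F) (B := B) (φ := φ) (1 : L)
    rwa [map_one] at h1
  have hzadd : ∀ u ∈ V₁, ∀ w ∈ V₁, z (u + w) = z u + z w := by
    intro u hu w hw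
    funext i
    refine Sp_unique hj (hz _ (V₁.add_mem hu hw) i) ?_
    rw [hcadd u hu w hw]
    exact Sp_add (hz u hu i) (hz w hw i)
  have hzsmul : ∀ (l : L), ∀ u ∈ V₁, z (l • u) = l • z u := by
    intro l u hu
    funext i
    refine Sp_unique hj (hz _ (V₁.smul_mem l hu) i) ?_
    rw [hcsmul l u hu]
    exact Sp_mul (Sp_algebraMap l) (hz u hu i)
  let Rd : V₁ →ₗ[L] (κ → L) :=
    { toFun := fun u => z u
      map_add' := fun u w => hzadd u u.2 w w.2
      map_smul' := fun l u => hzsmul l u u.2 }
  -- the kernel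
  have hker := hirr ((LinearMap.ker Rd).map V₁.subtype) (Submodule.map_subtype_le _ _) (by
    rintro _ ⟨u, hu, rfl⟩
    rw [SetLike.mem_coe, LinearMap.mem_ker] at hu
    have hu0 : z (u : V) = 0 := hu
    refine ⟨⟨nabla u, hst u u.2⟩, ?_, rfl⟩
    rw [SetLike.mem_coe, LinearMap.mem_ker]
    change z (nabla (u : V)) = 0
    funext l
    refine Sp_unique hj (hz _ (hst u u.2) l) ?_
    rw [hcn u u.2 l]
    have h1 : (0 : κ → L) l = dL 0 + ∑ i : κ, (0 : L) * z (nabla (v (a i) : V)) l := by
      rw [map_zero]; simp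
    rw [h1]
    refine Sp_add ?_ (Sp_sum _ fun i _ => Sp_mul ?_ (hz _ (hst _ (v (a i)).2) l))
    · refine Sp_der dL dF hd hB ?_
      have := hz u u.2 l
      rwa [hu0] at this
    · have := hz u u.2 i
      rwa [hu0] at this)
  rcases hker with hker | hker
  · have hinj : Function.Injective Rd := by
      rw [injective_iff_map_eq_zero]
      intro u hu
      have h1 : (u : V) ∈ (LinearMap.ker Rd).map V₁.subtype := ⟨u, hu, rfl⟩
      rw [hker] at h1
      exact Subtype.ext ((Submodule.mem_bot L).mp h1)
    have hfin : Module.Finite L V₁ := Module.Finite.of_basis v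
    have h1 := LinearMap.finrank_le_finrank_of_injective hinj
    rw [finrank_eq_card_basis v, Fintype.card_fin, Module.finrank_fintype_fun_eq_card] at h1
    have hbij : Function.Bijective a := by
      rw [Fintype.bijective_iff_injective_and_card]
      refine ⟨ha, le_antisymm (Fintype.card_le_of_injective a ha) ?_⟩
      rwa [Fintype.card_fin]
    have h2 := (linearIndependent_equiv (R := F) (Equiv.ofBijective a hbij)
      (f := fun i => (v i : V))).mp hli
    exact h2
  · -- everything is zero
    have hn : IsEmpty κ := by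
      constructor
      intro i
      have h1 : (v (a i) : V) ∈ (LinearMap.ker Rd).map V₁.subtype := by
        rw [hker]; exact (v (a i)).2
      obtain ⟨u, hu, hu'⟩ := h1
      have h2 : u = v (a i) := Subtype.ext hu'
      rw [SetLike.mem_coe, LinearMap.mem_ker, h2] at hu
      have h3 : z (v (a i) : V) i = 0 := congrFun hu i
      have h4 := hz _ (v (a i)).2 i
      rw [hcv i, Pi.single_eq_same, h3] at h4
      exact zero_ne_one (Sp_unique hj h4 hz1)
    have hzero : ∀ j, (v j : V) = 0 := by
      intro j
      rw [hc _ (v j).2]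
      exact Finset.sum_of_isEmpty _
    have hne : IsEmpty (Fin n) := by
      constructor
      intro j
      exact v.ne_zero j (Subtype.ext (hzero j))
    exact linearIndependent_empty_type

/-- A connection which is spanned by a finite dimensional connection over the small field has a
filtration with graded pieces defined over the small field. -/
theorem exists_block [IsAlgClosed k] (hd : ∀ a, dF (algebraMap L F a) = algebraMap L F (dL a))
    (hk : ∀ a : L, dL a = 0 → ∃ c : k, algebraMap k L c = a)
    (hgen : Subfield.closure ({c | dF c = 0} ∪ Set.range (algebraMap L F)) = ⊤) (N : ℕ) :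
    ∀ (V : Type w) [AddCommGroup V] [Module F V] [Module L V] [IsScalarTower L F V]
      [FiniteDimensional F V]
      (nabla : V →+ V) (_ : ∀ (f : F) (v : V), nabla (f • v) = dF f • v + f • nabla v)
      (V₀ : Submodule L V) (_ : Module.Finite L V₀) (_ : ∀ v ∈ V₀, nabla v ∈ V₀)
      (_ : Submodule.span F (V₀ : Set V) = ⊤) (_ : finrank F V ≤ N),
      ∃ (ι : Type) (_ : Fintype ι) (b : Basis ι F V) (h : ι → ℕ), ∀ i j,
        (h i = h j → b.repr (nabla (b j)) i ∈ Set.range (algebraMap L F)) ∧
        (h j < h i → b.repr (nabla (b j)) i = 0) := by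
  classical
  induction N with
  | zero =>
    intro V _ _ _ _ _ nabla _ V₀ _ _ _ hN
    have h0 : finrank F V = 0 := Nat.le_zero.mp hN
    have hsub : Subsingleton V := finrank_zero_iff.mp h0
    exact ⟨Empty, inferInstance, Basis.empty V, fun _ => 0, fun i => i.elim⟩
  | succ N ih =>
    intro V _ _ _ _ _ nabla hnabla V₀ hfin hst hspan hN
    by_cases hV : Subsingleton V
    · exact ⟨Empty, inferInstance, Basis.empty V, fun _ => 0, fun i => i.elim⟩
    -- a minimal stable subspace
    have hex : ∃ (d : ℕ) (U : Submodule L V), U ≤ V₀ ∧ U ≠ ⊥ ∧ (∀ v ∈ U, nabla v ∈ U) ∧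
        finrank L U = d := by
      refine ⟨_, V₀, le_rfl, ?_, hst, rfl⟩
      rintro rfl
      rw [Submodule.bot_coe, Submodule.span_zero_singleton] at hspan
      exact hV (Submodule.subsingleton_iff F |>.mp (subsingleton_of_bot_eq_top hspan))
    obtain ⟨V₁, hle, hne, hst₁, hfr⟩ := Nat.find_spec hex
    have hmin := fun d (hd : d < Nat.find hex) => Nat.find_min hex hd
    rw [← hfr] at hmin
    have hfin₁ : Module.Finite L V₁ := Submodule.finiteDimensional_of_le hle
    have hirr : ∀ U : Submodule L V, U ≤ V₁ → (∀ v ∈ U, nabla v ∈ U) → U = ⊥ ∨ U = V₁ := by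
      intro U hU hUst
      by_cases hU0 : U = ⊥
      · exact Or.inl hU0
      · refine Or.inr (Submodule.eq_of_le_of_finrank_le hU ?_)
        by_contra hcon
        exact hmin _ (not_le.mp hcon) ⟨U, hU.trans hle, hU0, hUst, rfl⟩
    let v : Basis (Fin (finrank L V₁)) L V₁ := finBasis L V₁
    have hli := indep_of_irred dL dF hd hk hgen nabla hnabla V₁ hst₁ hirr v
    let S : Submodule F V := Submodule.span F (Set.range fun i => (v i : V))
    let bS : Basis (Fin (finrank L V₁)) F S := Basis.span hli
    have hbS : ∀ i, ((bS i : S) : V) = v i := fun i => congrArg Subtype.val (Basis.span_apply hli i)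
    have hV₁S : ∀ u ∈ V₁, u ∈ S := by
      intro u hu
      have h2 := congrArg (fun z : V₁ => (z : V)) (v.sum_repr ⟨u, hu⟩)
      simp only [AddSubmonoidClass.coe_finsetSum, Submodule.coe_smul] at h2
      rw [← h2]
      refine Submodule.sum_mem _ fun i _ => ?_
      rw [← algebraMap_smul F]
      exact Submodule.smul_mem _ _ (Submodule.subset_span ⟨i, rfl⟩)
    have hSst : ∀ u ∈ S, nabla u ∈ S := by
      intro u hu
      induction hu using Submodule.span_induction with
      | mem u hu =>
        obtain ⟨i, rfl⟩ := hu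
        exact hV₁S _ (hst₁ _ (v i).2)
      | zero => rw [map_zero]; exact S.zero_mem
      | add a b _ _ ha hb => rw [map_add]; exact S.add_mem ha hb
      | smul f a ha' ha =>
        rw [hnabla]
        exact S.add_mem (S.smul_mem _ ha') (S.smul_mem _ ha)
    have hSne : S ≠ ⊥ := by
      intro h
      apply hne
      rw [Submodule.eq_bot_iff]
      intro u hu
      have := hV₁S u hu
      rw [h] at this
      exact (Submodule.mem_bot F).mp this
    -- the quotient
    have hcong : ∀ a b : V, S.mkQ a = S.mkQ b → S.mkQ (nabla a) = S.mkQ (nabla b) := by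
      intro a b hab
      rw [Submodule.mkQ_apply, Submodule.mkQ_apply, Submodule.Quotient.eq] at hab
      rw [Submodule.mkQ_apply, Submodule.mkQ_apply, Submodule.Quotient.eq, ← map_sub]
      exact hSst _ hab
    choose out hout using S.mkQ_surjective
    have hq : ∀ a : V, S.mkQ (nabla (out (S.mkQ a))) = S.mkQ (nabla a) :=
      fun a => hcong _ _ (hout _)
    let nQ : V ⧸ S →+ V ⧸ S :=
      { toFun := fun q => S.mkQ (nabla (out q))
        map_zero' := by
          have h1 := hq 0
          rw [map_zero, map_zero, map_zero] at h1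
          exact h1
        map_add' := by
          intro p q
          have h1 := hq (out p + out q)
          rw [map_add S.mkQ, hout, hout] at h1
          rw [h1, map_add nabla, map_add S.mkQ] }
    have hnQ : ∀ a, nQ (S.mkQ a) = S.mkQ (nabla a) := hq
    have hnQ' : ∀ (f : F) (q : V ⧸ S), nQ (f • q) = dF f • q + f • nQ q := by
      intro f q
      obtain ⟨a, rfl⟩ := S.mkQ_surjective q
      rw [← map_smul, hnQ, hnQ, hnabla, map_add, map_smul, map_smul]
    let V₀' : Submodule L (V ⧸ S) := V₀.map (S.mkQ.restrictScalars L)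
    have hfin' : Module.Finite L V₀' := inferInstance
    have hst' : ∀ q ∈ V₀', nQ q ∈ V₀' := by
      rintro _ ⟨a, ha, rfl⟩
      exact ⟨nabla a, hst a ha, (hnQ a).symm⟩
    have hspan' : Submodule.span F (V₀' : Set (V ⧸ S)) = ⊤ := by
      have h1 : (V₀' : Set (V ⧸ S)) = S.mkQ '' (V₀ : Set V) := rfl
      rw [h1, ← Submodule.map_span, hspan, Submodule.map_top, Submodule.range_mkQ]
    have hN' : finrank F (V ⧸ S) ≤ N := by
      have h1 := S.finrank_quotient_add_finrank
      have h2 : 0 < finrank F S := by
        rw [Nat.pos_iff_ne_zero, Ne, Submodule.finrank_eq_zero]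
        exact hSne
      omega
    obtain ⟨ι, hι, b, h, hb⟩ := ih (V ⧸ S) nQ hnQ' V₀' hfin' hst' hspan' hN'
    refine ⟨Fin (finrank L V₁) ⊕ ι, inferInstance, Basis.sumQuot bS b,
      Sum.elim (fun _ => 0) (fun i => h i + 1), ?_⟩
    rintro (i | i) (j | j)
    · refine ⟨fun _ => ?_, fun h => absurd h (lt_irrefl _)⟩
      rw [Basis.sumQuot_inl, hbS]
      have h1 : (bS.repr ⟨nabla (v j : V), hV₁S _ (hst₁ _ (v j).2)⟩) i =
          algebraMap L F (v.repr ⟨nabla (v j : V), hst₁ _ (v j).2⟩ i) := by
        have h2 : (⟨nabla (v j : V), hV₁S _ (hst₁ _ (v j).2)⟩ : S) =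
            ∑ l, algebraMap L F (v.repr ⟨nabla (v j : V), hst₁ _ (v j).2⟩ l) • bS l := by
          apply Subtype.ext
          simp only [AddSubmonoidClass.coe_finsetSum, Submodule.coe_smul, hbS]
          have h3 := congrArg (fun z : V₁ => (z : V))
            (v.sum_repr ⟨nabla (v j : V), hst₁ _ (v j).2⟩)
          simp only [AddSubmonoidClass.coe_finsetSum, Submodule.coe_smul] at h3
          conv_lhs => rw [← h3]
          exact Finset.sum_congr rfl fun l _ => (algebraMap_smul F _ _).symm
        rw [h2, map_sum]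
        simp only [map_smul, Basis.repr_self, Finsupp.coe_finsetSum, Finset.sum_apply,
          Finsupp.smul_apply, smul_eq_mul]
        rw [Finset.sum_eq_single i]
        · rw [Finsupp.single_eq_same, mul_one]
        · intro l _ hl
          rw [Finsupp.single_eq_of_ne (Ne.symm hl), mul_zero]
        · intro h; exact absurd (Finset.mem_univ i) h
      rw [Basis.sumQuot_repr_inl_of_mem bS b _ (hV₁S _ (hst₁ _ (v j).2)), h1]
      exact ⟨_, rfl⟩
    · exact ⟨fun h => absurd h (by simp), fun h => absurd h (by simp)⟩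
    · refine ⟨fun h => absurd h (by simp), fun _ => ?_⟩
      rw [Basis.sumQuot_inl, hbS]
      exact Basis.sumQuot_repr_inr_of_mem bS b _ (hV₁S _ (hst₁ _ (v j).2)) i
    · have h1 : (Basis.sumQuot bS b).repr (nabla (Basis.sumQuot bS b (Sum.inr j))) (Sum.inr i) =
          b.repr (nQ (b j)) i := by
        rw [Basis.sumQuot_repr_inr, ← hnQ, Submodule.mkQ_apply, Basis.sumQuot_inr]
      rw [h1]
      refine ⟨fun h' => (hb i j).1 ?_, fun h' => (hb i j).2 ?_⟩
      · simpa using h'
      · simpa using h'

end irr

end Pool.Agent.W77.IM
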