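import Mathlib
import Pool.Agent.W77.IM.Main
import Pool.Agent.W77.IM.Desc

set_option autoImplicit false

open Polynomial Module

namespace Pool.Agent.W77.IM

universe u v w

section defs

/-- The `p`-curvature of a connection `∇` with coordinate ring `A = R[x, 1/T]` and lattice `E` is
nilpotent at the maximal ideal `𝔪` of `R`: some power of `∇` maps a given element of `E` into
`𝔪 E`. -/
def NilpAt {R F V : Type*} [CommRing R] [Field F] [Algebra R F] [AddCommGroup V] [Module F V]
    {A : Subalgebra R F} (nabla : V →+ V) (E : Submodule A V) (𝔪 : Ideal R) : Prop :=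
  ∀ e ∈ E, ∃ n : ℕ, nabla^[n] e ∈ 𝔪.map (algebraMap R A) • E

/-- Nilpotent `p`-curvatures at all closed points of a dense open subset of `Spec R`. -/
def NilpotentPCurvatures {R F V : Type*} [CommRing R] [Field F] [Algebra R F] [AddCommGroup V]
    [Module F V] {A : Subalgebra R F} (nabla : V →+ V) (E : Submodule A V) : Prop :=
  ∃ g : R, g ≠ 0 ∧ ∀ 𝔪 : Ideal R, 𝔪.IsMaximal → g ∉ 𝔪 → NilpAt nabla E 𝔪

/-- The field of constants of a subfield. -/
def constField {R F : Type*} [CommRing R] [Field F] [Algebra R F] (δ : Derivation R F F)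
    (F₀ : Subfield F) : Subfield F where
  carrier := {c | c ∈ F₀ ∧ δ c = 0}
  mul_mem' := by
    rintro a b ⟨ha, ha'⟩ ⟨hb, hb'⟩
    exact ⟨F₀.mul_mem ha hb, by rw [Derivation.leibniz, ha', hb', smul_zero, smul_zero, add_zero]⟩
  one_mem' := ⟨F₀.one_mem, δ.map_one_eq_zero⟩
  add_mem' := by
    rintro a b ⟨ha, ha'⟩ ⟨hb, hb'⟩
    exact ⟨F₀.add_mem ha hb, by rw [map_add, ha', hb', add_zero]⟩
  zero_mem' := ⟨F₀.zero_mem, map_zero δ⟩
  neg_mem' := by
    rintro a ⟨ha, ha'⟩
    exact ⟨F₀.neg_mem ha, by rw [map_neg, ha', neg_zero]⟩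
  inv_mem' := by
    rintro a ⟨ha, ha'⟩
    exact ⟨F₀.inv_mem ha, by rw [Derivation.leibniz_inv, ha', smul_zero]⟩

/-- In a suitable basis of `V` the matrix of the connection is block upper triangular, with the
coefficients of the diagonal blocks in `F₀`: there is a filtration by subconnections with graded
pieces defined over `F₀`. -/
def GradedOver {F V : Type*} [Field F] [AddCommGroup V] [Module F V] (nabla : V →+ V)
    (F₀ : Subfield F) : Prop :=
  ∃ (ι : Type) (_ : Fintype ι) (b : Basis ι F V) (h : ι → ℕ), ∀ i j,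
    (h i = h j → b.repr (nabla (b j)) i ∈ F₀) ∧ (h j < h i → b.repr (nabla (b j)) i = 0)

end defs

theorem final {R₀ R : Type u} [CommRing R₀] [IsDomain R₀] [CharZero R₀]
    [Algebra.FiniteType ℤ R₀] [CommRing R] [IsDomain R] [Algebra R₀ R] [Algebra.FiniteType R₀ R]
    (hR₀ : Function.Injective (algebraMap R₀ R))
    {F : Type v} [Field F] [Algebra R F] [Algebra R₀ F] [IsScalarTower R₀ R F]
    (hR : Function.Injective (algebraMap R F)) (δ : Derivation R F F) (x : F) (hx : δ x = 1)
    (T : R₀[X]) (hT : T ≠ 0) {V : Type w} [AddCommGroup V] [Module F V] [FiniteDimensional F V]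
    (nabla : V →+ V) (hnabla : ∀ (f : F) (v : V), nabla (f • v) = δ f • v + f • nabla v)
    (E : Submodule (CoordRing x T R) V) (hfg : E.FG) (hE : ∀ e ∈ E, nabla e ∈ E)
    (hspan : Submodule.span F (E : Set V) = ⊤) (hnil : NilpotentPCurvatures nabla E) :
    (∃ W : Submodule (Subfield.closure (Set.range (algebraMap R₀ F) ∪ {x}) : Subfield F) V,
      W.FG ∧ (∀ w ∈ W, nabla w ∈ W) ∧ Submodule.span F (W : Set V) = ⊤) ∧
    ∀ F₀ : Subfield F, (∀ a : R₀, algebraMap R₀ F a ∈ F₀) → x ∈ F₀ → (∀ f ∈ F₀, δ f ∈ F₀) →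
      IsAlgClosed (constField δ F₀) → Subfield.closure ({c | δ c = 0} ∪ (F₀ : Set F)) = ⊤ →
      GradedOver nabla F₀ := by
  classical
  let K := FractionRing R
  let k₀ := FractionRing R₀
  have hinjK : Function.Injective (algebraMap R₀ K) := by
    rw [IsScalarTower.algebraMap_eq R₀ R K]
    exact (IsFractionRing.injective R K).comp hR₀
  let algk : Algebra k₀ K := (IsFractionRing.lift (A := R₀) (K := k₀) hinjK).toAlgebra
  have hsck : IsScalarTower R₀ k₀ K := IsScalarTower.of_algebraMap_eq fun a =>
    (IsFractionRing.lift_algebraMap hinjK a).symm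
  obtain ⟨m, w, a, ha, hw, hEw⟩ := descent_data K k₀ hR (δ.restrictScalars ℤ)
    (fun a => δ.map_algebraMap a) x hx T hT nabla hnabla E hfg hE hnil
  have hspanw : Submodule.span F (Set.range w) = ⊤ := by
    rw [← top_le_iff, ← hspan]
    exact Submodule.span_le.mpr hEw
  -- the general construction
  have key : ∀ L : Subfield F, (∀ i j, a i j ∈ L) → (∀ f ∈ L, δ f ∈ L) →
      ∃ W : Submodule L V, W.FG ∧ (∀ w ∈ W, nabla w ∈ W) ∧ Submodule.span F (W : Set V) = ⊤ := by
    intro L haL hδL
    refine ⟨Submodule.span L (Set.range w), Submodule.fg_span (Set.finite_range w), ?_, ?_⟩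
    · intro u hu
      induction hu using Submodule.span_induction with
      | mem u hu =>
        obtain ⟨j, rfl⟩ := hu
        rw [hw j]
        exact Submodule.sum_mem _ fun i _ => Submodule.smul_mem _ (⟨a i j, haL i j⟩ : L)
          (Submodule.subset_span ⟨i, rfl⟩)
      | zero => rw [map_zero]; exact Submodule.zero_mem _
      | add u v _ _ hu hv => rw [map_add]; exact Submodule.add_mem _ hu hv
      | smul c u hu' hu =>
        have h1 : nabla (c • u) = (⟨δ c, hδL c c.2⟩ : L) • u + c • nabla u := hnabla c u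
        rw [h1]
        exact Submodule.add_mem _ (Submodule.smul_mem _ _ hu') (Submodule.smul_mem _ _ hu)
    · rw [← top_le_iff, ← hspanw, Submodule.span_le]
      rintro _ ⟨j, rfl⟩
      exact Submodule.subset_span (Submodule.subset_span ⟨j, rfl⟩)
  refine ⟨key _ ha ?_, ?_⟩
  · intro f hf
    induction hf using Subfield.closure_induction with
    | mem f hf =>
      rcases hf with ⟨c, rfl⟩ | hf
      · rw [IsScalarTower.algebraMap_apply R₀ R F, δ.map_algebraMap]
        exact Subfield.zero_mem _
      · rw [Set.mem_singleton_iff] at hf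
        rw [hf, hx]
        exact Subfield.one_mem _
    | one => rw [δ.map_one_eq_zero]; exact Subfield.zero_mem _
    | add f g _ _ hf hg => rw [map_add]; exact Subfield.add_mem _ hf hg
    | neg f _ hf => rw [map_neg]; exact Subfield.neg_mem _ hf
    | inv f hf' hf =>
      rw [Derivation.leibniz_inv, smul_eq_mul]
      exact Subfield.mul_mem _ (Subfield.neg_mem _ (Subfield.pow_mem _
        (Subfield.inv_mem _ hf') _)) hf
    | mul f g hf' hg' hf hg =>
      rw [Derivation.leibniz, smul_eq_mul, smul_eq_mul]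
      exact Subfield.add_mem _ (Subfield.mul_mem _ hf' hg) (Subfield.mul_mem _ hg' hf)
  · intro F₀ hF₀ hxF₀ hδF₀ hclosed hgen
    have hle : Subfield.closure (Set.range (algebraMap R₀ F) ∪ {x}) ≤ F₀ := by
      rw [Subfield.closure_le]
      rintro f (⟨c, rfl⟩ | hf)
      · exact hF₀ c
      · rw [Set.mem_singleton_iff] at hf
        rw [hf]; exact hxF₀
    obtain ⟨W, hWfg, hWst, hWspan⟩ := key F₀ (fun i j => hle (ha i j)) hδF₀
    let k : Subfield F := constField δ F₀
    have hkL : k ≤ F₀ := fun c hc => hc.1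
    let algkL : Algebra k F₀ := (Subfield.inclusion hkL).toAlgebra
    have hsc : IsScalarTower k F₀ F := IsScalarTower.of_algebraMap_eq fun _ => rfl
    let dF : Derivation k F F :=
      { toFun := δ
        map_add' := map_add δ
        map_smul' := by
          intro c f
          change δ ((c : F) * f) = (c : F) * δ f
          rw [Derivation.leibniz, c.2.2, smul_zero, add_zero, smul_eq_mul]
        map_one_eq_zero' := δ.map_one_eq_zero
        leibniz' := δ.leibniz }
    let dL : Derivation k F₀ F₀ :=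
      { toFun := fun f => ⟨δ f, hδF₀ f f.2⟩
        map_add' := fun f g => Subtype.ext (map_add δ _ _)
        map_smul' := by
          intro c f
          apply Subtype.ext
          change δ ((c : F) * f) = (c : F) * δ f
          rw [Derivation.leibniz, c.2.2, smul_zero, add_zero, smul_eq_mul]
        map_one_eq_zero' := Subtype.ext δ.map_one_eq_zero
        leibniz' := fun f g => Subtype.ext (δ.leibniz _ _) }
    have hrange : Set.range (algebraMap F₀ F) = (F₀ : Set F) := by
      ext f
      constructor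
      · rintro ⟨c, rfl⟩; exact c.2
      · intro hf; exact ⟨⟨f, hf⟩, rfl⟩
    obtain ⟨ι, hι, b, h, hb⟩ := exists_block (k := k) (L := F₀) dL dF (fun _ => rfl)
      (fun c hc => ⟨⟨c, c.2, congrArg Subtype.val hc⟩, rfl⟩) (by rw [hrange]; exact hgen)
      (finrank F V) V nabla hnabla W (Module.Finite.iff_fg.mpr hWfg) hWst hWspan le_rfl
    refine ⟨ι, hι, b, h, fun i j => ⟨fun hij => ?_, (hb i j).2⟩⟩
    have := (hb i j).1 hij
    rwa [hrange] at this

end Pool.Agent.W77.IM
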