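import Mathlib
import Pool.Agent.W77.IM.CurvS
import Pool.Agent.W77.IM.Final

set_option autoImplicit false

open Polynomial Module

namespace Pool.Agent.W77.IM

universe u v w

theorem finalS {R₀ R : Type u} [CommRing R₀] [IsDomain R₀] [CharZero R₀]
    [Algebra.FiniteType ℤ R₀] [CommRing R] [IsDomain R] [Algebra R₀ R] [Algebra.FiniteType R₀ R]
    (hR₀ : Function.Injective (algebraMap R₀ R))
    {F : Type v} [Field F] [Algebra R F] [Algebra R₀ F] [IsScalarTower R₀ R F]
    (hR : Function.Injective (algebraMap R F)) (δ : Derivation R F F) (x : F) (hx : δ x = 1)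
    (T : R₀[X]) (hT : T ≠ 0) {V : Type w} [AddCommGroup V] [Module F V] [FiniteDimensional F V]
    (nabla : V →+ V) (hnabla : ∀ (f : F) (v : V), nabla (f • v) = δ f • v + f • nabla v)
    (E : Submodule (CoordRing x T R) V) (hfg : E.FG) (hE : ∀ e ∈ E, nabla e ∈ E)
    (hspan : Submodule.span F (E : Set V) = ⊤) {S : Set (Ideal R₀)} (hS : DensePoints S)
    (hnil : NilpotentOver S nabla E) (F₀ : Subfield F) (hF₀ : ∀ a : R₀, algebraMap R₀ F a ∈ F₀)
    (hxF₀ : x ∈ F₀) (hδF₀ : ∀ f ∈ F₀, δ f ∈ F₀) (hclosed : IsAlgClosed (constField δ F₀))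
    (hgen : Subfield.closure ({c | δ c = 0} ∪ (F₀ : Set F)) = ⊤) :
    GradedOver nabla F₀ := by
  classical
  obtain ⟨h, hh, E₀, hE₀fg, hE₀st, hE₀, -⟩ :=
    descent_core hR₀ hR δ x hx T hT nabla hnabla E hfg hE hS hnil
  obtain ⟨s₀, hs₀⟩ := hE₀fg
  have hcF : ∀ c ∈ CoordRing x (C h * T) R₀, c ∈ F₀ := by
    intro c hc
    induction hc using Algebra.adjoin_induction with
    | mem c hc =>
      rcases hc with rfl | hc
      · exact hxF₀
      · rw [Set.mem_singleton_iff] at hc
        rw [hc, aeval_eq_sum_range]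
        refine F₀.inv_mem (F₀.sum_mem fun i _ => ?_)
        rw [Algebra.smul_def]
        exact F₀.mul_mem (hF₀ _) (F₀.pow_mem hxF₀ _)
    | algebraMap c => exact hF₀ c
    | add a b _ _ ha hb => exact F₀.add_mem ha hb
    | mul a b _ _ ha hb => exact F₀.mul_mem ha hb
  have hE₀W : ∀ e ∈ E₀, e ∈ Submodule.span F₀ (s₀ : Set V) := by
    intro e he
    rw [← hs₀] at he
    induction he using Submodule.span_induction with
    | mem e he => exact Submodule.subset_span he
    | zero => exact Submodule.zero_mem _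
    | add a b _ _ ha hb => exact Submodule.add_mem _ ha hb
    | smul c e _ he => exact Submodule.smul_mem _ (⟨c, hcF c c.2⟩ : F₀) he
  have hsE₀ : ∀ e ∈ s₀, e ∈ E₀ := fun e he => hs₀ ▸ Submodule.subset_span he
  obtain ⟨W, hWfg, hWst, hWspan⟩ : ∃ W : Submodule F₀ V,
      W.FG ∧ (∀ w ∈ W, nabla w ∈ W) ∧ Submodule.span F (W : Set V) = ⊤ := by
    refine ⟨Submodule.span F₀ (s₀ : Set V), ⟨s₀, rfl⟩, ?_, ?_⟩
    · intro u hu
      induction hu using Submodule.span_induction with
      | mem u hu => exact hE₀W _ (hE₀st u (hsE₀ u hu))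
      | zero => rw [map_zero]; exact Submodule.zero_mem _
      | add u v _ _ hu hv => rw [map_add]; exact Submodule.add_mem _ hu hv
      | smul c u hu' hu =>
        have h1 : nabla (c • u) = (⟨δ c, hδF₀ c c.2⟩ : F₀) • u + c • nabla u := hnabla c u
        rw [h1]
        exact Submodule.add_mem _ (Submodule.smul_mem _ _ hu') (Submodule.smul_mem _ _ hu)
    · rw [← top_le_iff, ← hspan]
      refine (Submodule.span_le.mpr hE₀).trans (Submodule.span_mono ?_)
      exact fun e he => hE₀W e he
  let k : Subfield F := constField δ F₀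
  have hkL : k ≤ F₀ := fun c hc => hc.1
  let algkL : Algebra k F₀ := (Subfield.inclusion hkL).toAlgebra
  have hsc : IsScalarTower k F₀ F := IsScalarTower.of_algebraMap_eq fun _ => rfl
  let dF : Derivation k F F :=
    { toFun := δ
      map_add' := map_add δ
      map_smul' := by
        intro c f
        change δ ((c : F) * f) = (c : F) * δ f
        rw [Derivation.leibniz, c.2.2, smul_zero, add_zero, smul_eq_mul]
      map_one_eq_zero' := δ.map_one_eq_zero
      leibniz' := δ.leibniz }
  let dL : Derivation k F₀ F₀ :=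
    { toFun := fun f => ⟨δ f, hδF₀ f f.2⟩
      map_add' := fun f g => Subtype.ext (map_add δ _ _)
      map_smul' := by
        intro c f
        apply Subtype.ext
        change δ ((c : F) * f) = (c : F) * δ f
        rw [Derivation.leibniz, c.2.2, smul_zero, add_zero, smul_eq_mul]
      map_one_eq_zero' := Subtype.ext δ.map_one_eq_zero
      leibniz' := fun f g => Subtype.ext (δ.leibniz _ _) }
  have hrange : Set.range (algebraMap F₀ F) = (F₀ : Set F) := by
    ext f
    constructor
    · rintro ⟨c, rfl⟩; exact c.2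
    · intro hf; exact ⟨⟨f, hf⟩, rfl⟩
  obtain ⟨ι, hι, b, h, hb⟩ := exists_block (k := k) (L := F₀) dL dF (fun _ => rfl)
    (fun c hc => ⟨⟨c, c.2, congrArg Subtype.val hc⟩, rfl⟩) (by rw [hrange]; exact hgen)
    (finrank F V) V nabla hnabla W (Module.Finite.iff_fg.mpr hWfg) hWst hWspan le_rfl
  refine ⟨ι, hι, b, h, fun i j => ⟨fun hij => ?_, (hb i j).2⟩⟩
  have := (hb i j).1 hij
  rwa [hrange] at this

end Pool.Agent.W77.IM
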